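import Pool.Agent.H792R3.BB.Defs

set_option autoImplicit false

namespace Pool.Agent.H792R3.BB

open Filter Topology Set

namespace ANx

theorem q0_pos : 0 < q0 := by unfold q0; norm_num

/-- the inner circle -/
theorem inner (hLC : S_LC) (n : ℕ) (z : ℂ) (hn : 4 ≤ n) (hz : ‖z‖ * q0 ^ (n - 1) = 1) :
    ‖ff z‖ ≤ 34187 / 20000 * (q0 ^ (n * (n - 1) / 2) * ‖z‖ ^ n) := by
  obtain ⟨m, rfl⟩ : ∃ m, n = m + 1 := ⟨n - 1, by omega⟩
  rw [Nat.add_sub_cancel] at hz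
  have h1 := hLC m z (by omega) hz
  have h2 : (m + 1) * (m + 1 - 1) / 2 = m * (m - 1) / 2 + m := Nat.triangle_succ m
  rw [h2, pow_add, pow_succ]
  have h3 : q0 ^ (m * (m - 1) / 2) * q0 ^ m * (‖z‖ ^ m * ‖z‖)
      = q0 ^ (m * (m - 1) / 2) * ‖z‖ ^ m * (‖z‖ * q0 ^ m) := by ring
  rw [h3, hz, mul_one]
  exact h1

end ANx

open ANx in
theorem t_AN (hLC : S_LC) (hTE : S_TE) : S_AN := by
  intro n z hn h1 h2
  have hq := q0_pos
  have hd : Differentiable ℂ ff := hTE.1.1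
  rcases h1.eq_or_lt with h1 | h1
  · exact inner hLC n z hn h1.symm
  rcases h2.eq_or_lt with h2 | h2
  · exact hLC n z (by omega) h2
  set U : Set ℂ := {w : ℂ | 1 < ‖w‖ * q0 ^ (n - 1) ∧ ‖w‖ * q0 ^ n < 1} with hU
  set C : ℝ := 34187 / 20000 * q0 ^ (n * (n - 1) / 2) with hC
  have hqn : 0 < q0 ^ n := pow_pos hq n
  have hqn1 : 0 < q0 ^ (n - 1) := pow_pos hq _
  have hclU : closure U ⊆ {w : ℂ | 1 ≤ ‖w‖ * q0 ^ (n - 1) ∧ ‖w‖ * q0 ^ n ≤ 1} := by
    refine closure_minimal (fun w hw => ⟨hw.1.le, hw.2.le⟩) ?_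
    have c1 : Continuous fun w : ℂ => ‖w‖ * q0 ^ (n - 1) := by fun_prop
    have c2 : Continuous fun w : ℂ => ‖w‖ * q0 ^ n := by fun_prop
    exact (isClosed_le continuous_const c1).inter (isClosed_le c2 continuous_const)
  have hne : ∀ w : ℂ, 1 ≤ ‖w‖ * q0 ^ (n - 1) → w ≠ 0 := by
    rintro w hw rfl
    rw [norm_zero, zero_mul] at hw
    linarith
  have hopen : IsOpen U := by
    have c1 : Continuous fun w : ℂ => ‖w‖ * q0 ^ (n - 1) := by fun_prop
    have c2 : Continuous fun w : ℂ => ‖w‖ * q0 ^ n := by fun_prop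
    exact (isOpen_lt continuous_const c1).inter (isOpen_lt c2 continuous_const)
  have hbdd : Bornology.IsBounded U := by
    refine (Metric.isBounded_closedBall (x := (0 : ℂ)) (r := 1 / q0 ^ n)).subset fun w hw => ?_
    rw [mem_closedBall_zero_iff, le_div_iff₀ hqn]
    exact hw.2.le
  have hdc : DiffContOnCl ℂ (fun w => ff w / w ^ n) U := by
    refine DifferentiableOn.diffContOnCl fun w hw => ?_
    have hw0 := hne w (hclU hw).1
    exact ((hd w).div ((differentiableAt_id).pow n) (pow_ne_zero _ hw0)).differentiableWithinAt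
  have key : ∀ w : ℂ, 1 ≤ ‖w‖ * q0 ^ (n - 1) →
      ‖ff w‖ ≤ 34187 / 20000 * (q0 ^ (n * (n - 1) / 2) * ‖w‖ ^ n) → ‖ff w / w ^ n‖ ≤ C := by
    intro w hw hb
    have hw0 : 0 < ‖w‖ := norm_pos_iff.2 (hne w hw)
    rw [norm_div, norm_pow, div_le_iff₀ (pow_pos hw0 n), hC]
    linarith
  have hfr : ∀ w ∈ frontier U, ‖ff w / w ^ n‖ ≤ C := by
    intro w hw
    rw [hopen.frontier_eq] at hw
    obtain ⟨hw1, hw2⟩ := hw
    obtain ⟨h3, h4⟩ := hclU hw1
    rcases h3.eq_or_lt with h5 | h5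
    · exact key w h3 (inner hLC n w hn h5.symm)
    rcases h4.eq_or_lt with h6 | h6
    · exact key w h3 (hLC n w (by omega) h6)
    · exact absurd ⟨h5, h6⟩ hw2
  have hz : z ∈ closure U := subset_closure ⟨h1, h2⟩
  have hfin := Complex.norm_le_of_forall_mem_frontier_norm_le hbdd hdc hfr hz
  have hz0 : 0 < ‖z‖ := norm_pos_iff.2 (hne z h1.le)
  rw [norm_div, norm_pow, div_le_iff₀ (pow_pos hz0 n), hC] at hfin
  linarith

end Pool.Agent.H792R3.BB
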