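import Pool.Agent.H792R3.BB.Defs
set_option autoImplicit false

/-! The sequence of vertices of the Newton polygon of a power series. -/

namespace Pool.Agent.H792R3.BB

open Filter Topology Set

namespace CHaux

/-- one step -/
theorem step (b : ℕ → ℝ) (hb : ∀ k, 0 ≤ b k)
    (h0 : ∀ r : ℝ, 0 < r → Tendsto (fun n => b n * r ^ n) atTop (𝓝 0))
    (hinf : ∀ N : ℕ, ∃ n, N ≤ n ∧ b n ≠ 0) (n : ℕ) (S : ℝ) (hn : 0 < b n) (hS : 0 < S)
    (hle : ∀ k, b k * S ^ k ≤ b n * S ^ n) :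
    ∃ (n' : ℕ) (R : ℝ), n < n' ∧ S ≤ R ∧ 0 < b n' ∧ b n' * R ^ n' = b n * R ^ n ∧
      ∀ k, b k * R ^ k ≤ b n * R ^ n := by
  set A : Set ℝ := {T | S ≤ T ∧ ∀ k, n < k → b k * T ^ k ≤ b n * T ^ n} with hA
  have hSA : S ∈ A := ⟨le_refl S, fun k _ => hle k⟩
  have hcl : IsClosed A := by
    have : A = Ici S ∩ ⋂ k : ℕ, ⋂ _ : n < k, {T | b k * T ^ k ≤ b n * T ^ n} := by
      ext T
      simp [hA]
    rw [this]
    refine isClosed_Ici.inter (isClosed_iInter fun k => isClosed_iInter fun _ => ?_)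
    exact isClosed_le (by fun_prop) (by fun_prop)
  obtain ⟨k0, hk0, hbk0⟩ := hinf (n + 1)
  have hbk0' : 0 < b k0 := lt_of_le_of_ne (hb k0) (Ne.symm hbk0)
  have hbd : BddAbove A := by
    refine ⟨max 1 (b n / b k0), ?_⟩
    rintro T ⟨hT1, hT2⟩
    by_contra hcon
    push Not at hcon
    have hT3 : 1 < T := lt_of_le_of_lt (le_max_left _ _) hcon
    have hT4 : b n / b k0 < T := lt_of_le_of_lt (le_max_right _ _) hcon
    have h1 := hT2 k0 (by omega)
    obtain ⟨j, rfl⟩ : ∃ j, k0 = n + 1 + j := ⟨k0 - (n + 1), by omega⟩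
    have h2 : T ≤ T ^ (1 + j) := by
      calc T = T ^ 1 := (pow_one T).symm
        _ ≤ T ^ (1 + j) := pow_le_pow_right₀ hT3.le (by omega)
    have h3 : b n < b (n + 1 + j) * T ^ (1 + j) := by
      have h4 : b n < b (n + 1 + j) * T := by
        rw [div_lt_iff₀ hbk0'] at hT4
        linarith
      exact lt_of_lt_of_le h4 (mul_le_mul_of_nonneg_left h2 hbk0'.le)
    have h5 : 0 < T ^ n := by positivity
    have h6 : b (n + 1 + j) * T ^ (n + 1 + j) = (b (n + 1 + j) * T ^ (1 + j)) * T ^ n := by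
      rw [show n + 1 + j = (1 + j) + n by ring, pow_add, mul_assoc]
    rw [h6] at h1
    nlinarith
  set R : ℝ := sSup A with hR
  have hRA : R ∈ A := hcl.csSup_mem ⟨S, hSA⟩ hbd
  have hRpos : 0 < R := lt_of_lt_of_le hS hRA.1
  have hex : ∃ n', n < n' ∧ b n' * R ^ n' = b n * R ^ n := by
    by_contra hcon
    push Not at hcon
    have hstr : ∀ k, n < k → b k * R ^ k < b n * R ^ n := fun k hk =>
      lt_of_le_of_ne (hRA.2 k hk) (hcon k hk)
    have hpos : 0 < b n * R ^ n := by positivity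
    have h1 : ∀ᶠ k in atTop, b k * (2 * R) ^ k < b n * R ^ n :=
      (h0 (2 * R) (by positivity)).eventually_lt_const hpos
    obtain ⟨K, hK⟩ := eventually_atTop.1 h1
    have h2 : ∀ᶠ T in 𝓝[>] R, ∀ k ∈ Finset.Ioo n K, b k * T ^ k < b n * T ^ n := by
      rw [Finset.eventually_all]
      intro k hk
      have h3 : ContinuousAt (fun T : ℝ => b k * T ^ k) R := by fun_prop
      have h4 : ContinuousAt (fun T : ℝ => b n * T ^ n) R := by fun_prop
      exact (h3.eventually_lt h4 (hstr k (Finset.mem_Ioo.1 hk).1)).filter_mono nhdsWithin_le_nhds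
    have h5 : ∀ᶠ T in 𝓝[>] R, T ∈ Ioc R (2 * R) :=
      Ioc_mem_nhdsGT (by linarith)
    obtain ⟨T, hT1, hT2⟩ := (h2.and h5).exists
    have hTA : T ∈ A := by
      refine ⟨hRA.1.trans hT2.1.le, fun k hk => ?_⟩
      by_cases hkK : k < K
      · exact (hT1 k (Finset.mem_Ioo.2 ⟨hk, hkK⟩)).le
      · push Not at hkK
        have hT0 : 0 ≤ T := hRpos.le.trans hT2.1.le
        calc b k * T ^ k ≤ b k * (2 * R) ^ k :=
              mul_le_mul_of_nonneg_left (pow_le_pow_left₀ hT0 hT2.2 k) (hb k)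
          _ ≤ b n * R ^ n := (hK k hkK).le
          _ ≤ b n * T ^ n := mul_le_mul_of_nonneg_left
              (pow_le_pow_left₀ hRpos.le hT2.1.le n) hn.le
    exact absurd (le_csSup hbd hTA) (not_le.2 hT2.1)
  obtain ⟨n', hn', heq⟩ := hex
  refine ⟨n', R, hn', hRA.1, ?_, heq, ?_⟩
  · have hpos : 0 < b n' * R ^ n' := by rw [heq]; positivity
    exact (pos_iff_pos_of_mul_pos hpos).2 (by positivity)
  · intro k
    rcases lt_or_ge n k with hk | hk
    · exact hRA.2 k hk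
    · have h1 := hle k
      have h2 : (1 : ℝ) ≤ R / S := by rw [le_div_iff₀ hS]; linarith [hRA.1]
      have h3 : (R / S) ^ k ≤ (R / S) ^ n := pow_le_pow_right₀ h2 hk
      have h4 : ∀ i, b i * R ^ i = (b i * S ^ i) * (R / S) ^ i := by
        intro i
        rw [div_pow]
        field_simp
      rw [h4 k, h4 n]
      exact mul_le_mul h1 h3 (by positivity) (by positivity)

/-- the start -/
theorem start (b : ℕ → ℝ) (hb : ∀ k, 0 ≤ b k)
    (h0 : ∀ r : ℝ, 0 < r → Tendsto (fun n => b n * r ^ n) atTop (𝓝 0))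
    (hinf : ∀ N : ℕ, ∃ n, N ≤ n ∧ b n ≠ 0) :
    ∃ (n : ℕ) (S : ℝ), 0 < b n ∧ 0 < S ∧ ∀ k, b k * S ^ k ≤ b n * S ^ n := by
  classical
  have hex : ∃ n, b n ≠ 0 := by obtain ⟨n, -, h⟩ := hinf 0; exact ⟨n, h⟩
  set n := Nat.find hex with hn
  have hbn : 0 < b n := lt_of_le_of_ne (hb n) (Ne.symm (Nat.find_spec hex))
  have h1 : Tendsto b atTop (𝓝 0) := by simpa using h0 1 one_pos
  obtain ⟨C, hC⟩ := h1.bddAbove_range
  have hC' : ∀ k, b k ≤ C := fun k => hC ⟨k, rfl⟩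
  have hC0 : 0 < C := hbn.trans_le (hC' n)
  refine ⟨n, min 1 (b n / C), hbn, by positivity, fun k => ?_⟩
  set S := min 1 (b n / C) with hS
  have hS0 : 0 < S := by positivity
  have hS1 : S ≤ 1 := min_le_left _ _
  have hS2 : C * S ≤ b n := by
    have : S ≤ b n / C := min_le_right _ _
    rwa [le_div_iff₀ hC0, mul_comm] at this
  rcases lt_trichotomy k n with hk | hk | hk
  · have : b k = 0 := by
      by_contra hne
      exact Nat.find_min hex hk hne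
    rw [this, zero_mul]
    positivity
  · rw [hk]
  · obtain ⟨j, rfl⟩ : ∃ j, k = n + 1 + j := ⟨k - (n + 1), by omega⟩
    have h2 : S ^ (n + 1 + j) ≤ S ^ (n + 1) := pow_le_pow_of_le_one hS0.le hS1 (by omega)
    calc b (n + 1 + j) * S ^ (n + 1 + j) ≤ C * S ^ (n + 1) :=
          mul_le_mul (hC' _) h2 (by positivity) hC0.le
      _ = (C * S) * S ^ n := by ring
      _ ≤ b n * S ^ n := mul_le_mul_of_nonneg_right hS2 (by positivity)

end CHaux

theorem t_CH : S_CH := by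
  intro a h0 hinf
  set b : ℕ → ℝ := fun k => ‖a k‖ with hb
  have hb0 : ∀ k, 0 ≤ b k := fun k => norm_nonneg _
  have hinf' : ∀ N : ℕ, ∃ n, N ≤ n ∧ b n ≠ 0 := by
    intro N
    obtain ⟨n, h1, h2⟩ := hinf N
    exact ⟨n, h1, norm_ne_zero_iff.2 h2⟩
  -- the states
  let St := {p : ℕ × ℝ // 0 < b p.1 ∧ 0 < p.2 ∧ ∀ k, b k * p.2 ^ k ≤ b p.1 * p.2 ^ p.1}
  have hstep : ∀ p : St, ∃ q : St, p.1.1 < q.1.1 ∧ p.1.2 ≤ q.1.2 ∧
      b q.1.1 * q.1.2 ^ q.1.1 = b p.1.1 * q.1.2 ^ p.1.1 ∧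
      ∀ k, b k * q.1.2 ^ k ≤ b p.1.1 * q.1.2 ^ p.1.1 := by
    rintro ⟨⟨n, S⟩, h1, h2, h3⟩
    obtain ⟨n', R, g1, g2, g3, g4, g5⟩ := CHaux.step b hb0 h0 hinf' n S h1 h2 h3
    refine ⟨⟨(n', R), g3, lt_of_lt_of_le h2 g2, fun k => ?_⟩, g1, g2, g4, g5⟩
    show b k * R ^ k ≤ b n' * R ^ n'
    rw [g4]
    exact g5 k
  choose nx hnx using hstep
  obtain ⟨n0, S0, k1, k2, k3⟩ := CHaux.start b hb0 h0 hinf'
  let st : ℕ → St := fun m => Nat.rec ⟨(n0, S0), k1, k2, k3⟩ (fun _ p => nx p) m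
  have hst : ∀ m, st (m + 1) = nx (st m) := fun m => rfl
  have hn : StrictMono fun m => (st m).1.1 := strictMono_nat_of_lt_succ fun m => by
    show (st m).1.1 < (st (m + 1)).1.1
    rw [hst]
    exact (hnx (st m)).1
  have hRm : Monotone fun m => (st (m + 1)).1.2 := monotone_nat_of_le_succ fun m => by
    show (st (m + 1)).1.2 ≤ (st (m + 1 + 1)).1.2
    rw [hst (m + 1)]
    exact (hnx (st (m + 1))).2.1
  have hmax : ∀ m k, b k * (st (m + 1)).1.2 ^ k ≤ b (st m).1.1 * (st (m + 1)).1.2 ^ (st m).1.1 := by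
    intro m k
    rw [hst]
    exact (hnx (st m)).2.2.2 k
  have heq : ∀ m, b (st (m + 1)).1.1 * (st (m + 1)).1.2 ^ (st (m + 1)).1.1 =
      b (st m).1.1 * (st (m + 1)).1.2 ^ (st m).1.1 := by
    intro m
    rw [hst]
    exact (hnx (st m)).2.2.1
  refine ⟨fun m => (st m).1.1, fun m => (st (m + 1)).1.2, hn, hRm, fun m => (st (m + 1)).2.2.1,
    ?_, fun m => norm_ne_zero_iff.1 (st m).2.1.ne', hmax, heq⟩
  -- the radii tend to infinity
  refine tendsto_atTop_atTop_of_monotone hRm fun B => ?_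
  by_contra hcon
  push Not at hcon
  have hB : 0 < B := (st 1).2.2.1.trans (hcon 0)
  have hc : 0 < b (st 0).1.1 * (st 1).1.2 ^ (st 0).1.1 := by
    have h1 := (st 0).2.1
    have h2 := (st 1).2.2.1
    positivity
  have hlow : ∀ m, b (st 0).1.1 * (st 1).1.2 ^ (st 0).1.1 ≤
      b (st (m + 1)).1.1 * B ^ (st (m + 1)).1.1 := by
    intro m
    have e1 : (st 1).1.2 ≤ (st (m + 1)).1.2 := hRm (Nat.zero_le m)
    calc b (st 0).1.1 * (st 1).1.2 ^ (st 0).1.1
        ≤ b (st 0).1.1 * (st (m + 1)).1.2 ^ (st 0).1.1 :=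
          mul_le_mul_of_nonneg_left (pow_le_pow_left₀ (st 1).2.2.1.le e1 _) (hb0 _)
      _ ≤ b (st m).1.1 * (st (m + 1)).1.2 ^ (st m).1.1 := hmax m _
      _ = b (st (m + 1)).1.1 * (st (m + 1)).1.2 ^ (st (m + 1)).1.1 := (heq m).symm
      _ ≤ b (st (m + 1)).1.1 * B ^ (st (m + 1)).1.1 :=
          mul_le_mul_of_nonneg_left
            (pow_le_pow_left₀ (st (m + 1)).2.2.1.le (hcon m).le _) (hb0 _)
  have htend : Tendsto (fun m => b (st (m + 1)).1.1 * B ^ (st (m + 1)).1.1) atTop (𝓝 0) :=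
    (h0 B hB).comp ((hn.tendsto_atTop).comp (tendsto_add_atTop_nat 1))
  have := ge_of_tendsto htend (Eventually.of_forall hlow)
  linarith

end Pool.Agent.H792R3.BB
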