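import Pool.Agent.H792R3.BB.Defs
set_option autoImplicit false

/-! Cauchy inequality for the maximum term (task CY). -/

namespace Pool.Agent.H792R3.BB

open Filter Topology Set

theorem t_CY : S_CY := by
  intro f hf r hr
  have hcont : Continuous f := hf.1.continuous
  have hbd : BddAbove ((fun z => ‖f z‖) '' Metric.sphere (0 : ℂ) r) :=
    ((isCompact_sphere (0 : ℂ) r).image (continuous_norm.comp hcont)).bddAbove
  have hle : ∀ n : ℕ, ‖tc f n‖ * r ^ n ≤ maxMod f r := by
    intro n
    have h1 : ‖iteratedDeriv n f 0‖ ≤ n.factorial * maxMod f r / r ^ n := by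
      apply Complex.norm_iteratedDeriv_le_of_forall_mem_sphere_norm_le n hr
      · exact hf.1.diffContOnCl
      · intro z hz
        exact le_csSup hbd ⟨z, hz, rfl⟩
    have hfac : (0 : ℝ) < n.factorial := by exact_mod_cast Nat.factorial_pos n
    have hrn : 0 < r ^ n := pow_pos hr n
    unfold tc
    rw [norm_div, Complex.norm_natCast]
    rw [div_mul_eq_mul_div, div_le_iff₀ hfac]
    rw [le_div_iff₀ hrn] at h1
    linarith
  have hB : BddAbove (Set.range fun n : ℕ => ‖tc f n‖ * r ^ n) := by
    refine ⟨maxMod f r, ?_⟩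
    rintro _ ⟨n, rfl⟩
    exact hle n
  refine ⟨hB, ?_, ciSup_le hle, hbd⟩
  by_contra hcon
  push Not at hcon
  apply hf.2
  refine ⟨0, fun z => ?_⟩
  have hz : ∀ n : ℕ, iteratedDeriv n f 0 = 0 := by
    intro n
    have h1 : ‖tc f n‖ * r ^ n ≤ 0 := le_trans (le_ciSup hB n) hcon
    have hrn : 0 < r ^ n := pow_pos hr n
    have h2 : ‖tc f n‖ ≤ 0 := by
      by_contra h3
      push Not at h3
      have := mul_pos h3 hrn
      linarith
    have h3 : tc f n = 0 := norm_le_zero_iff.mp h2
    unfold tc at h3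
    have hfac : (n.factorial : ℂ) ≠ 0 := by exact_mod_cast Nat.factorial_ne_zero n
    rcases div_eq_zero_iff.mp h3 with h | h
    · exact h
    · exact absurd h hfac
  have h4 := Complex.taylorSeries_eq_of_entire' 0 z hf.1
  rw [← h4]
  simp [hz]

end Pool.Agent.H792R3.BB
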