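import Mathlib
set_option autoImplicit false

/-! Bounds for the Clunie-Hayman constant beta = sup liminf (maximum term / maximum modulus)
(MP_4255df_an): 0.585 <= beta <= 0.632.  Definitions and the statements of the lemmas. -/

namespace Pool.Agent.H792R3.BB

open Filter Topology Set

/-- Taylor coefficient of `f` at the origin. -/
noncomputable def tc (f : ℂ → ℂ) (n : ℕ) : ℂ := iteratedDeriv n f 0 / (n.factorial : ℂ)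

/-- maximum term -/
noncomputable def mu (f : ℂ → ℂ) (r : ℝ) : ℝ := ⨆ n : ℕ, ‖tc f n‖ * r ^ n

/-- maximum modulus -/
noncomputable def maxMod (f : ℂ → ℂ) (r : ℝ) : ℝ :=
  sSup ((fun z => ‖f z‖) '' Metric.sphere (0 : ℂ) r)

/-- transcendental entire functions -/
def TransEntire (f : ℂ → ℂ) : Prop :=
  Differentiable ℂ f ∧ ¬ ∃ p : Polynomial ℂ, ∀ z, f z = p.eval z

/-- the constant beta -/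
noncomputable def beta : ℝ :=
  sSup {x : ℝ | ∃ f : ℂ → ℂ, TransEntire f ∧
    x = liminf (fun r : ℝ => mu f r / maxMod f r) atTop}

/-! ### upper bound -/

/-- `M` bounds the power series `a` on the circle of radius `r`. -/
def Bd (a : ℕ → ℂ) (r M : ℝ) : Prop :=
  0 < r ∧ Summable (fun n => ‖a n‖ * r ^ n) ∧ ∀ z : ℂ, ‖z‖ = r → ‖∑' n, a n * z ^ n‖ ≤ M

def S_QI : Prop := ∀ (a : ℕ → ℂ) (r M : ℝ), Bd a r M → ∀ (N : ℕ) (s : Finset ℕ) (g : ℕ → ℂ),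
  ‖∑ i ∈ s, ∑ j ∈ s, g i * g j *
    (if i + j ≤ N then a (N - (i + j)) * (r : ℂ) ^ (N - (i + j)) else 0)‖ ≤
    M * ∑ i ∈ s, ‖g i‖ ^ 2

def S_PA : Prop := ∀ (a : ℕ → ℂ) (r M : ℝ), Bd a r M → ∀ s : Finset ℕ,
  ∑ n ∈ s, (‖a n‖ * r ^ n) ^ 2 ≤ M ^ 2

/-- the sequence of vertices of the Newton polygon -/
def S_CH : Prop := ∀ a : ℕ → ℂ, (∀ r : ℝ, 0 < r → Tendsto (fun n => ‖a n‖ * r ^ n) atTop (𝓝 0)) →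
  (∀ N : ℕ, ∃ n, N ≤ n ∧ a n ≠ 0) →
  ∃ (n : ℕ → ℕ) (R : ℕ → ℝ), StrictMono n ∧ Monotone R ∧ (∀ m, 0 < R m) ∧
    Tendsto R atTop atTop ∧ (∀ m, a (n m) ≠ 0) ∧
    (∀ m k, ‖a k‖ * R m ^ k ≤ ‖a (n m)‖ * R m ^ (n m)) ∧
    (∀ m, ‖a (n (m + 1))‖ * R m ^ (n (m + 1)) = ‖a (n m)‖ * R m ^ (n m))

def S_GAP : Prop := ∀ n : ℕ → ℕ, StrictMono n →
  (∀ m₀ : ℕ, ∃ m, m₀ ≤ m ∧ n (m + 1) - n m < n (m + 2) - n (m + 1)) ∨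
  (∃ d m₀ : ℕ, 0 < d ∧ ∀ m, m₀ ≤ m → n (m + 1) = n m + d)

def S_OSC : Prop := ∀ (x : ℕ → ℝ) (ε : ℝ), 0 < ε → (∀ m, 0 ≤ x m) → (∀ m, x m ≤ 1) →
  ∀ m₀ : ℕ, ∃ m, m₀ ≤ m ∧ x m ≤ x (m + 1) + ε

noncomputable def K : ℝ := 125 / 79

def S_NA : Prop := ∀ u : ℝ, 0 ≤ u → u ≤ 1 → ∃ α s : ℝ, 0 ≤ α ∧ 0 ≤ s ∧
  K * (1 + α ^ 2 + α ^ 4 / 4 + s ^ 2) ≤
    1 + 2 * α - α ^ 3 * u ^ 2 - α ^ 4 / 4 * u ^ 3 + 2 * s * u - 2 * α * s * u ^ 2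
      - α ^ 2 * s * u ^ 3 - s ^ 2 * u ^ 3

def S_NB : Prop := ∀ u w : ℝ, 0 ≤ u → u ≤ 3 / 4 → 0 ≤ w → w ≤ 1 → w ≤ u + 1 / 10000 →
  ∃ α s : ℝ, 0 ≤ α ∧ 0 ≤ s ∧
  K * (1 + α ^ 2 + s ^ 2) ≤
    1 + 2 * α - α ^ 2 * u + 2 * s * u - 2 * α * s * u ^ 2 * w - s ^ 2 * u ^ 3 * w ^ 2

def S_LA : Prop := ∀ (a : ℕ → ℂ) (r M : ℝ), Bd a r M → ∀ (N d e : ℕ) (μ A : ℝ),
  0 < e → e < d → d + e ≤ N → 0 < μ → 0 ≤ A → A ≤ 1 →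
  ‖a N‖ * r ^ N = μ → ‖a (N - d)‖ * r ^ (N - d) = μ →
  ‖a (N - d - e)‖ * r ^ (N - d - e) = A ^ e * μ →
  (∀ k, k ≤ N - d → ‖a k‖ * r ^ k ≤ A ^ (N - d - k) * μ) → K * μ ≤ M

def S_LB : Prop := ∀ (a : ℕ → ℂ) (r M : ℝ), Bd a r M → ∀ (N d : ℕ) (μ x w : ℝ),
  0 < d → 2 * d ≤ N → 0 < μ → 0 ≤ x → x ≤ 1 → 0 ≤ w → w ≤ 1 → w ≤ x + 1 / 10000 →
  ‖a N‖ * r ^ N = μ → ‖a (N - d)‖ * r ^ (N - d) = μ →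
  ‖a (N - 2 * d)‖ * r ^ (N - 2 * d) = x * μ →
  (∀ k, k + 3 * d = N → ‖a k‖ * r ^ k ≤ x ^ 2 * w * μ) →
  (∀ k, k + 4 * d = N → ‖a k‖ * r ^ k ≤ x ^ 3 * w ^ 2 * μ) → K * μ ≤ M

def S_UP : Prop := ∀ a : ℕ → ℂ, (∀ r : ℝ, 0 < r → Summable (fun n => ‖a n‖ * r ^ n)) →
  (∀ N : ℕ, ∃ n, N ≤ n ∧ a n ≠ 0) → ∀ R₀ : ℝ, ∃ r, R₀ ≤ r ∧ 0 < r ∧ ∃ μ : ℝ, 0 < μ ∧
    (∀ k, ‖a k‖ * r ^ k ≤ μ) ∧ ∀ M : ℝ, Bd a r M → K * μ ≤ M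

def S_UF : Prop := ∀ f : ℂ → ℂ, TransEntire f →
  ∃ᶠ r : ℝ in atTop, mu f r ≤ 79 / 125 * maxMod f r

/-! ### lower bound -/

noncomputable def q0 : ℝ := 561 / 2000

noncomputable def p0 : ℂ := (561 / 2000 : ℂ) * ((-429 + 460 * Complex.I) / 629)

/-- the theta-like entire function -/
noncomputable def ff (z : ℂ) : ℂ := ∑' k : ℕ, p0 ^ (k * (k - 1) / 2) * z ^ k

def S_PX : Prop := ∀ x : ℝ, 0 ≤ x → x ≤ 1 →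
  4 * x * ‖1 + p0 * (4 * x - 3) + p0 ^ 3 * (16 * x ^ 2 - 20 * x + 5)
    + p0 ^ 6 * (64 * x ^ 3 - 112 * x ^ 2 + 56 * x - 7)‖ ^ 2 ≤ (17093 / 10000) ^ 2

def S_TH : Prop := ∀ w : ℂ, ‖w‖ = 1 →
  ‖1 + w + p0 * (w ^ 2 + w⁻¹) + p0 ^ 3 * (w ^ 3 + w⁻¹ ^ 2) + p0 ^ 6 * (w ^ 4 + w⁻¹ ^ 3)‖ ≤
    17093 / 10000

def S_LC : Prop := ∀ (n : ℕ) (z : ℂ), 3 ≤ n → ‖z‖ * q0 ^ n = 1 →
  ‖ff z‖ ≤ 34187 / 20000 * (q0 ^ (n * (n - 1) / 2) * ‖z‖ ^ n)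

def S_AN : Prop := ∀ (n : ℕ) (z : ℂ), 4 ≤ n → 1 ≤ ‖z‖ * q0 ^ (n - 1) → ‖z‖ * q0 ^ n ≤ 1 →
  ‖ff z‖ ≤ 34187 / 20000 * (q0 ^ (n * (n - 1) / 2) * ‖z‖ ^ n)

def S_TE : Prop := TransEntire ff ∧ ∀ n : ℕ, tc ff n = p0 ^ (n * (n - 1) / 2)

/-- `mu f r ≤ maxMod f r` and both are well behaved -/
def S_CY : Prop := ∀ f : ℂ → ℂ, TransEntire f → ∀ r : ℝ, 0 < r →
  BddAbove (Set.range fun n : ℕ => ‖tc f n‖ * r ^ n) ∧ 0 < mu f r ∧ mu f r ≤ maxMod f r ∧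
    BddAbove ((fun z => ‖f z‖) '' Metric.sphere (0 : ℂ) r)

def S_LOW : Prop := 117 / 200 ≤ liminf (fun r : ℝ => mu ff r / maxMod ff r) atTop

def S_FIN : Prop := 117 / 200 ≤ beta ∧ beta ≤ 79 / 125

end Pool.Agent.H792R3.BB
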