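import Pool.Agent.H792R3.BB.Defs
set_option autoImplicit false

/-! Sharper upper bound for the Clunie-Hayman constant: beta <= 0.627. -/

namespace Pool.Agent.H792R3.BB

open Filter Topology Set

noncomputable def K2 : ℝ := 1000 / 627

/-- rotation -/
def S_ROT : Prop := ∀ (a : ℕ → ℂ) (r M : ℝ) (κ ω : ℂ), Bd a r M → ‖κ‖ = 1 → ‖ω‖ = 1 →
  Bd (fun n => κ * a n * ω ^ n) r M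

def S_N4 : Prop := ∀ u : ℝ, 9 / 40 ≤ u → u ≤ 3 / 4 → ∃ α s : ℝ, 0 ≤ α ∧ 0 ≤ s ∧
  K2 * (1 + α ^ 2 + α ^ 4 / 4 + s ^ 2) ≤
    1 + 2 * α - α ^ 3 * u ^ 2 - α ^ 4 / 4 * u ^ 3 + 2 * s * u - 2 * α * s * u ^ 2
      - α ^ 2 * s * u ^ 3 - s ^ 2 * u ^ 3

def S_N6 : Prop := ∀ u : ℝ, 0 ≤ u → u ≤ 9 / 40 → ∃ α s t : ℝ, 0 ≤ α ∧ 0 ≤ s ∧ 0 ≤ t ∧
  2 * s ≤ α ^ 2 ∧ t ≤ α * s ∧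
  K2 * (1 + α ^ 2 + 2 * s ^ 2 + 2 * t ^ 2) ≤
    1 + 2 * α - α ^ 2 * u + 4 * s * u - 4 * (α * s - t) * u ^ 2
      - (4 * s ^ 2 + 4 * α * t) * u ^ 3 - 8 * s * t * u ^ 4 - 4 * t ^ 2 * u ^ 5

def S_N3 : Prop := ∀ u w : ℝ, 49 / 100 ≤ u → u ≤ 3 / 4 → 0 ≤ w → w ≤ 1 → w ≤ u + 1 / 10000 →
  ∃ α s : ℝ, 0 ≤ α ∧ 0 ≤ s ∧
  K2 * (1 + α ^ 2 + s ^ 2) ≤
    1 + 2 * α - α ^ 2 * u + 2 * s * u - 2 * α * s * u ^ 2 * w - s ^ 2 * u ^ 3 * w ^ 2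

/-- the hypotheses at a vertex whose left gap `e` is smaller than its right gap `d` -/
def Off (a : ℕ → ℂ) (r M : ℝ) (N d e : ℕ) (μ A : ℝ) : Prop :=
  Bd a r M ∧ 0 < e ∧ e < d ∧ d + e ≤ N ∧ 0 < μ ∧ 0 ≤ A ∧ A ≤ 1 ∧
  ‖a N‖ * r ^ N = μ ∧ ‖a (N - d)‖ * r ^ (N - d) = μ ∧
  ‖a (N - d - e)‖ * r ^ (N - d - e) = A ^ e * μ ∧
  (∀ k, k ≤ N - d → ‖a k‖ * r ^ k ≤ A ^ (N - d - k) * μ)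

/-- four test frequencies 0, d, 2d, d+e -/
def S_L4 : Prop := ∀ (a : ℕ → ℂ) (r M : ℝ) (N d e : ℕ) (μ A : ℝ), Off a r M N d e μ A →
  ∀ α s : ℝ, 0 ≤ α → 0 ≤ s →
  (1 + 2 * α - α ^ 3 * (A ^ e) ^ 2 - α ^ 4 / 4 * (A ^ e) ^ 3 + 2 * s * (A ^ e)
    - 2 * α * s * (A ^ e) ^ 2 - α ^ 2 * s * (A ^ e) ^ 3 - s ^ 2 * (A ^ e) ^ 3) * μ ≤
    M * (1 + α ^ 2 + α ^ 4 / 4 + s ^ 2)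

/-- six test frequencies 0, d, 2d, 3d, d+e, 2d+e with coefficients 1, α, -s, t and s, -t
(after a rotation) -/
def S_L6 : Prop := ∀ (a : ℕ → ℂ) (r M : ℝ) (N d e : ℕ) (μ A : ℝ), Off a r M N d e μ A →
  ∀ α s t : ℝ, 0 ≤ α → 0 ≤ s → 0 ≤ t → 2 * s ≤ α ^ 2 → t ≤ α * s →
  (1 + 2 * α - α ^ 2 * (A ^ e) + 4 * s * (A ^ e) - 4 * (α * s - t) * (A ^ e) ^ 2
    - (4 * s ^ 2 + 4 * α * t) * (A ^ e) ^ 3 - 8 * s * t * (A ^ e) ^ 4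
    - 4 * t ^ 2 * (A ^ e) ^ 5) * μ ≤ M * (1 + α ^ 2 + 2 * s ^ 2 + 2 * t ^ 2)

def S_LA2 : Prop := ∀ (a : ℕ → ℂ) (r M : ℝ) (N d e : ℕ) (μ A : ℝ), Off a r M N d e μ A →
  K2 * μ ≤ M

/-- two-sided estimate with the kernel (1+z)(nonnegative) -/
def S_TS : Prop := ∀ (a : ℕ → ℂ) (r M : ℝ), Bd a r M → ∀ (N d : ℕ) (μ b c : ℝ),
  0 < d → d ≤ N → 0 < μ → 0 ≤ b → 0 ≤ c →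
  ‖a N‖ * r ^ N = μ → ‖a (N - d)‖ * r ^ (N - d) = μ →
  ‖a (N + 2 * d)‖ * r ^ (N + 2 * d) ≤ b * μ →
  (∀ k, k + 3 * d = N → ‖a k‖ * r ^ k ≤ c * μ) →
  25 * Real.pi / 96 * (2 - (b + c) / 5) * μ ≤ M

def S_OS2 : Prop := ∀ (x : ℕ → ℝ) (ε : ℝ), 0 < ε → (∀ m, 0 ≤ x m) → (∀ m, x m ≤ 1) →
  ∀ m₀ J : ℕ, ∃ m, m₀ + J ≤ m ∧ ∀ j, m ≤ j + J → x j ≤ x m + ε

def S_LB2 : Prop := ∀ (a : ℕ → ℂ) (r M : ℝ), Bd a r M → ∀ (N d : ℕ) (μ x w : ℝ),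
  0 < d → 2 * d ≤ N → 0 < μ → 0 ≤ x → x ≤ 1 → 0 ≤ w → w ≤ 1 → w ≤ x + 1 / 10000 →
  ‖a N‖ * r ^ N = μ → ‖a (N - d)‖ * r ^ (N - d) = μ →
  ‖a (N - 2 * d)‖ * r ^ (N - 2 * d) = x * μ →
  (∀ k, k + 3 * d = N → ‖a k‖ * r ^ k ≤ x ^ 2 * w * μ) →
  (∀ k, k + 4 * d = N → ‖a k‖ * r ^ k ≤ x ^ 3 * w ^ 2 * μ) →
  ‖a (N + 2 * d)‖ * r ^ (N + 2 * d) ≤ w ^ 3 * μ → K2 * μ ≤ M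

def S_UP2 : Prop := ∀ a : ℕ → ℂ, (∀ r : ℝ, 0 < r → Summable (fun n => ‖a n‖ * r ^ n)) →
  (∀ N : ℕ, ∃ n, N ≤ n ∧ a n ≠ 0) → ∀ R₀ : ℝ, ∃ r, R₀ ≤ r ∧ 0 < r ∧ ∃ μ : ℝ, 0 < μ ∧
    (∀ k, ‖a k‖ * r ^ k ≤ μ) ∧ ∀ M : ℝ, Bd a r M → K2 * μ ≤ M

def S_UF2 : Prop := ∀ f : ℂ → ℂ, TransEntire f →
  ∃ᶠ r : ℝ in atTop, mu f r ≤ 627 / 1000 * maxMod f r

end Pool.Agent.H792R3.BB
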