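import Pool.Agent.H792R3.BB.Defs
set_option autoImplicit false

namespace Pool.Agent.H792R3.BB

open Filter Topology Set

namespace FINx

theorem lim_le (hUF : S_UF) (hCY : S_CY) (f : ℂ → ℂ) (hf : TransEntire f) :
    liminf (fun r : ℝ => mu f r / maxMod f r) atTop ≤ 79 / 125 := by
  refine Filter.liminf_le_of_frequently_le ?_ ?_
  · have h1 := hUF f hf
    have h2 : ∀ᶠ r : ℝ in atTop, 0 < r := eventually_gt_atTop 0
    refine (h1.and_eventually h2).mono ?_
    rintro r ⟨hr, hr0⟩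
    obtain ⟨_, hmu, hle, _⟩ := hCY f hf r hr0
    have hM : 0 < maxMod f r := lt_of_lt_of_le hmu hle
    rw [div_le_iff₀ hM]
    exact hr
  · refine ⟨0, ?_⟩
    rw [Filter.eventually_map]
    filter_upwards [eventually_gt_atTop (0 : ℝ)] with r hr0
    obtain ⟨_, hmu, hle, _⟩ := hCY f hf r hr0
    exact div_nonneg hmu.le (hmu.le.trans hle)

end FINx

theorem t_FIN (hUF : S_UF) (hCY : S_CY) (hLOW : S_LOW) (hTE : S_TE) : S_FIN := by
  have hub : ∀ x ∈ {x : ℝ | ∃ f : ℂ → ℂ, TransEntire f ∧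
      x = liminf (fun r : ℝ => mu f r / maxMod f r) atTop}, x ≤ 79 / 125 := by
    rintro x ⟨f, hf, rfl⟩
    exact FINx.lim_le hUF hCY f hf
  have hmem : liminf (fun r : ℝ => mu ff r / maxMod ff r) atTop ∈
      {x : ℝ | ∃ f : ℂ → ℂ, TransEntire f ∧
      x = liminf (fun r : ℝ => mu f r / maxMod f r) atTop} := ⟨ff, hTE.1, rfl⟩
  refine ⟨?_, ?_⟩
  · exact le_trans hLOW (le_csSup ⟨79 / 125, hub⟩ hmem)
  · exact csSup_le ⟨_, hmem⟩ hub

end Pool.Agent.H792R3.BB
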