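import Pool.Agent.H792R3.BB.Defs
set_option autoImplicit false

/-! Gaps of a sequence of integers (task GAP). -/

namespace Pool.Agent.H792R3.BB

open Filter Topology Set

theorem t_GAP : S_GAP := by
  intro n hn
  by_cases h : ∀ m₀ : ℕ, ∃ m, m₀ ≤ m ∧ n (m + 1) - n m < n (m + 2) - n (m + 1)
  · exact Or.inl h
  · right
    push Not at h
    obtain ⟨m₀, hm₀⟩ := h
    -- minimum of the gaps from `m₀` on
    obtain ⟨d, ⟨m₁, hm₁, hd₁⟩, hmin⟩ :
        ∃ d : ℕ, (∃ m, m₀ ≤ m ∧ n (m + 1) - n m = d) ∧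
          ∀ m, m₀ ≤ m → d ≤ n (m + 1) - n m := by
      classical
      have hex : ∃ d : ℕ, ∃ m, m₀ ≤ m ∧ n (m + 1) - n m = d := ⟨_, m₀, le_refl _, rfl⟩
      refine ⟨Nat.find hex, Nat.find_spec hex, fun m hm => Nat.find_min' hex ⟨m, hm, rfl⟩⟩
    have hlt : ∀ m, n m < n (m + 1) := fun m => hn (Nat.lt_succ_self m)
    have hkey : ∀ k : ℕ, n (m₁ + k + 1) - n (m₁ + k) = d := by
      intro k
      induction k with
      | zero => simpa using hd₁
      | succ k ih =>
        have h1 := hm₀ (m₁ + k) (by omega)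
        have h2 := hmin (m₁ + (k + 1)) (by omega)
        have e1 : n (m₁ + (k + 1) + 1) = n (m₁ + k + 2) := by congr 1
        have e2 : n (m₁ + (k + 1)) = n (m₁ + k + 1) := by congr 1
        rw [e1, e2] at h2
        rw [e1, e2]
        omega
    refine ⟨d, m₁, ?_, ?_⟩
    · have := hlt m₁
      omega
    · intro m hm
      obtain ⟨k, rfl⟩ := Nat.exists_eq_add_of_le hm
      have h1 := hkey k
      have h2 := hlt (m₁ + k)
      omega

end Pool.Agent.H792R3.BB
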