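import Pool.Agent.H792R3.BB.Defs
set_option autoImplicit false

/-! Task LA: local estimate off a progression. -/

namespace Pool.Agent.H792R3.BB

open Filter Topology Set

namespace LAx

/-- expansion of the double sum -/
theorem expand (d e : ℕ) (he : 0 < e) (hed : e < d) (g0 g1 g2 g3 : ℂ) (B : ℕ → ℂ) :
    let S : Finset ℕ := {0, d, 2 * d, d + e}
    let g : ℕ → ℂ := fun i => if i = 0 then g0 else if i = d then g1 else if i = 2 * d then g2 else g3
    (∑ i ∈ S, ∑ j ∈ S, g i * g j * B (i + j) =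
      g0 * g0 * B 0 + 2 * (g0 * g1 * B d) + (2 * g0 * g2 + g1 * g1) * B (2 * d) +
      2 * (g0 * g3 * B (d + e)) + 2 * g1 * g2 * B (3 * d) + 2 * g1 * g3 * B (2 * d + e) +
      g2 * g2 * B (4 * d) + 2 * g2 * g3 * B (3 * d + e) + g3 * g3 * B (2 * d + 2 * e)) ∧
    ∑ i ∈ S, ‖g i‖ ^ 2 = ‖g0‖ ^ 2 + ‖g1‖ ^ 2 + ‖g2‖ ^ 2 + ‖g3‖ ^ 2 := by
  intro S g
  have h0 : (0 : ℕ) ∉ ({d, 2 * d, d + e} : Finset ℕ) := by
    simp only [Finset.mem_insert, Finset.mem_singleton]; omega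
  have h1 : d ∉ ({2 * d, d + e} : Finset ℕ) := by
    simp only [Finset.mem_insert, Finset.mem_singleton]; omega
  have h2 : 2 * d ∉ ({d + e} : Finset ℕ) := by
    simp only [Finset.mem_singleton]; omega
  have hs : ∀ f : ℕ → ℂ, ∑ i ∈ S, f i = f 0 + (f d + (f (2 * d) + f (d + e))) := by
    intro f
    simp only [S]
    rw [Finset.sum_insert h0, Finset.sum_insert h1, Finset.sum_insert h2, Finset.sum_singleton]
  have hs' : ∀ f : ℕ → ℝ, ∑ i ∈ S, f i = f 0 + (f d + (f (2 * d) + f (d + e))) := by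
    intro f
    simp only [S]
    rw [Finset.sum_insert h0, Finset.sum_insert h1, Finset.sum_insert h2, Finset.sum_singleton]
  have e0 : g 0 = g0 := by simp [g]
  have e1 : g d = g1 := by
    show (if d = 0 then g0 else if d = d then g1 else if d = 2 * d then g2 else g3) = g1
    rw [if_neg (by omega), if_pos rfl]
  have e2 : g (2 * d) = g2 := by
    show (if 2 * d = 0 then g0 else if 2 * d = d then g1 else if 2 * d = 2 * d then g2 else g3) = g2
    rw [if_neg (by omega), if_neg (by omega), if_pos rfl]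
  have e3 : g (d + e) = g3 := by
    simp only [g]; rw [if_neg (by omega), if_neg (by omega), if_neg (by omega)]
  constructor
  · simp only [hs, e0, e1, e2, e3]
    rw [show (0 : ℕ) + 0 = 0 from rfl, show 0 + d = d by omega, show 0 + 2 * d = 2 * d by omega,
      show 0 + (d + e) = d + e by omega, show d + 0 = d by omega, show d + d = 2 * d by omega,
      show d + 2 * d = 3 * d by omega, show d + (d + e) = 2 * d + e by omega,
      show 2 * d + 0 = 2 * d by omega, show 2 * d + d = 3 * d by omega,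
      show 2 * d + 2 * d = 4 * d by omega, show 2 * d + (d + e) = 3 * d + e by omega,
      show d + e + 0 = d + e by omega, show d + e + d = 2 * d + e by omega,
      show d + e + 2 * d = 3 * d + e by omega, show d + e + (d + e) = 2 * d + 2 * e by omega]
    ring
  · rw [hs']
    simp only [e0, e1, e2, e3]
    ring

end LAx

theorem t_LA (hQI : S_QI) (hNA : S_NA) : S_LA := by
  intro a r M hB N d e μ A he hed hN hμ hA0 hA1 h1 h2 h3 h4
  have hr : 0 < r := hB.1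
  set B : ℕ → ℂ := fun p => if p ≤ N then a (N - p) * (r : ℂ) ^ (N - p) else 0 with hBdef
  have hnB : ∀ p, p ≤ N → ‖B p‖ = ‖a (N - p)‖ * r ^ (N - p) := by
    intro p hp
    simp only [hBdef]
    rw [if_pos hp, norm_mul, norm_pow, Complex.norm_real, Real.norm_eq_abs, abs_of_pos hr]
  have hB0 : ‖B 0‖ = μ := by rw [hnB 0 (by omega), Nat.sub_zero, h1]
  have hBd : ‖B d‖ = μ := by rw [hnB d (by omega), h2]
  have hBde : ‖B (d + e)‖ = A ^ e * μ := by
    rw [hnB (d + e) hN, show N - (d + e) = N - d - e by omega, h3]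
  have hBp : ∀ p, d ≤ p → ‖B p‖ ≤ A ^ (p - d) * μ := by
    intro p hp
    by_cases hpN : p ≤ N
    · rw [hnB p hpN]
      have := h4 (N - p) (by omega)
      rwa [show N - d - (N - p) = p - d by omega] at this
    · simp only [hBdef]
      rw [if_neg hpN, norm_zero]
      positivity
  set u : ℝ := A ^ e with hu
  have hu0 : 0 ≤ u := by positivity
  have hu1 : u ≤ 1 := pow_le_one₀ hA0 hA1
  have hpw : ∀ (p k : ℕ), d + k * e ≤ p → ‖B p‖ ≤ u ^ k * μ := by
    intro p k hp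
    refine (hBp p (by nlinarith)).trans ?_
    apply mul_le_mul_of_nonneg_right _ hμ.le
    rw [hu, ← pow_mul]
    exact pow_le_pow_of_le_one hA0 hA1 (by
      have : e * k = k * e := mul_comm _ _
      omega)
  obtain ⟨α, s, hα, hs, hK⟩ := hNA u hu0 hu1
  have hμ' : (μ : ℂ) ≠ 0 := by exact_mod_cast hμ.ne'
  have hB0' : B 0 ≠ 0 := by rw [← norm_ne_zero_iff, hB0]; exact hμ.ne'
  have hBd' : B d ≠ 0 := by rw [← norm_ne_zero_iff, hBd]; exact hμ.ne'
  -- unit numbers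
  obtain ⟨z0, hz0⟩ := IsAlgClosed.exists_pow_nat_eq ((μ : ℂ) / B 0) (n := 2) (by norm_num)
  have hz0n : ‖z0‖ = 1 := by
    have h : ‖z0‖ ^ 2 = 1 := by
      rw [← norm_pow, hz0, norm_div, hB0, Complex.norm_real, Real.norm_eq_abs, abs_of_pos hμ,
        div_self hμ.ne']
    have h5 := norm_nonneg z0
    nlinarith
  have hz0' : z0 ≠ 0 := by rw [← norm_ne_zero_iff, hz0n]; norm_num
  have hz0B : z0 * z0 * B 0 = μ := by
    rw [← sq, hz0, div_mul_cancel₀ _ hB0']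
  set z1 : ℂ := (μ : ℂ) / (z0 * B d) with hz1
  have hz1n : ‖z1‖ = 1 := by
    rw [hz1, norm_div, norm_mul, hz0n, hBd, Complex.norm_real, Real.norm_eq_abs, abs_of_pos hμ,
      one_mul, div_self hμ.ne']
  have hz1B : z0 * z1 * B d = μ := by
    rw [hz1]; field_simp
  obtain ⟨z3, hz3n, hz3B⟩ : ∃ z3 : ℂ, ‖z3‖ = 1 ∧ z0 * z3 * B (d + e) = (u : ℂ) * μ := by
    by_cases hu2 : u = 0
    · refine ⟨1, norm_one, ?_⟩
      have : B (d + e) = 0 := by
        rw [← norm_eq_zero, hBde, hu2, zero_mul]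
      rw [this, hu2]; simp
    · have hup : 0 < u := lt_of_le_of_ne hu0 (Ne.symm hu2)
      have hne : B (d + e) ≠ 0 := by
        rw [← norm_ne_zero_iff, hBde]; positivity
      refine ⟨(u : ℂ) * μ / (z0 * B (d + e)), ?_, ?_⟩
      · rw [norm_div, norm_mul, norm_mul, hz0n, hBde, Complex.norm_real, Complex.norm_real,
          Real.norm_eq_abs, Real.norm_eq_abs, abs_of_pos hμ, abs_of_pos hup, one_mul]
        exact div_self (by positivity)
      · field_simp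
  set g1 : ℂ := (α : ℂ) * z1 with hg1
  set g2 : ℂ := -((α : ℂ) ^ 2 * z1 ^ 2 / (2 * z0)) with hg2
  set g3 : ℂ := (s : ℂ) * z3 with hg3
  have ng1 : ‖g1‖ = α := by
    rw [hg1, norm_mul, hz1n, mul_one, Complex.norm_real, Real.norm_eq_abs, abs_of_nonneg hα]
  have ng2 : ‖g2‖ = α ^ 2 / 2 := by
    rw [hg2, norm_neg, norm_div, norm_mul, norm_mul, norm_pow, norm_pow, hz1n, hz0n,
      Complex.norm_real, Real.norm_eq_abs, abs_of_nonneg hα]
    norm_num
  have ng3 : ‖g3‖ = s := by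
    rw [hg3, norm_mul, hz3n, mul_one, Complex.norm_real, Real.norm_eq_abs, abs_of_nonneg hs]
  obtain ⟨hx1, hx2⟩ := LAx.expand d e he hed z0 g1 g2 g3 B
  have hq := hQI a r M hB N {0, d, 2 * d, d + e}
    (fun i => if i = 0 then z0 else if i = d then g1 else if i = 2 * d then g2 else g3)
  have hq' := hq
  rw [hx2] at hq'
  have hx1' : ∑ i ∈ ({0, d, 2 * d, d + e} : Finset ℕ), ∑ j ∈ ({0, d, 2 * d, d + e} : Finset ℕ),
      (fun i => if i = 0 then z0 else if i = d then g1 else if i = 2 * d then g2 else g3) i *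
      (fun i => if i = 0 then z0 else if i = d then g1 else if i = 2 * d then g2 else g3) j *
      (if i + j ≤ N then a (N - (i + j)) * (r : ℂ) ^ (N - (i + j)) else 0) = _ := hx1
  rw [hx1', hz0n, ng1, ng2, ng3] at hq'
  -- the main part
  have hc : 2 * z0 * g2 + g1 * g1 = 0 := by
    rw [hg1, hg2]; field_simp; ring
  have hm1 : z0 * g1 * B d = (α : ℂ) * μ := by
    rw [hg1, ← hz1B]; ring
  have hm3 : z0 * g3 * B (d + e) = (s : ℂ) * (u * μ) := by
    rw [hg3, ← hz3B]; ring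
  rw [hc, hz0B, hm1, hm3, zero_mul, add_zero] at hq'
  set R : ℂ := 2 * g1 * g2 * B (3 * d) + 2 * g1 * g3 * B (2 * d + e) +
      g2 * g2 * B (4 * d) + 2 * g2 * g3 * B (3 * d + e) + g3 * g3 * B (2 * d + 2 * e) with hR
  have hRn : ‖R‖ ≤ (α ^ 3 * u ^ 2 + 2 * α * s * u ^ 2 + α ^ 4 / 4 * u ^ 3 + α ^ 2 * s * u ^ 3 +
      s ^ 2 * u ^ 3) * μ := by
    have b3 := hpw (3 * d) 2 (by omega)
    have b2e := hpw (2 * d + e) 2 (by omega)
    have b4 := hpw (4 * d) 3 (by omega)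
    have b3e := hpw (3 * d + e) 3 (by omega)
    have b22 := hpw (2 * d + 2 * e) 3 (by omega)
    have n2 : ‖(2 : ℂ)‖ = 2 := by norm_num
    have t1 : ‖2 * g1 * g2 * B (3 * d)‖ ≤ α ^ 3 * (u ^ 2 * μ) := by
      rw [norm_mul, norm_mul, norm_mul, n2, ng1, ng2]
      calc 2 * α * (α ^ 2 / 2) * ‖B (3 * d)‖ = α ^ 3 * ‖B (3 * d)‖ := by ring
        _ ≤ _ := mul_le_mul_of_nonneg_left b3 (by positivity)
    have t2 : ‖2 * g1 * g3 * B (2 * d + e)‖ ≤ 2 * α * s * (u ^ 2 * μ) := by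
      rw [norm_mul, norm_mul, norm_mul, n2, ng1, ng3]
      exact mul_le_mul_of_nonneg_left b2e (by positivity)
    have t3 : ‖g2 * g2 * B (4 * d)‖ ≤ α ^ 4 / 4 * (u ^ 3 * μ) := by
      rw [norm_mul, norm_mul, ng2]
      calc α ^ 2 / 2 * (α ^ 2 / 2) * ‖B (4 * d)‖ = α ^ 4 / 4 * ‖B (4 * d)‖ := by ring
        _ ≤ _ := mul_le_mul_of_nonneg_left b4 (by positivity)
    have t4 : ‖2 * g2 * g3 * B (3 * d + e)‖ ≤ α ^ 2 * s * (u ^ 3 * μ) := by
      rw [norm_mul, norm_mul, norm_mul, n2, ng2, ng3]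
      calc 2 * (α ^ 2 / 2) * s * ‖B (3 * d + e)‖ = α ^ 2 * s * ‖B (3 * d + e)‖ := by ring
        _ ≤ _ := mul_le_mul_of_nonneg_left b3e (by positivity)
    have t5 : ‖g3 * g3 * B (2 * d + 2 * e)‖ ≤ s ^ 2 * (u ^ 3 * μ) := by
      rw [norm_mul, norm_mul, ng3]
      calc s * s * ‖B (2 * d + 2 * e)‖ = s ^ 2 * ‖B (2 * d + 2 * e)‖ := by ring
        _ ≤ _ := mul_le_mul_of_nonneg_left b22 (by positivity)
    have s1 := norm_add_le (2 * g1 * g2 * B (3 * d) + 2 * g1 * g3 * B (2 * d + e) +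
      g2 * g2 * B (4 * d) + 2 * g2 * g3 * B (3 * d + e)) (g3 * g3 * B (2 * d + 2 * e))
    have s2 := norm_add_le (2 * g1 * g2 * B (3 * d) + 2 * g1 * g3 * B (2 * d + e) +
      g2 * g2 * B (4 * d)) (2 * g2 * g3 * B (3 * d + e))
    have s3 := norm_add_le (2 * g1 * g2 * B (3 * d) + 2 * g1 * g3 * B (2 * d + e))
      (g2 * g2 * B (4 * d))
    have s4 := norm_add_le (2 * g1 * g2 * B (3 * d)) (2 * g1 * g3 * B (2 * d + e))
    rw [hR]
    calc _ ≤ α ^ 3 * (u ^ 2 * μ) + 2 * α * s * (u ^ 2 * μ) + α ^ 4 / 4 * (u ^ 3 * μ) +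
          α ^ 2 * s * (u ^ 3 * μ) + s ^ 2 * (u ^ 3 * μ) := by linarith
      _ = _ := by ring
  have hmain : ((1 + 2 * α + 2 * s * u) * μ) - ‖R‖ ≤
      M * (1 ^ 2 + α ^ 2 + (α ^ 2 / 2) ^ 2 + s ^ 2) := by
    refine le_trans ?_ hq'
    have e1 : (μ : ℂ) + 2 * ((α : ℂ) * μ) + 2 * ((s : ℂ) * (u * μ)) + 2 * g1 * g2 * B (3 * d) +
        2 * g1 * g3 * B (2 * d + e) + g2 * g2 * B (4 * d) + 2 * g2 * g3 * B (3 * d + e) +
        g3 * g3 * B (2 * d + 2 * e) = (((1 + 2 * α + 2 * s * u) * μ : ℝ) : ℂ) + R := by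
      rw [hR]; push_cast; ring
    rw [e1]
    have e2 := norm_sub_le ((((1 + 2 * α + 2 * s * u) * μ : ℝ) : ℂ) + R) R
    rw [add_sub_cancel_right, Complex.norm_real, Real.norm_eq_abs,
      abs_of_nonneg (by positivity)] at e2
    linarith
  have hpos : 0 < 1 + α ^ 2 + α ^ 4 / 4 + s ^ 2 := by positivity
  have hfin : K * μ * (1 + α ^ 2 + α ^ 4 / 4 + s ^ 2) ≤ M * (1 + α ^ 2 + α ^ 4 / 4 + s ^ 2) := by
    have hK' := mul_le_mul_of_nonneg_right hK hμ.le
    have e3 : M * (1 ^ 2 + α ^ 2 + (α ^ 2 / 2) ^ 2 + s ^ 2) =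
        M * (1 + α ^ 2 + α ^ 4 / 4 + s ^ 2) := by ring
    rw [e3] at hmain
    nlinarith [hK', hmain, hRn]
  exact le_of_mul_le_mul_right hfin hpos

end Pool.Agent.H792R3.BB
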