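import Pool.Agent.H792R3.BB.Defs2
set_option autoImplicit false
set_option linter.all false

/-! Six test frequencies (the scheme of `t_LA`, one size larger). -/

namespace Pool.Agent.H792R3.BB

open Filter Topology Set

namespace L6x

/-- expansion of the double sum -/
theorem expand (d e : ℕ) (he : 0 < e) (hed : e < d) (g0 g1 g2 g3 g4 g5 : ℂ) (B : ℕ → ℂ) :
    let S : Finset ℕ := {0, d, 2 * d, 3 * d, d + e, 2 * d + e}
    let g : ℕ → ℂ := fun i => if i = 0 then g0 else if i = d then g1 else if i = 2 * d then g2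
      else if i = 3 * d then g3 else if i = d + e then g4 else g5
    (∑ i ∈ S, ∑ j ∈ S, g i * g j * B (i + j) =
      g0 * g0 * B 0 + 2 * (g0 * g1 * B d) + 2 * (g0 * g4 * B (d + e)) +
      (2 * g0 * g2 + g1 * g1) * B (2 * d) + (2 * g0 * g3 + 2 * g1 * g2) * B (3 * d) +
      (g2 * g2 + 2 * g1 * g3) * B (4 * d) + 2 * g2 * g3 * B (5 * d) + g3 * g3 * B (6 * d) +
      (2 * g0 * g5 + 2 * g1 * g4) * B (2 * d + e) + (2 * g1 * g5 + 2 * g2 * g4) * B (3 * d + e) +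
      (2 * g2 * g5 + 2 * g3 * g4) * B (4 * d + e) + 2 * g3 * g5 * B (5 * d + e) +
      g4 * g4 * B (2 * d + 2 * e) + 2 * g4 * g5 * B (3 * d + 2 * e) +
      g5 * g5 * B (4 * d + 2 * e)) ∧
    ∑ i ∈ S, ‖g i‖ ^ 2 = ‖g0‖ ^ 2 + ‖g1‖ ^ 2 + ‖g2‖ ^ 2 + ‖g3‖ ^ 2 + ‖g4‖ ^ 2 + ‖g5‖ ^ 2 := by
  intro S g
  have h0 : (0 : ℕ) ∉ ({d, 2 * d, 3 * d, d + e, 2 * d + e} : Finset ℕ) := by
    simp only [Finset.mem_insert, Finset.mem_singleton]; omega
  have h1 : d ∉ ({2 * d, 3 * d, d + e, 2 * d + e} : Finset ℕ) := by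
    simp only [Finset.mem_insert, Finset.mem_singleton]; omega
  have h2 : 2 * d ∉ ({3 * d, d + e, 2 * d + e} : Finset ℕ) := by
    simp only [Finset.mem_insert, Finset.mem_singleton]; omega
  have h3 : 3 * d ∉ ({d + e, 2 * d + e} : Finset ℕ) := by
    simp only [Finset.mem_insert, Finset.mem_singleton]; omega
  have h4 : d + e ∉ ({2 * d + e} : Finset ℕ) := by
    simp only [Finset.mem_singleton]; omega
  have hs : ∀ f : ℕ → ℂ, ∑ i ∈ S, f i =
      f 0 + (f d + (f (2 * d) + (f (3 * d) + (f (d + e) + f (2 * d + e))))) := by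
    intro f
    simp only [S]
    rw [Finset.sum_insert h0, Finset.sum_insert h1, Finset.sum_insert h2, Finset.sum_insert h3,
      Finset.sum_insert h4, Finset.sum_singleton]
  have hs' : ∀ f : ℕ → ℝ, ∑ i ∈ S, f i =
      f 0 + (f d + (f (2 * d) + (f (3 * d) + (f (d + e) + f (2 * d + e))))) := by
    intro f
    simp only [S]
    rw [Finset.sum_insert h0, Finset.sum_insert h1, Finset.sum_insert h2, Finset.sum_insert h3,
      Finset.sum_insert h4, Finset.sum_singleton]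
  have e0 : g 0 = g0 := by simp [g]
  have e1 : g d = g1 := by
    simp only [g]; rw [if_neg (by omega), if_pos trivial]
  have e2 : g (2 * d) = g2 := by
    simp only [g]; rw [if_neg (by omega), if_neg (by omega), if_pos trivial]
  have e3 : g (3 * d) = g3 := by
    simp only [g]; rw [if_neg (by omega), if_neg (by omega), if_neg (by omega), if_pos trivial]
  have e4 : g (d + e) = g4 := by
    simp only [g]; rw [if_neg (by omega), if_neg (by omega), if_neg (by omega), if_neg (by omega), if_pos trivial]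
  have e5 : g (2 * d + e) = g5 := by
    simp only [g]; rw [if_neg (by omega), if_neg (by omega), if_neg (by omega), if_neg (by omega), if_neg (by omega)]
  constructor
  · simp only [hs, e0, e1, e2, e3, e4, e5]
    rw [show (0 : ℕ) + 0 = 0 from rfl,
      show 0 + d = d by omega,
      show 0 + 2 * d = 2 * d by omega,
      show 0 + 3 * d = 3 * d by omega,
      show 0 + (d + e) = d + e by omega,
      show 0 + (2 * d + e) = 2 * d + e by omega,
      show d + 0 = d by omega,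
      show d + d = 2 * d by omega,
      show d + 2 * d = 3 * d by omega,
      show d + 3 * d = 4 * d by omega,
      show d + (d + e) = 2 * d + e by omega,
      show d + (2 * d + e) = 3 * d + e by omega,
      show 2 * d + 0 = 2 * d by omega,
      show 2 * d + d = 3 * d by omega,
      show 2 * d + 2 * d = 4 * d by omega,
      show 2 * d + 3 * d = 5 * d by omega,
      show 2 * d + (d + e) = 3 * d + e by omega,
      show 2 * d + (2 * d + e) = 4 * d + e by omega,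
      show 3 * d + 0 = 3 * d by omega,
      show 3 * d + d = 4 * d by omega,
      show 3 * d + 2 * d = 5 * d by omega,
      show 3 * d + 3 * d = 6 * d by omega,
      show 3 * d + (d + e) = 4 * d + e by omega,
      show 3 * d + (2 * d + e) = 5 * d + e by omega,
      show d + e + 0 = d + e by omega,
      show d + e + d = 2 * d + e by omega,
      show d + e + 2 * d = 3 * d + e by omega,
      show d + e + 3 * d = 4 * d + e by omega,
      show d + e + (d + e) = 2 * d + 2 * e by omega,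
      show d + e + (2 * d + e) = 3 * d + 2 * e by omega,
      show 2 * d + e + 0 = 2 * d + e by omega,
      show 2 * d + e + d = 3 * d + e by omega,
      show 2 * d + e + 2 * d = 4 * d + e by omega,
      show 2 * d + e + 3 * d = 5 * d + e by omega,
      show 2 * d + e + (d + e) = 3 * d + 2 * e by omega,
      show 2 * d + e + (2 * d + e) = 4 * d + 2 * e by omega]
    ring
  · rw [hs']
    simp only [e0, e1, e2, e3, e4, e5]
    ring

theorem tb {x X : ℝ} {z b : ℂ} {β : ℝ} (hx : |x| ≤ X) (hz : ‖z‖ ≤ 1) (hb : ‖b‖ ≤ β)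
    (hβ : 0 ≤ β) : ‖(x : ℂ) * z * b‖ ≤ X * β := by
  rw [norm_mul, norm_mul, Complex.norm_real, Real.norm_eq_abs]
  have hX : 0 ≤ X := (abs_nonneg x).trans hx
  have h1 : |x| * ‖z‖ ≤ X * 1 := mul_le_mul hx hz (norm_nonneg _) hX
  rw [mul_one] at h1
  exact mul_le_mul h1 hb (norm_nonneg _) hX

theorem unit_mul (c : ℂ) : ∃ z : ℂ, ‖z‖ = 1 ∧ z * c = ((‖c‖ : ℝ) : ℂ) := by
  by_cases hc : c = 0
  · exact ⟨1, by simp, by simp [hc]⟩
  · have hn : (‖c‖ : ℝ) ≠ 0 := norm_ne_zero_iff.2 hc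
    have hn' : ((‖c‖ : ℝ) : ℂ) ≠ 0 := by exact_mod_cast hn
    refine ⟨((‖c‖ : ℝ) : ℂ) / c, ?_, ?_⟩
    · rw [norm_div, Complex.norm_real, norm_norm, div_self hn]
    · field_simp

/-- rotation to real positive central coefficients -/
theorem rot (a : ℕ → ℂ) (r : ℝ) (hr : 0 < r) (N d : ℕ) (hd : 0 < d) (hdN : d ≤ N) (μ : ℝ)
    (hμ : 0 < μ) (h1 : ‖a N‖ * r ^ N = μ) (h2 : ‖a (N - d)‖ * r ^ (N - d) = μ) :
    ∃ κ ω : ℂ, ‖κ‖ = 1 ∧ ‖ω‖ = 1 ∧ κ * a N * ω ^ N * (r : ℂ) ^ N = μ ∧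
      κ * a (N - d) * ω ^ (N - d) * (r : ℂ) ^ (N - d) = μ := by
  set c : ℂ := a N * (r : ℂ) ^ N with hc
  set c' : ℂ := a (N - d) * (r : ℂ) ^ (N - d) with hc'
  have nr : ∀ k : ℕ, ‖(r : ℂ) ^ k‖ = r ^ k := by
    intro k
    rw [norm_pow, Complex.norm_real, Real.norm_eq_abs, abs_of_pos hr]
  have nc : ‖c‖ = μ := by rw [hc, norm_mul, nr, h1]
  have nc' : ‖c'‖ = μ := by rw [hc', norm_mul, nr, h2]
  have hμ' : (μ : ℂ) ≠ 0 := by exact_mod_cast hμ.ne'
  have hc0 : c ≠ 0 := by rw [← norm_ne_zero_iff, nc]; exact hμ.ne'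
  have hc0' : c' ≠ 0 := by rw [← norm_ne_zero_iff, nc']; exact hμ.ne'
  obtain ⟨ω, hω⟩ := IsAlgClosed.exists_pow_nat_eq (c' / c) hd
  have nω : ‖ω‖ = 1 := by
    have h3 : ‖ω‖ ^ d = 1 := by
      rw [← norm_pow, hω, norm_div, nc, nc', div_self hμ.ne']
    exact (pow_eq_one_iff_of_nonneg (norm_nonneg _) hd.ne').1 h3
  have hω0 : ω ≠ 0 := by rw [← norm_ne_zero_iff, nω]; norm_num
  have hωN : ω ^ N = ω ^ (N - d) * (c' / c) := by
    rw [← hω, ← pow_add]
    congr 1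
    omega
  refine ⟨(μ : ℂ) / (ω ^ N * c), ω, ?_, nω, ?_, ?_⟩
  · rw [norm_div, norm_mul, norm_pow, nω, one_pow, one_mul, nc, Complex.norm_real,
      Real.norm_eq_abs, abs_of_pos hμ, div_self hμ.ne']
  · have hne : ω ^ N * c ≠ 0 := mul_ne_zero (pow_ne_zero _ hω0) hc0
    calc (μ : ℂ) / (ω ^ N * c) * a N * ω ^ N * (r : ℂ) ^ N =
        (μ : ℂ) / (ω ^ N * c) * (ω ^ N * c) := by rw [hc]; ring
      _ = μ := div_mul_cancel₀ _ hne
  · have hne : ω ^ (N - d) * c' ≠ 0 := mul_ne_zero (pow_ne_zero _ hω0) hc0'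
    have e1 : ω ^ N * c = ω ^ (N - d) * c' := by
      rw [hωN]
      field_simp
    rw [e1]
    calc (μ : ℂ) / (ω ^ (N - d) * c') * a (N - d) * ω ^ (N - d) * (r : ℂ) ^ (N - d) =
        (μ : ℂ) / (ω ^ (N - d) * c') * (ω ^ (N - d) * c') := by rw [hc']; ring
      _ = μ := div_mul_cancel₀ _ hne

end L6x

theorem t_L6 (hQI : S_QI) (hROT : S_ROT) : S_L6 := by
  intro a0 r M N d e μ A hOff α s t hα hs ht hst hts
  obtain ⟨hB', he, hed, hN, hμ, hA0, hA1, h1', h2', h3', h4'⟩ := hOff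
  have hr : 0 < r := hB'.1
  obtain ⟨κ, ω, hκ, hω, hr1, hr2⟩ := L6x.rot a0 r hr N d (by omega) (by omega) μ hμ h1' h2'
  have hB := hROT a0 r M κ ω hB' hκ hω
  set a : ℕ → ℂ := fun n => κ * a0 n * ω ^ n with ha
  have na : ∀ n, ‖a n‖ = ‖a0 n‖ := by
    intro n
    simp only [ha]
    rw [norm_mul, norm_mul, norm_pow, hκ, hω, one_pow, one_mul, mul_one]
  have h3 : ‖a (N - d - e)‖ * r ^ (N - d - e) = A ^ e * μ := by rw [na]; exact h3'
  have h4 : ∀ k, k ≤ N - d → ‖a k‖ * r ^ k ≤ A ^ (N - d - k) * μ := by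
    intro k hk; rw [na]; exact h4' k hk
  set B : ℕ → ℂ := fun p => if p ≤ N then a (N - p) * (r : ℂ) ^ (N - p) else 0 with hBdef
  have hnB : ∀ p, p ≤ N → ‖B p‖ = ‖a (N - p)‖ * r ^ (N - p) := by
    intro p hp
    simp only [hBdef]
    rw [if_pos hp, norm_mul, norm_pow, Complex.norm_real, Real.norm_eq_abs, abs_of_pos hr]
  have hB0 : B 0 = μ := by
    simp only [hBdef]
    rw [if_pos (by omega), Nat.sub_zero]
    exact hr1
  have hBd : B d = μ := by
    simp only [hBdef]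
    rw [if_pos (by omega)]
    exact hr2
  have hBde : ‖B (d + e)‖ = A ^ e * μ := by
    rw [hnB (d + e) hN, show N - (d + e) = N - d - e by omega, h3]
  have hBp : ∀ p, d ≤ p → ‖B p‖ ≤ A ^ (p - d) * μ := by
    intro p hp
    by_cases hpN : p ≤ N
    · rw [hnB p hpN]
      have := h4 (N - p) (by omega)
      rwa [show N - d - (N - p) = p - d by omega] at this
    · simp only [hBdef]
      rw [if_neg hpN, norm_zero]
      positivity
  set u : ℝ := A ^ e with hu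
  have hu0 : 0 ≤ u := by positivity
  have hu1 : u ≤ 1 := pow_le_one₀ hA0 hA1
  have hpw : ∀ (p k : ℕ), d + k * e ≤ p → ‖B p‖ ≤ u ^ k * μ := by
    intro p k hp
    refine (hBp p (by nlinarith)).trans ?_
    apply mul_le_mul_of_nonneg_right _ hμ.le
    rw [hu, ← pow_mul]
    exact pow_le_pow_of_le_one hA0 hA1 (by
      have : e * k = k * e := mul_comm _ _
      omega)
  obtain ⟨z3, hz3n, hz3B⟩ := L6x.unit_mul (B (d + e))
  rw [hBde] at hz3B
  obtain ⟨hx1, hx2⟩ := L6x.expand d e he hed 1 (α : ℂ) (-(s : ℂ)) (t : ℂ) ((s : ℂ) * z3)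
    (-((t : ℂ) * z3)) B
  have hq := hQI a r M hB N {0, d, 2 * d, 3 * d, d + e, 2 * d + e}
    (fun i => if i = 0 then (1 : ℂ) else if i = d then (α : ℂ) else if i = 2 * d then (-(s : ℂ))
      else if i = 3 * d then (t : ℂ) else if i = d + e then ((s : ℂ) * z3) else (-((t : ℂ) * z3)))
  have hq' := hq
  rw [hx2] at hq'
  have hx1' : ∑ i ∈ ({0, d, 2 * d, 3 * d, d + e, 2 * d + e} : Finset ℕ),
      ∑ j ∈ ({0, d, 2 * d, 3 * d, d + e, 2 * d + e} : Finset ℕ),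
      (fun i => if i = 0 then (1 : ℂ) else if i = d then (α : ℂ) else if i = 2 * d then (-(s : ℂ))
      else if i = 3 * d then (t : ℂ) else if i = d + e then ((s : ℂ) * z3) else (-((t : ℂ) * z3))) i *
      (fun i => if i = 0 then (1 : ℂ) else if i = d then (α : ℂ) else if i = 2 * d then (-(s : ℂ))
      else if i = 3 * d then (t : ℂ) else if i = d + e then ((s : ℂ) * z3) else (-((t : ℂ) * z3))) j *
      (if i + j ≤ N then a (N - (i + j)) * (r : ℂ) ^ (N - (i + j)) else 0) = _ := hx1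
  rw [hx1'] at hq'
  have nα : ‖(α : ℂ)‖ = α := by rw [Complex.norm_real, Real.norm_eq_abs, abs_of_nonneg hα]
  have ns : ‖(s : ℂ)‖ = s := by rw [Complex.norm_real, Real.norm_eq_abs, abs_of_nonneg hs]
  have nt : ‖(t : ℂ)‖ = t := by rw [Complex.norm_real, Real.norm_eq_abs, abs_of_nonneg ht]
  rw [norm_one, norm_neg, norm_neg, norm_mul, norm_mul, nα, ns, nt, hz3n] at hq'
  set R : ℂ := ((α ^ 2 - 2 * s : ℝ) : ℂ) * 1 * B (2 * d)
      + ((2 * t - 2 * α * s : ℝ) : ℂ) * 1 * B (3 * d)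
      + ((s ^ 2 + 2 * α * t : ℝ) : ℂ) * 1 * B (4 * d)
      + ((-2 * s * t : ℝ) : ℂ) * 1 * B (5 * d)
      + ((t ^ 2 : ℝ) : ℂ) * 1 * B (6 * d)
      + ((2 * α * s - 2 * t : ℝ) : ℂ) * z3 * B (2 * d + e)
      + ((-2 * α * t - 2 * s ^ 2 : ℝ) : ℂ) * z3 * B (3 * d + e)
      + ((4 * s * t : ℝ) : ℂ) * z3 * B (4 * d + e)
      + ((-2 * t ^ 2 : ℝ) : ℂ) * z3 * B (5 * d + e)
      + ((s ^ 2 : ℝ) : ℂ) * (z3 * z3) * B (2 * d + 2 * e)
      + ((-2 * s * t : ℝ) : ℂ) * (z3 * z3) * B (3 * d + 2 * e)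
      + ((t ^ 2 : ℝ) : ℂ) * (z3 * z3) * B (4 * d + 2 * e) with hR
  have hz33 : ‖z3 * z3‖ ≤ 1 := by rw [norm_mul, hz3n, mul_one]
  have n1 : ‖(1 : ℂ)‖ ≤ 1 := by rw [norm_one]
  have hz31 : ‖z3‖ ≤ 1 := hz3n.le
  have hst0 : 0 ≤ s * t := mul_nonneg hs ht
  have hat0 : 0 ≤ α * t := mul_nonneg hα ht
  have a12 : |t ^ 2| ≤ t ^ 2 := (abs_of_nonneg (sq_nonneg t)).le
  have a11 : |-2 * s * t| ≤ 2 * s * t := by
    rw [show -2 * s * t = -(2 * s * t) by ring, abs_neg]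
    exact (abs_of_nonneg (by positivity)).le
  have a10 : |s ^ 2| ≤ s ^ 2 := (abs_of_nonneg (sq_nonneg s)).le
  have a9 : |-2 * t ^ 2| ≤ 2 * t ^ 2 := by
    rw [show -2 * t ^ 2 = -(2 * t ^ 2) by ring, abs_neg]
    exact (abs_of_nonneg (by positivity)).le
  have a8 : |4 * s * t| ≤ 4 * s * t := (abs_of_nonneg (by positivity)).le
  have a7 : |-2 * α * t - 2 * s ^ 2| ≤ 2 * α * t + 2 * s ^ 2 := by
    rw [show -2 * α * t - 2 * s ^ 2 = -(2 * α * t + 2 * s ^ 2) by ring, abs_neg]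
    exact (abs_of_nonneg (by positivity)).le
  have a6 : |2 * α * s - 2 * t| ≤ 2 * α * s - 2 * t := (abs_of_nonneg (by linarith)).le
  have a3 : |s ^ 2 + 2 * α * t| ≤ s ^ 2 + 2 * α * t := (abs_of_nonneg (by positivity)).le
  have a2 : |2 * t - 2 * α * s| ≤ 2 * α * s - 2 * t := by
    rw [show 2 * t - 2 * α * s = -(2 * α * s - 2 * t) by ring, abs_neg]
    exact (abs_of_nonneg (by linarith)).le
  have a1 : |α ^ 2 - 2 * s| ≤ α ^ 2 - 2 * s := (abs_of_nonneg (by linarith)).le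
  have p5 : 0 ≤ u ^ 5 * μ := by positivity
  have p4 : 0 ≤ u ^ 4 * μ := by positivity
  have p3 : 0 ≤ u ^ 3 * μ := by positivity
  have p2 : 0 ≤ u ^ 2 * μ := by positivity
  have p1 : 0 ≤ u ^ 1 * μ := by positivity
  have b12 := L6x.tb a12 hz33 (hpw (4 * d + 2 * e) 5 (by omega)) p5
  have b11 := L6x.tb a11 hz33 (hpw (3 * d + 2 * e) 4 (by omega)) p4
  have b10 := L6x.tb a10 hz33 (hpw (2 * d + 2 * e) 3 (by omega)) p3
  have b9 := L6x.tb a9 hz31 (hpw (5 * d + e) 5 (by omega)) p5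
  have b8 := L6x.tb a8 hz31 (hpw (4 * d + e) 4 (by omega)) p4
  have b7 := L6x.tb a7 hz31 (hpw (3 * d + e) 3 (by omega)) p3
  have b6 := L6x.tb a6 hz31 (hpw (2 * d + e) 2 (by omega)) p2
  have b5 := L6x.tb a12 n1 (hpw (6 * d) 5 (by omega)) p5
  have b4 := L6x.tb a11 n1 (hpw (5 * d) 4 (by omega)) p4
  have b3 := L6x.tb a3 n1 (hpw (4 * d) 3 (by omega)) p3
  have b2 := L6x.tb a2 n1 (hpw (3 * d) 2 (by omega)) p2
  have b1 := L6x.tb a1 n1 (hpw (2 * d) 1 (by omega)) p1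
  have hRn : ‖R‖ ≤ (α ^ 2 - 2 * s) * (u ^ 1 * μ) + (2 * α * s - 2 * t) * (u ^ 2 * μ)
      + (s ^ 2 + 2 * α * t) * (u ^ 3 * μ) + (2 * s * t) * (u ^ 4 * μ) + t ^ 2 * (u ^ 5 * μ)
      + (2 * α * s - 2 * t) * (u ^ 2 * μ) + (2 * α * t + 2 * s ^ 2) * (u ^ 3 * μ)
      + (4 * s * t) * (u ^ 4 * μ) + (2 * t ^ 2) * (u ^ 5 * μ)
      + s ^ 2 * (u ^ 3 * μ) + (2 * s * t) * (u ^ 4 * μ) + t ^ 2 * (u ^ 5 * μ) := by
    rw [hR]
    exact (norm_add_le _ _).trans (add_le_add ((norm_add_le _ _).trans (add_le_add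
      ((norm_add_le _ _).trans (add_le_add ((norm_add_le _ _).trans (add_le_add
      ((norm_add_le _ _).trans (add_le_add ((norm_add_le _ _).trans (add_le_add
      ((norm_add_le _ _).trans (add_le_add ((norm_add_le _ _).trans (add_le_add
      ((norm_add_le _ _).trans (add_le_add ((norm_add_le _ _).trans (add_le_add
      ((norm_add_le _ _).trans (add_le_add b1 b2)) b3)) b4)) b5)) b6)) b7)) b8)) b9)) b10)) b11)) b12)
  have hmain : ((1 + 2 * α + 2 * s * u) * μ) - ‖R‖ ≤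
      M * (1 ^ 2 + α ^ 2 + s ^ 2 + t ^ 2 + (s * 1) ^ 2 + (t * 1) ^ 2) := by
    refine le_trans ?_ hq'
    have e1 : ∀ x : ℂ, x = (((1 + 2 * α + 2 * s * u) * μ : ℝ) : ℂ) + R →
        ((1 + 2 * α + 2 * s * u) * μ) - ‖R‖ ≤ ‖x‖ := by
      intro x hx
      rw [hx]
      have e2 := norm_sub_le ((((1 + 2 * α + 2 * s * u) * μ : ℝ) : ℂ) + R) R
      rw [add_sub_cancel_right, Complex.norm_real, Real.norm_eq_abs,
        abs_of_nonneg (by positivity)] at e2
      linarith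
    apply e1
    rw [hR, hB0, hBd]
    push_cast
    push_cast at hz3B
    linear_combination 2 * (s : ℂ) * hz3B
  have e3 : M * (1 ^ 2 + α ^ 2 + s ^ 2 + t ^ 2 + (s * 1) ^ 2 + (t * 1) ^ 2) =
      M * (1 + α ^ 2 + 2 * s ^ 2 + 2 * t ^ 2) := by ring
  rw [e3] at hmain
  have e4 : (α ^ 2 - 2 * s) * (u ^ 1 * μ) + (2 * α * s - 2 * t) * (u ^ 2 * μ)
      + (s ^ 2 + 2 * α * t) * (u ^ 3 * μ) + (2 * s * t) * (u ^ 4 * μ) + t ^ 2 * (u ^ 5 * μ)
      + (2 * α * s - 2 * t) * (u ^ 2 * μ) + (2 * α * t + 2 * s ^ 2) * (u ^ 3 * μ)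
      + (4 * s * t) * (u ^ 4 * μ) + (2 * t ^ 2) * (u ^ 5 * μ)
      + s ^ 2 * (u ^ 3 * μ) + (2 * s * t) * (u ^ 4 * μ) + t ^ 2 * (u ^ 5 * μ) =
      (1 + 2 * α + 2 * s * u) * μ - (1 + 2 * α - α ^ 2 * u + 4 * s * u - 4 * (α * s - t) * u ^ 2
    - (4 * s ^ 2 + 4 * α * t) * u ^ 3 - 8 * s * t * u ^ 4 - 4 * t ^ 2 * u ^ 5) * μ := by ring
  linarith

end Pool.Agent.H792R3.BB
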