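import Pool.Agent.H792R3.BB.Defs2
set_option autoImplicit false

namespace Pool.Agent.H792R3.BB

theorem t_LA2 (hPA : S_PA) (hN4 : S_N4) (hN6 : S_N6) (hL4 : S_L4) (hL6 : S_L6) : S_LA2 := by
  intro a r M N d e μ A hOff
  have hOff' := hOff
  obtain ⟨hB, he, hed, hN, hμ, hA0, hA1, h1, h2, h3, h4⟩ := hOff'
  have hu0 : 0 ≤ A ^ e := by positivity
  have hu1 : A ^ e ≤ 1 := pow_le_one₀ hA0 hA1
  rcases le_total (A ^ e) (9 / 40) with hu | hu
  · obtain ⟨α, s, t, hα, hs, ht, hst, hts, hK⟩ := hN6 (A ^ e) hu0 hu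
    have h := hL6 a r M N d e μ A hOff α s t hα hs ht hst hts
    have hpos : 0 < 1 + α ^ 2 + 2 * s ^ 2 + 2 * t ^ 2 := by positivity
    have hK' := mul_le_mul_of_nonneg_right hK hμ.le
    have : K2 * μ * (1 + α ^ 2 + 2 * s ^ 2 + 2 * t ^ 2) ≤
        M * (1 + α ^ 2 + 2 * s ^ 2 + 2 * t ^ 2) := by
      calc K2 * μ * (1 + α ^ 2 + 2 * s ^ 2 + 2 * t ^ 2) =
          K2 * (1 + α ^ 2 + 2 * s ^ 2 + 2 * t ^ 2) * μ := by ring
        _ ≤ _ := hK'
        _ ≤ _ := h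
    exact le_of_mul_le_mul_right this hpos
  rcases le_total (A ^ e) (3 / 4) with hu' | hu'
  · obtain ⟨α, s, hα, hs, hK⟩ := hN4 (A ^ e) hu hu'
    have h := hL4 a r M N d e μ A hOff α s hα hs
    have hpos : 0 < 1 + α ^ 2 + α ^ 4 / 4 + s ^ 2 := by positivity
    have hK' := mul_le_mul_of_nonneg_right hK hμ.le
    have : K2 * μ * (1 + α ^ 2 + α ^ 4 / 4 + s ^ 2) ≤
        M * (1 + α ^ 2 + α ^ 4 / 4 + s ^ 2) := by
      calc K2 * μ * (1 + α ^ 2 + α ^ 4 / 4 + s ^ 2) =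
          K2 * (1 + α ^ 2 + α ^ 4 / 4 + s ^ 2) * μ := by ring
        _ ≤ _ := hK'
        _ ≤ _ := h
    exact le_of_mul_le_mul_right this hpos
  · have h := hPA a r M hB {N, N - d, N - d - e}
    have n1 : N ∉ ({N - d, N - d - e} : Finset ℕ) := by
      simp only [Finset.mem_insert, Finset.mem_singleton]; omega
    have n2 : N - d ∉ ({N - d - e} : Finset ℕ) := by
      simp only [Finset.mem_singleton]; omega
    rw [Finset.sum_insert n1, Finset.sum_insert n2, Finset.sum_singleton, h1, h2, h3] at h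
    have hM0 : 0 ≤ M := by
      have := hB.2.2 (r : ℂ) (by rw [Complex.norm_real, Real.norm_eq_abs, abs_of_pos hB.1])
      exact (norm_nonneg _).trans this
    have hK : K2 ^ 2 ≤ 2 + (3 / 4) ^ 2 := by unfold K2; norm_num
    have h5 : (K2 * μ) ^ 2 ≤ M ^ 2 := by
      have h6 : (3 / 4 : ℝ) ^ 2 ≤ (A ^ e) ^ 2 := by nlinarith
      have h7 : K2 ^ 2 * μ ^ 2 ≤ (2 + (A ^ e) ^ 2) * μ ^ 2 :=
        mul_le_mul_of_nonneg_right (by linarith) (by positivity)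
      calc (K2 * μ) ^ 2 = K2 ^ 2 * μ ^ 2 := by ring
        _ ≤ (2 + (A ^ e) ^ 2) * μ ^ 2 := h7
        _ = μ ^ 2 + (μ ^ 2 + (A ^ e * μ) ^ 2) := by ring
        _ ≤ M ^ 2 := h
    exact abs_le_of_sq_le_sq' h5 hM0 |>.2

end Pool.Agent.H792R3.BB
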