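import Pool.Agent.H792R3.BB.Defs2

set_option autoImplicit false

namespace Pool.Agent.H792R3.BB

namespace LB2x

theorem unit_mul (c : ℂ) : ∃ z : ℂ, ‖z‖ = 1 ∧ z * c = ((‖c‖ : ℝ) : ℂ) := by
  by_cases hc : c = 0
  · exact ⟨1, by simp, by simp [hc]⟩
  · have hn : (‖c‖ : ℝ) ≠ 0 := norm_ne_zero_iff.2 hc
    have hn' : ((‖c‖ : ℝ) : ℂ) ≠ 0 := by exact_mod_cast hn
    refine ⟨((‖c‖ : ℝ) : ℂ) / c, ?_, ?_⟩
    · rw [norm_div, Complex.norm_real, norm_norm, div_self hn]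
    · field_simp

theorem unit_sq (c : ℂ) : ∃ z : ℂ, ‖z‖ = 1 ∧ z ^ 2 * c = ((‖c‖ : ℝ) : ℂ) := by
  obtain ⟨y, hy, hyc⟩ := unit_mul c
  obtain ⟨z, hz⟩ := IsAlgClosed.exists_pow_nat_eq y (n := 2) (by norm_num)
  refine ⟨z, ?_, ?_⟩
  · have h : ‖z‖ ^ 2 = 1 := by rw [← norm_pow, hz, hy]
    have h0 : 0 ≤ ‖z‖ := norm_nonneg z
    nlinarith
  · rw [hz, hyc]

theorem nonneg {a : ℕ → ℂ} {r M : ℝ} (h : Bd a r M) : 0 ≤ M := by
  have h1 := h.2.2 (r : ℂ) (by rw [Complex.norm_real, Real.norm_of_nonneg h.1.le])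
  exact (norm_nonneg _).trans h1

end LB2x

open LB2x in
theorem t_LB2 (hQI : S_QI) (hPA : S_PA) (hN3 : S_N3) (hTS : S_TS) : S_LB2 := by
  intro a r M hB N d μ x w hd hdN hμ hx hx1 hw hw1 hwx h0 h1 h2 h3 h4 h5
  have hM : 0 ≤ M := nonneg hB
  have hr : 0 < r := hB.1
  by_cases hx49 : x ≤ 49 / 100
  · -- the two-sided estimate
    have hT := hTS a r M hB N d μ (w ^ 3) (x ^ 2 * w) hd (by omega) hμ (by positivity)
      (by positivity) h0 h1 h5 h3
    have hw49 : w ≤ 4901 / 10000 := by linarith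
    have hw3 : w ^ 3 ≤ (4901 / 10000) ^ 3 := pow_le_pow_left₀ hw hw49 3
    have hxw : x ^ 2 * w ≤ (49 / 100) ^ 2 * (4901 / 10000) :=
      mul_le_mul (pow_le_pow_left₀ hx hx49 2) hw49 hw (by positivity)
    have hpi := Real.pi_gt_d2
    have hkk : K2 ≤ 25 * Real.pi / 96 * (2 - (w ^ 3 + x ^ 2 * w) / 5) := by
      have e1 : (1952 : ℝ) / 1000 ≤ 2 - (w ^ 3 + x ^ 2 * w) / 5 := by
        norm_num at hw3 hxw ⊢
        linarith
      have e2 : (25 : ℝ) * 3.14 / 96 ≤ 25 * Real.pi / 96 := by linarith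
      have e3 := mul_le_mul e2 e1 (by norm_num) (by positivity)
      have e4 : K2 ≤ (25 : ℝ) * 3.14 / 96 * (1952 / 1000) := by unfold K2; norm_num
      exact e4.trans e3
    exact (mul_le_mul_of_nonneg_right hkk hμ.le).trans hT
  push Not at hx49
  by_cases hx34 : x ≤ 3 / 4
  · -- the quadratic form
    obtain ⟨α, s, hα, hs, hK⟩ := hN3 x w hx49.le hx34 hw hw1 hwx
    set c : ℕ → ℂ := fun p => if p ≤ N then a (N - p) * (r : ℂ) ^ (N - p) else 0 with hc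
    have hnc : ∀ p, p ≤ N → ‖c p‖ = ‖a (N - p)‖ * r ^ (N - p) := by
      intro p hp
      simp only [hc, if_pos hp, norm_mul, norm_pow, Complex.norm_real,
        Real.norm_of_nonneg hr.le]
    have n0 : ‖c 0‖ = μ := by rw [hnc 0 (Nat.zero_le _), Nat.sub_zero]; exact h0
    have n1 : ‖c d‖ = μ := by rw [hnc d (by omega)]; exact h1
    have n2 : ‖c (2 * d)‖ = x * μ := by rw [hnc (2 * d) hdN]; exact h2
    have n3 : ‖c (3 * d)‖ ≤ x ^ 2 * w * μ := by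
      by_cases h : 3 * d ≤ N
      · rw [hnc _ h]; exact h3 _ (by omega)
      · simp only [hc, if_neg h, norm_zero]; positivity
    have n4 : ‖c (4 * d)‖ ≤ x ^ 3 * w ^ 2 * μ := by
      by_cases h : 4 * d ≤ N
      · rw [hnc _ h]; exact h4 _ (by omega)
      · simp only [hc, if_neg h, norm_zero]; positivity
    obtain ⟨z0, hz0, e0⟩ := unit_sq (c 0)
    obtain ⟨z1, hz1, e1⟩ := unit_mul (z0 * c d)
    obtain ⟨z3, hz3, e3⟩ := unit_mul (z0 * c (2 * d))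
    rw [n0] at e0
    rw [norm_mul, hz0, one_mul, n1] at e1
    rw [norm_mul, hz0, one_mul, n2] at e3
    have hne1 : (0 : ℕ) ≠ d := by omega
    have hne2 : (0 : ℕ) ≠ 2 * d := by omega
    have hne3 : d ≠ 2 * d := by omega
    set g : ℕ → ℂ := fun i => if i = 0 then z0 else if i = d then (α : ℂ) * z1 else (s : ℂ) * z3
      with hg
    have g0 : g 0 = z0 := by simp [hg]
    have g1 : g d = (α : ℂ) * z1 := by simp [hg, hne1.symm]
    have g2 : g (2 * d) = (s : ℂ) * z3 := by simp [hg, hne2.symm, hne3.symm]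
    have hq := hQI a r M hB N {0, d, 2 * d} g
    have hq' : ‖∑ i ∈ ({0, d, 2 * d} : Finset ℕ), ∑ j ∈ ({0, d, 2 * d} : Finset ℕ),
        g i * g j * c (i + j)‖ ≤ M * ∑ i ∈ ({0, d, 2 * d} : Finset ℕ), ‖g i‖ ^ 2 := hq
    have hm1 : (0 : ℕ) ∉ ({d, 2 * d} : Finset ℕ) := by simp; omega
    have hm2 : d ∉ ({2 * d} : Finset ℕ) := by simp; omega
    have hsum : ∀ F : ℕ → ℂ, ∑ i ∈ ({0, d, 2 * d} : Finset ℕ), F i = F 0 + F d + F (2 * d) := by
      intro F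
      rw [Finset.sum_insert hm1, Finset.sum_insert hm2, Finset.sum_singleton]
      ring
    have hsumR : ∀ F : ℕ → ℝ, ∑ i ∈ ({0, d, 2 * d} : Finset ℕ), F i = F 0 + F d + F (2 * d) := by
      intro F
      rw [Finset.sum_insert hm1, Finset.sum_insert hm2, Finset.sum_singleton]
      ring
    rw [hsumR, hsum] at hq'
    simp only [hsum, g0, g1, g2] at hq'
    have i1 : 0 + 0 = (0 : ℕ) := rfl
    have i2 : 0 + d = d := Nat.zero_add d
    have i3 : d + 0 = d := rfl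
    have i4 : d + d = 2 * d := by omega
    have i5 : 0 + 2 * d = 2 * d := by omega
    have i6 : 2 * d + 0 = 2 * d := rfl
    have i7 : d + 2 * d = 3 * d := by omega
    have i8 : 2 * d + d = 3 * d := by omega
    have i9 : 2 * d + 2 * d = 4 * d := by omega
    rw [i1, i2, i3, i4, i5, i6, i7, i8, i9] at hq'
    rw [norm_mul, norm_mul, hz0, hz1, hz3, Complex.norm_real, Complex.norm_real,
      Real.norm_of_nonneg hα, Real.norm_of_nonneg hs] at hq'
    set L : ℂ := ((μ * (1 + 2 * α + 2 * s * x) : ℝ) : ℂ) with hL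
    set E2 : ℂ := (α : ℂ) ^ 2 * z1 ^ 2 * c (2 * d) with hE2
    set E3 : ℂ := 2 * (α : ℂ) * (s : ℂ) * (z1 * z3) * c (3 * d) with hE3
    set E4 : ℂ := (s : ℂ) ^ 2 * z3 ^ 2 * c (4 * d) with hE4
    have key : z0 * z0 * c 0 + z0 * ((α : ℂ) * z1) * c d + z0 * ((s : ℂ) * z3) * c (2 * d)
        + ((α : ℂ) * z1 * z0 * c d + (α : ℂ) * z1 * ((α : ℂ) * z1) * c (2 * d)
          + (α : ℂ) * z1 * ((s : ℂ) * z3) * c (3 * d))
        + ((s : ℂ) * z3 * z0 * c (2 * d) + (s : ℂ) * z3 * ((α : ℂ) * z1) * c (3 * d)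
          + (s : ℂ) * z3 * ((s : ℂ) * z3) * c (4 * d)) = L + E2 + E3 + E4 := by
      rw [hL, hE2, hE3, hE4]
      push_cast
      push_cast at e3
      linear_combination e0 + 2 * (α : ℂ) * e1 + 2 * (s : ℂ) * e3
    rw [key] at hq'
    have nL : ‖L‖ = μ * (1 + 2 * α + 2 * s * x) := by
      rw [hL, Complex.norm_real, Real.norm_of_nonneg (by positivity)]
    have nE2 : ‖E2‖ ≤ α ^ 2 * (x * μ) := by
      rw [hE2, norm_mul, norm_mul, norm_pow, norm_pow, hz1, n2, Complex.norm_real,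
        Real.norm_of_nonneg hα]
      simp
    have nE3 : ‖E3‖ ≤ 2 * α * s * (x ^ 2 * w * μ) := by
      rw [hE3, norm_mul, norm_mul, norm_mul, norm_mul, norm_mul, hz1, hz3, Complex.norm_real,
        Complex.norm_real, Real.norm_of_nonneg hα, Real.norm_of_nonneg hs, Complex.norm_two]
      have : 0 ≤ 2 * α * s := by positivity
      nlinarith [mul_le_mul_of_nonneg_left n3 this]
    have nE4 : ‖E4‖ ≤ s ^ 2 * (x ^ 3 * w ^ 2 * μ) := by
      rw [hE4, norm_mul, norm_mul, norm_pow, norm_pow, hz3, Complex.norm_real,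
        Real.norm_of_nonneg hs]
      have : 0 ≤ s ^ 2 := by positivity
      nlinarith [mul_le_mul_of_nonneg_left n4 this]
    have hlow : ‖L‖ - ‖E2‖ - ‖E3‖ - ‖E4‖ ≤ ‖L + E2 + E3 + E4‖ := by
      have a1 : ‖L‖ ≤ ‖L + E2 + E3 + E4‖ + ‖E2‖ + ‖E3‖ + ‖E4‖ := by
        have hh : L = (L + E2 + E3 + E4) - E2 - E3 - E4 := by ring
        calc ‖L‖ = ‖(L + E2 + E3 + E4) - E2 - E3 - E4‖ := by rw [← hh]
          _ ≤ ‖(L + E2 + E3 + E4) - E2 - E3‖ + ‖E4‖ := norm_sub_le _ _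
          _ ≤ ‖(L + E2 + E3 + E4) - E2‖ + ‖E3‖ + ‖E4‖ := by
            gcongr; exact norm_sub_le _ _
          _ ≤ ‖L + E2 + E3 + E4‖ + ‖E2‖ + ‖E3‖ + ‖E4‖ := by
            gcongr; exact norm_sub_le _ _
      linarith
    have hpos : 0 < 1 + α ^ 2 + s ^ 2 := by positivity
    have hfin : K2 * μ * (1 + α ^ 2 + s ^ 2) ≤ M * (1 + α ^ 2 + s ^ 2) := by
      have b1 := mul_le_mul_of_nonneg_left hK hμ.le
      have b2 : M * (1 ^ 2 + (α * 1) ^ 2 + (s * 1) ^ 2) = M * (1 + α ^ 2 + s ^ 2) := by ring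
      rw [b2] at hq'
      linarith
    exact le_of_mul_le_mul_right hfin hpos
  · -- Parseval
    push Not at hx34
    have hp := hPA a r M hB {N, N - d, N - 2 * d}
    have hm1 : N ∉ ({N - d, N - 2 * d} : Finset ℕ) := by simp; omega
    have hm2 : N - d ∉ ({N - 2 * d} : Finset ℕ) := by simp; omega
    rw [Finset.sum_insert hm1, Finset.sum_insert hm2, Finset.sum_singleton, h0, h1, h2] at hp
    have hx2 : (9 : ℝ) / 16 ≤ x ^ 2 := by nlinarith
    have hKK : K2 ^ 2 ≤ 2 + x ^ 2 := by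
      have hk : K2 ^ 2 ≤ 2 + 9 / 16 := by unfold K2; norm_num
      linarith
    have h6 : (K2 * μ) ^ 2 ≤ M ^ 2 := by
      have h7 := mul_le_mul_of_nonneg_right hKK (sq_nonneg μ)
      have h8 : (K2 * μ) ^ 2 = K2 ^ 2 * μ ^ 2 := by ring
      have h9 : (2 + x ^ 2) * μ ^ 2 = μ ^ 2 + (μ ^ 2 + (x * μ) ^ 2) := by ring
      rw [h8]
      linarith
    exact (pow_le_pow_iff_left₀ (by unfold K2; positivity) hM two_ne_zero).1 h6

end Pool.Agent.H792R3.BB
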