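import Pool.Agent.H792R3.BB.Defs

set_option autoImplicit false

namespace Pool.Agent.H792R3.BB.LCx

open Filter Topology Set Finset

/-- triangular numbers -/
def tri (k : ℕ) : ℕ := k * (k - 1) / 2

lemma tri_succ (k : ℕ) : tri (k + 1) = tri k + k := Nat.triangle_succ k

lemma tri_add (n j : ℕ) : tri (n + j) = tri n + n * j + tri j := by
  induction j with
  | zero => simp [tri]
  | succ j ih =>
    have e : n + (j + 1) = (n + j) + 1 := by ring
    rw [e, tri_succ, tri_succ, ih]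
    ring

lemma two_tri (i : ℕ) : tri i + tri (i + 1) = i * i := by
  induction i with
  | zero => simp [tri]
  | succ i ih =>
    rw [tri_succ (i + 1)]
    have h := tri_succ i
    nlinarith

lemma tri_neg (k i : ℕ) : tri (k + i) + tri (i + 1) = tri k + (k + i) * i := by
  have h1 := tri_add k i
  have h2 := two_tri i
  nlinarith

lemma tri_ge5 (j : ℕ) : 10 + j ≤ tri (j + 5) := by
  induction j with
  | zero => decide
  | succ j ih =>
    have e : j + 1 + 5 = (j + 5) + 1 := by ring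
    rw [e, tri_succ]
    omega

lemma norm_p0 : ‖p0‖ = q0 := by
  have h1 : ‖(-429 + 460 * Complex.I : ℂ)‖ = 629 := by
    have h : ‖(-429 + 460 * Complex.I : ℂ)‖ ^ 2 = 629 ^ 2 := by
      rw [Complex.sq_norm, Complex.normSq_apply]
      simp
      norm_num
    have h0 : 0 ≤ ‖(-429 + 460 * Complex.I : ℂ)‖ := norm_nonneg _
    nlinarith
  unfold p0 q0
  rw [norm_mul, norm_div, norm_div, h1]
  norm_num

lemma q0_pos : 0 < q0 := by unfold q0; norm_num

lemma q0_lt : q0 < 1 := by unfold q0; norm_num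

lemma p0_ne : p0 ≠ 0 := by
  intro h
  have h1 := norm_p0
  rw [h, norm_zero] at h1
  exact absurd h1.symm q0_pos.ne'

lemma tail_small : 2 * (q0 ^ 10 * (1 - q0)⁻¹) ≤ 1 / 20000 := by
  unfold q0
  norm_num

/-- the terms -/
noncomputable def t (z : ℂ) (k : ℕ) : ℂ := p0 ^ tri k * z ^ k

lemma ff_eq (z : ℂ) : ff z = ∑' k : ℕ, t z k := rfl

lemma t_up (z : ℂ) (n j : ℕ) :
    t z (n + j) = t z n * (p0 ^ tri j * (p0 ^ n * z) ^ j) := by
  unfold t
  rw [tri_add, pow_add, pow_add, pow_add, mul_pow, ← pow_mul]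
  ring

lemma t_down (z : ℂ) (k i : ℕ) (hz : p0 ^ (k + i) * z ≠ 0) :
    t z k = t z (k + i) * (p0 ^ tri (i + 1) * (p0 ^ (k + i) * z)⁻¹ ^ i) := by
  have h : t z k * (p0 ^ (k + i) * z) ^ i = t z (k + i) * p0 ^ tri (i + 1) := by
    unfold t
    have e : p0 ^ tri (k + i) * p0 ^ tri (i + 1) = p0 ^ tri k * p0 ^ ((k + i) * i) := by
      rw [← pow_add, ← pow_add, tri_neg]
    calc p0 ^ tri k * z ^ k * (p0 ^ (k + i) * z) ^ i
        = (p0 ^ tri k * p0 ^ ((k + i) * i)) * (z ^ k * z ^ i) := by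
          rw [mul_pow, ← pow_mul]; ring
      _ = (p0 ^ tri (k + i) * p0 ^ tri (i + 1)) * z ^ (k + i) := by rw [e, pow_add]
      _ = p0 ^ tri (k + i) * z ^ (k + i) * p0 ^ tri (i + 1) := by ring
  have hi : (p0 ^ (k + i) * z) ^ i ≠ 0 := pow_ne_zero _ hz
  rw [inv_pow, ← mul_assoc, ← h, mul_assoc, mul_inv_cancel₀ hi, mul_one]

end Pool.Agent.H792R3.BB.LCx

namespace Pool.Agent.H792R3.BB

open Filter Topology Set Finset LCx

/-- (LC) bound on the jump circles -/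
theorem t_LC (hTH : S_TH) : S_LC := by
  intro n z hn hz
  obtain ⟨w, hw⟩ : ∃ w : ℂ, w = p0 ^ n * z := ⟨_, rfl⟩
  have hw1 : ‖w‖ = 1 := by
    rw [hw, norm_mul, norm_pow, norm_p0, mul_comm]
    exact hz
  have hw0 : w ≠ 0 := by
    intro h
    rw [h, norm_zero] at hw1
    exact zero_ne_one hw1
  have hwinv : ‖w⁻¹‖ = 1 := by rw [norm_inv, hw1, inv_one]
  obtain ⟨μ, hμ⟩ : ∃ μ : ℝ, μ = q0 ^ (n * (n - 1) / 2) * ‖z‖ ^ n := ⟨_, rfl⟩
  have hμn : ‖t z n‖ = μ := by
    unfold t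
    rw [norm_mul, norm_pow, norm_pow, norm_p0, hμ]
    rfl
  have hμ0 : 0 ≤ μ := by rw [← hμn]; exact norm_nonneg _
  rw [← hμ]
  have hup : ∀ j, t z (n + j) = t z n * (p0 ^ tri j * w ^ j) := by
    intro j; rw [t_up, hw]
  have hdown : ∀ k i, k + i = n → t z k = t z n * (p0 ^ tri (i + 1) * w⁻¹ ^ i) := by
    intro k i hki
    have h := t_down z k i (by rw [hki, ← hw]; exact hw0)
    rw [hki, ← hw] at h
    exact h
  -- tail
  have hgeo : HasSum (fun j : ℕ => μ * (q0 ^ 10 * q0 ^ j)) (μ * (q0 ^ 10 * (1 - q0)⁻¹)) :=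
    ((hasSum_geometric_of_lt_one q0_pos.le q0_lt).mul_left (q0 ^ 10)).mul_left μ
  have htail : ∀ j : ℕ, ‖t z (j + (n + 5))‖ ≤ μ * (q0 ^ 10 * q0 ^ j) := by
    intro j
    have e : j + (n + 5) = n + (j + 5) := by ring
    rw [e, hup, norm_mul, hμn, norm_mul, norm_pow, norm_pow, norm_p0, hw1, one_pow, mul_one,
      ← pow_add]
    exact mul_le_mul_of_nonneg_left
      (pow_le_pow_of_le_one q0_pos.le q0_lt.le (tri_ge5 j)) hμ0
  have hsumt : Summable (fun j => t z (j + (n + 5))) :=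
    Summable.of_norm_bounded hgeo.summable htail
  have hsum : Summable (t z) := (summable_nat_add_iff (n + 5)).mp hsumt
  have hsplit := hsum.sum_add_tsum_nat_add (n + 5)
  have hT : ‖∑' j, t z (j + (n + 5))‖ ≤ μ * (q0 ^ 10 * (1 - q0)⁻¹) :=
    tsum_of_norm_bounded hgeo htail
  -- the first terms
  obtain ⟨m, rfl⟩ : ∃ m, n = m + 3 := ⟨n - 3, by omega⟩
  have hS : ‖∑ k ∈ range m, t z k‖ ≤ μ * (q0 ^ 10 * (1 - q0)⁻¹) := by
    refine (norm_sum_le _ _).trans ?_
    rw [← Finset.sum_range_reflect]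
    have h1 : ∀ l ∈ range m, ‖t z (m - 1 - l)‖ ≤ μ * (q0 ^ 10 * q0 ^ l) := by
      intro l hl
      rw [Finset.mem_range] at hl
      have e : (m - 1 - l) + (l + 4) = m + 3 := by omega
      rw [hdown _ _ e, norm_mul, hμn, norm_mul, norm_pow, norm_pow, norm_p0, hwinv, one_pow,
        mul_one, ← pow_add]
      exact mul_le_mul_of_nonneg_left
        (pow_le_pow_of_le_one q0_pos.le q0_lt.le (tri_ge5 l)) hμ0
    refine (Finset.sum_le_sum h1).trans ?_
    exact sum_le_hasSum _ (fun j _ => mul_nonneg hμ0 (mul_nonneg (pow_nonneg q0_pos.le _)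
      (pow_nonneg q0_pos.le _))) hgeo
  have e0 := hdown m 3 rfl
  have e1 := hdown (m + 1) 2 rfl
  have e2 := hdown (m + 2) 1 rfl
  have e4 := hup 1
  have e5 := hup 2
  have e6 := hup 3
  have e7 := hup 4
  have t1 : tri 1 = 0 := rfl
  have t2 : tri 2 = 1 := rfl
  have t3 : tri 3 = 3 := rfl
  have t4 : tri 4 = 6 := rfl
  have hmid : t z m + t z (m + 1) + t z (m + 2) + t z (m + 3) + t z (m + 3 + 1) +
      t z (m + 3 + 2) + t z (m + 3 + 3) + t z (m + 3 + 4) = t z (m + 3) *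
      (1 + w + p0 * (w ^ 2 + w⁻¹) + p0 ^ 3 * (w ^ 3 + w⁻¹ ^ 2) + p0 ^ 6 * (w ^ 4 + w⁻¹ ^ 3)) := by
    rw [e0, e1, e2, e4, e5, e6, e7]
    norm_num only [t1, t2, t3, t4, Nat.reduceAdd]
    ring
  have hM : ‖t z m + t z (m + 1) + t z (m + 2) + t z (m + 3) + t z (m + 3 + 1) +
      t z (m + 3 + 2) + t z (m + 3 + 3) + t z (m + 3 + 4)‖ ≤ μ * (17093 / 10000) := by
    rw [hmid, norm_mul, hμn]
    exact mul_le_mul_of_nonneg_left (hTH w hw1) hμ0
  have hff : ff z = (∑ k ∈ range m, t z k) + (t z m + t z (m + 1) + t z (m + 2) + t z (m + 3) +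
      t z (m + 3 + 1) + t z (m + 3 + 2) + t z (m + 3 + 3) + t z (m + 3 + 4)) +
      ∑' j, t z (j + (m + 3 + 5)) := by
    rw [ff_eq, ← hsplit]
    congr 1
    have e : m + 3 + 5 = m + 8 := by ring
    rw [e, Finset.sum_range_succ, Finset.sum_range_succ, Finset.sum_range_succ,
      Finset.sum_range_succ, Finset.sum_range_succ, Finset.sum_range_succ, Finset.sum_range_succ,
      Finset.sum_range_succ]
    ring
  rw [hff]
  have h3 := norm_add_le ((∑ k ∈ range m, t z k) + (t z m + t z (m + 1) + t z (m + 2) +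
      t z (m + 3) + t z (m + 3 + 1) + t z (m + 3 + 2) + t z (m + 3 + 3) + t z (m + 3 + 4)))
      (∑' j, t z (j + (m + 3 + 5)))
  have h4 := norm_add_le (∑ k ∈ range m, t z k) (t z m + t z (m + 1) + t z (m + 2) +
      t z (m + 3) + t z (m + 3 + 1) + t z (m + 3 + 2) + t z (m + 3 + 3) + t z (m + 3 + 4))
  have h5 : μ * (2 * (q0 ^ 10 * (1 - q0)⁻¹)) ≤ μ * (1 / 20000) :=
    mul_le_mul_of_nonneg_left tail_small hμ0
  linarith

end Pool.Agent.H792R3.BB
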