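import Pool.Agent.H792R3.BB.Defs
set_option autoImplicit false

namespace Pool.Agent.H792R3.BB

open Filter Topology Set

namespace LOWx

theorem norm_p0 : ‖p0‖ = q0 := by
  unfold p0 q0
  rw [norm_mul]
  have h1 : ‖(561 / 2000 : ℂ)‖ = 561 / 2000 := by
    have : (561 / 2000 : ℂ) = ((561 / 2000 : ℝ) : ℂ) := by push_cast; rfl
    rw [this, Complex.norm_real, Real.norm_of_nonneg (by norm_num)]
  have h2 : ‖(629 : ℂ)‖ = 629 := by
    have : (629 : ℂ) = ((629 : ℝ) : ℂ) := by push_cast; rfl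
    rw [this, Complex.norm_real, Real.norm_of_nonneg (by norm_num)]
  have h3 : ‖(-429 + 460 * Complex.I : ℂ)‖ = 629 := by
    have h4 : ‖(-429 + 460 * Complex.I : ℂ)‖ ^ 2 = 629 ^ 2 := by
      rw [← Complex.normSq_eq_norm_sq, Complex.normSq_apply]
      simp
      norm_num
    exact (pow_left_inj₀ (norm_nonneg _) (by norm_num) (by norm_num : (2 : ℕ) ≠ 0)).1 h4
  rw [h1, norm_div, h2, h3]
  norm_num

end LOWx

theorem t_LOW (hAN : S_AN) (hTE : S_TE) (hCY : S_CY) : S_LOW := by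
  unfold S_LOW
  have hq0 : (0 : ℝ) < q0 := by unfold q0; norm_num
  have hq1 : q0 < 1 := by unfold q0; norm_num
  have hub : ∀ᶠ r : ℝ in atTop, mu ff r / maxMod ff r ≤ 1 := by
    filter_upwards [eventually_gt_atTop (0 : ℝ)] with r hr
    obtain ⟨-, h1, h2, -⟩ := hCY ff hTE.1 r hr
    rw [div_le_one (lt_of_lt_of_le h1 h2)]
    exact h2
  refine le_liminf_of_le ?_ ?_
  · exact (isBoundedUnder_of_eventually_le hub).isCoboundedUnder_ge
  · filter_upwards [eventually_gt_atTop (1 / q0 ^ 3)] with r hr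
    have hq3 : (0 : ℝ) < q0 ^ 3 := by positivity
    have hr0 : 0 < r := lt_trans (by positivity) hr
    have hr3 : 1 < r * q0 ^ 3 := by
      rw [div_lt_iff₀ hq3] at hr
      exact hr
    have hex : ∃ n : ℕ, r * q0 ^ n ≤ 1 := by
      obtain ⟨n, hn⟩ := exists_pow_lt_of_lt_one (show (0 : ℝ) < 1 / r by positivity) hq1
      refine ⟨n, ?_⟩
      rw [lt_div_iff₀ hr0] at hn
      linarith
    classical
    obtain ⟨n, hn, hmin⟩ : ∃ n : ℕ, r * q0 ^ n ≤ 1 ∧ ∀ m < n, ¬ r * q0 ^ m ≤ 1 :=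
      ⟨Nat.find hex, Nat.find_spec hex, fun m hm => Nat.find_min hex hm⟩
    have hn4 : 4 ≤ n := by
      by_contra hcon
      have h1 : q0 ^ 3 ≤ q0 ^ n := pow_le_pow_of_le_one hq0.le hq1.le (by omega)
      have h2 : r * q0 ^ 3 ≤ r * q0 ^ n := mul_le_mul_of_nonneg_left h1 hr0.le
      linarith
    have hn1 : 1 ≤ r * q0 ^ (n - 1) := (not_le.1 (hmin (n - 1) (by omega))).le
    obtain ⟨hb, hmu, hle, -⟩ := hCY ff hTE.1 r hr0
    obtain ⟨B, hB⟩ : ∃ B : ℝ, B = q0 ^ (n * (n - 1) / 2) * r ^ n := ⟨_, rfl⟩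
    have hmuB : B ≤ mu ff r := by
      have h1 := le_ciSup hb n
      have h2 : ‖tc ff n‖ * r ^ n = B := by
        rw [hTE.2 n, norm_pow, LOWx.norm_p0, hB]
      rw [← h2]
      exact h1
    have hBpos : 0 < B := by rw [hB]; positivity
    have hmax : maxMod ff r ≤ 34187 / 20000 * B := by
      unfold maxMod
      refine csSup_le ?_ ?_
      · exact ((NormedSpace.sphere_nonempty (E := ℂ)).2 hr0.le).image _
      · rintro y ⟨z, hz, rfl⟩
        have hz' : ‖z‖ = r := by simpa using hz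
        have h3 := hAN n z hn4 (by rw [hz']; exact hn1) (by rw [hz']; exact hn)
        rw [hz', ← hB] at h3
        exact h3
    have hMpos : 0 < maxMod ff r := lt_of_lt_of_le hmu hle
    rw [le_div_iff₀ hMpos]
    nlinarith

end Pool.Agent.H792R3.BB
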