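import Pool.Agent.H792R3.BB.Defs2
set_option autoImplicit false
set_option linter.all false

namespace Pool.Agent.H792R3.BB

namespace N3x

lemma a_0 (u : ℝ) (h0 : (49 / 100 : ℝ) ≤ u) (h1 : u ≤ 3 / 4) :
    0 ≤ 1 + 2 * (637 / 1000 - 44 / 125 * u) - (637 / 1000 - 44 / 125 * u) ^ 2 * u + 2 * (73 / 1000 + 99 / 200 * u - 197 / 1000 * u ^ 2) * u - 2 * (637 / 1000 - 44 / 125 * u) * (73 / 1000 + 99 / 200 * u - 197 / 1000 * u ^ 2) * u ^ 2 * (u + 1 / 10000)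
      - (73 / 1000 + 99 / 200 * u - 197 / 1000 * u ^ 2) ^ 2 * u ^ 3 * (u + 1 / 10000) ^ 2 - 1000 / 627 * (1 + (637 / 1000 - 44 / 125 * u) ^ 2 + (73 / 1000 + 99 / 200 * u - 197 / 1000 * u ^ 2) ^ 2) := by
  have e1 : (0 : ℝ) ≤ u - (49 / 100) := by linarith
  have e2 : (0 : ℝ) ≤ (3 / 4) - u := by linarith
  have h : 1 + 2 * (637 / 1000 - 44 / 125 * u) - (637 / 1000 - 44 / 125 * u) ^ 2 * u + 2 * (73 / 1000 + 99 / 200 * u - 197 / 1000 * u ^ 2) * u - 2 * (637 / 1000 - 44 / 125 * u) * (73 / 1000 + 99 / 200 * u - 197 / 1000 * u ^ 2) * u ^ 2 * (u + 1 / 10000)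
      - (73 / 1000 + 99 / 200 * u - 197 / 1000 * u ^ 2) ^ 2 * u ^ 3 * (u + 1 / 10000) ^ 2 - 1000 / 627 * (1 + (637 / 1000 - 44 / 125 * u) ^ 2 + (73 / 1000 + 99 / 200 * u - 197 / 1000 * u ^ 2) ^ 2) =
      (6440434909889320790718193093 / 34042988067179520000000000 : ℝ) * ((3 / 4) - u) ^ 9 +
      (254280319664851258074701053211 / 34042988067179520000000000 : ℝ) * (u - (49 / 100)) ^ 1 * ((3 / 4) - u) ^ 8 +
      (224548354140676885976800155521 / 4255373508397440000000000 : ℝ) * (u - (49 / 100)) ^ 2 * ((3 / 4) - u) ^ 7 +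
      (1230784319814807575200821761 / 7092289180662400000000 : ℝ) * (u - (49 / 100)) ^ 3 * ((3 / 4) - u) ^ 6 +
      (270189374067284474077477453 / 825284559204352000000 : ℝ) * (u - (49 / 100)) ^ 4 * ((3 / 4) - u) ^ 5 +
      (27721927505226541714167793 / 72625041209982976000 : ℝ) * (u - (49 / 100)) ^ 5 * ((3 / 4) - u) ^ 4 +
      (760472447579607855830659 / 2723439045374361600 : ℝ) * (u - (49 / 100)) ^ 6 * ((3 / 4) - u) ^ 3 +
      (54050288965890211880663 / 435750247259897856 : ℝ) * (u - (49 / 100)) ^ 7 * ((3 / 4) - u) ^ 2 +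
      (105252749878214962366625 / 3486001978079182848 : ℝ) * (u - (49 / 100)) ^ 8 * ((3 / 4) - u) ^ 1 +
      (3499510070612118328125 / 1162000659359727616 : ℝ) * (u - (49 / 100)) ^ 9 := by ring
  rw [h]
  positivity

lemma all (u : ℝ) (h0 : (49 / 100 : ℝ) ≤ u) (h1 : u ≤ 3 / 4) :
    0 ≤ 1 + 2 * (637 / 1000 - 44 / 125 * u) - (637 / 1000 - 44 / 125 * u) ^ 2 * u + 2 * (73 / 1000 + 99 / 200 * u - 197 / 1000 * u ^ 2) * u - 2 * (637 / 1000 - 44 / 125 * u) * (73 / 1000 + 99 / 200 * u - 197 / 1000 * u ^ 2) * u ^ 2 * (u + 1 / 10000)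
      - (73 / 1000 + 99 / 200 * u - 197 / 1000 * u ^ 2) ^ 2 * u ^ 3 * (u + 1 / 10000) ^ 2 - 1000 / 627 * (1 + (637 / 1000 - 44 / 125 * u) ^ 2 + (73 / 1000 + 99 / 200 * u - 197 / 1000 * u ^ 2) ^ 2) := by
  exact a_0 u h0 h1

end N3x

theorem t_N3 : S_N3 := by
  intro u w h0 h1 hw0 hw1 hw
  have hu : (0 : ℝ) ≤ u := by linarith
  have hal : (0 : ℝ) ≤ 637 / 1000 - 44 / 125 * u := by linarith
  have hs : (0 : ℝ) ≤ 73 / 1000 + 99 / 200 * u - 197 / 1000 * u ^ 2 := by nlinarith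
  refine ⟨637 / 1000 - 44 / 125 * u, 73 / 1000 + 99 / 200 * u - 197 / 1000 * u ^ 2, hal, hs, ?_⟩
  have h := N3x.all u h0 h1
  set al : ℝ := 637 / 1000 - 44 / 125 * u with hald
  set s : ℝ := 73 / 1000 + 99 / 200 * u - 197 / 1000 * u ^ 2 with hsd
  have e1 : 2 * al * s * u ^ 2 * w ≤ 2 * al * s * u ^ 2 * (u + 1 / 10000) := by gcongr
  have e2 : s ^ 2 * u ^ 3 * w ^ 2 ≤ s ^ 2 * u ^ 3 * (u + 1 / 10000) ^ 2 := by gcongr
  unfold K2
  linarith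

end Pool.Agent.H792R3.BB
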