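import Pool.Agent.H792R3.BB.Defs2
set_option autoImplicit false
set_option linter.all false

namespace Pool.Agent.H792R3.BB

namespace N4x

lemma a_0 (u : ℝ) (h0 : (9 / 40 : ℝ) ≤ u) (h1 : u ≤ 3 / 4) :
    0 ≤ 1 + 2 * (23 / 40 - 187 / 1000 * u) - (23 / 40 - 187 / 1000 * u) ^ 3 * u ^ 2 - (23 / 40 - 187 / 1000 * u) ^ 4 / 4 * u ^ 3 + 2 * (11 / 500 + 101 / 200 * u - 33 / 125 * u ^ 2) * u - 2 * (23 / 40 - 187 / 1000 * u) * (11 / 500 + 101 / 200 * u - 33 / 125 * u ^ 2) * u ^ 2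
      - (23 / 40 - 187 / 1000 * u) ^ 2 * (11 / 500 + 101 / 200 * u - 33 / 125 * u ^ 2) * u ^ 3 - (11 / 500 + 101 / 200 * u - 33 / 125 * u ^ 2) ^ 2 * u ^ 3 - 1000 / 627 * (1 + (23 / 40 - 187 / 1000 * u) ^ 2 + (23 / 40 - 187 / 1000 * u) ^ 4 / 4 + (11 / 500 + 101 / 200 * u - 33 / 125 * u ^ 2) ^ 2) := by
  have e1 : (0 : ℝ) ≤ u - (9 / 40) := by linarith
  have e2 : (0 : ℝ) ≤ (3 / 4) - u := by linarith
  have h : 1 + 2 * (23 / 40 - 187 / 1000 * u) - (23 / 40 - 187 / 1000 * u) ^ 3 * u ^ 2 - (23 / 40 - 187 / 1000 * u) ^ 4 / 4 * u ^ 3 + 2 * (11 / 500 + 101 / 200 * u - 33 / 125 * u ^ 2) * u - 2 * (23 / 40 - 187 / 1000 * u) * (11 / 500 + 101 / 200 * u - 33 / 125 * u ^ 2) * u ^ 2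
      - (23 / 40 - 187 / 1000 * u) ^ 2 * (11 / 500 + 101 / 200 * u - 33 / 125 * u ^ 2) * u ^ 3 - (11 / 500 + 101 / 200 * u - 33 / 125 * u ^ 2) ^ 2 * u ^ 3 - 1000 / 627 * (1 + (23 / 40 - 187 / 1000 * u) ^ 2 + (23 / 40 - 187 / 1000 * u) ^ 4 / 4 + (11 / 500 + 101 / 200 * u - 33 / 125 * u ^ 2) ^ 2) =
      (801099267884681867051957 / 4517130060828000000000000 : ℝ) * ((3 / 4) - u) ^ 7 +
      (410436483673154797072919 / 64530429440400000000000 : ℝ) * (u - (9 / 40)) ^ 1 * ((3 / 4) - u) ^ 6 +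
      (74812723494819758196173 / 2151014314680000000000 : ℝ) * (u - (9 / 40)) ^ 2 * ((3 / 4) - u) ^ 5 +
      (10243549194950008039391 / 129060858880800000000 : ℝ) * (u - (9 / 40)) ^ 3 * ((3 / 4) - u) ^ 4 +
      (168696041140989341171 / 1843726555440000000 : ℝ) * (u - (9 / 40)) ^ 4 * ((3 / 4) - u) ^ 3 +
      (10666354857137164309 / 195546755880000000 : ℝ) * (u - (9 / 40)) ^ 5 * ((3 / 4) - u) ^ 2 +
      (9867315703820246333 / 645304294404000000 : ℝ) * (u - (9 / 40)) ^ 6 * ((3 / 4) - u) ^ 1 +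
      (636225094415902511 / 451713006082800000 : ℝ) * (u - (9 / 40)) ^ 7 := by ring
  rw [h]
  positivity

lemma all (u : ℝ) (h0 : (9 / 40 : ℝ) ≤ u) (h1 : u ≤ 3 / 4) :
    0 ≤ 1 + 2 * (23 / 40 - 187 / 1000 * u) - (23 / 40 - 187 / 1000 * u) ^ 3 * u ^ 2 - (23 / 40 - 187 / 1000 * u) ^ 4 / 4 * u ^ 3 + 2 * (11 / 500 + 101 / 200 * u - 33 / 125 * u ^ 2) * u - 2 * (23 / 40 - 187 / 1000 * u) * (11 / 500 + 101 / 200 * u - 33 / 125 * u ^ 2) * u ^ 2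
      - (23 / 40 - 187 / 1000 * u) ^ 2 * (11 / 500 + 101 / 200 * u - 33 / 125 * u ^ 2) * u ^ 3 - (11 / 500 + 101 / 200 * u - 33 / 125 * u ^ 2) ^ 2 * u ^ 3 - 1000 / 627 * (1 + (23 / 40 - 187 / 1000 * u) ^ 2 + (23 / 40 - 187 / 1000 * u) ^ 4 / 4 + (11 / 500 + 101 / 200 * u - 33 / 125 * u ^ 2) ^ 2) := by
  exact a_0 u h0 h1

end N4x

theorem t_N4 : S_N4 := by
  intro u h0 h1
  refine ⟨23 / 40 - 187 / 1000 * u, 11 / 500 + 101 / 200 * u - 33 / 125 * u ^ 2, by linarith, by nlinarith, ?_⟩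
  have h := N4x.all u h0 h1
  unfold K2
  linarith

end Pool.Agent.H792R3.BB
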