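import Pool.Agent.H792R3.BB.Defs2
set_option autoImplicit false
set_option linter.all false

namespace Pool.Agent.H792R3.BB

namespace N6x

lemma a_0 (u : ℝ) (h0 : (0 : ℝ) ≤ u) (h1 : u ≤ 9 / 40) :
    0 ≤ 1 + 2 * (31 / 50 - 317 / 1000 * u - 89 / 1000 * u ^ 2) - (31 / 50 - 317 / 1000 * u - 89 / 1000 * u ^ 2) ^ 2 * u + 4 * (74 / 125 * u - 169 / 1000 * u ^ 2) * u - 4 * ((31 / 50 - 317 / 1000 * u - 89 / 1000 * u ^ 2) * (74 / 125 * u - 169 / 1000 * u ^ 2) - (71 / 125 * u ^ 2)) * u ^ 2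
      - (4 * (74 / 125 * u - 169 / 1000 * u ^ 2) ^ 2 + 4 * (31 / 50 - 317 / 1000 * u - 89 / 1000 * u ^ 2) * (71 / 125 * u ^ 2)) * u ^ 3 - 8 * (74 / 125 * u - 169 / 1000 * u ^ 2) * (71 / 125 * u ^ 2) * u ^ 4 - 4 * (71 / 125 * u ^ 2) ^ 2 * u ^ 5
      - 1000 / 627 * (1 + (31 / 50 - 317 / 1000 * u - 89 / 1000 * u ^ 2) ^ 2 + 2 * (74 / 125 * u - 169 / 1000 * u ^ 2) ^ 2 + 2 * (71 / 125 * u ^ 2) ^ 2) := by
  have e1 : (0 : ℝ) ≤ u - (0) := by linarith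
  have e2 : (0 : ℝ) ≤ (9 / 40) - u := by linarith
  have h : 1 + 2 * (31 / 50 - 317 / 1000 * u - 89 / 1000 * u ^ 2) - (31 / 50 - 317 / 1000 * u - 89 / 1000 * u ^ 2) ^ 2 * u + 4 * (74 / 125 * u - 169 / 1000 * u ^ 2) * u - 4 * ((31 / 50 - 317 / 1000 * u - 89 / 1000 * u ^ 2) * (74 / 125 * u - 169 / 1000 * u ^ 2) - (71 / 125 * u ^ 2)) * u ^ 2
      - (4 * (74 / 125 * u - 169 / 1000 * u ^ 2) ^ 2 + 4 * (31 / 50 - 317 / 1000 * u - 89 / 1000 * u ^ 2) * (71 / 125 * u ^ 2)) * u ^ 3 - 8 * (74 / 125 * u - 169 / 1000 * u ^ 2) * (71 / 125 * u ^ 2) * u ^ 4 - 4 * (71 / 125 * u ^ 2) ^ 2 * u ^ 5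
      - 1000 / 627 * (1 + (31 / 50 - 317 / 1000 * u - 89 / 1000 * u ^ 2) ^ 2 + 2 * (74 / 125 * u - 169 / 1000 * u ^ 2) ^ 2 + 2 * (71 / 125 * u ^ 2) ^ 2) =
      (5263851520000000 / 242912646603 : ℝ) * ((9 / 40) - u) ^ 9 +
      (1218408611840000 / 8996764689 : ℝ) * (u - (0)) ^ 1 * ((9 / 40) - u) ^ 8 +
      (9555579935129600 / 26990294067 : ℝ) * (u - (0)) ^ 2 * ((9 / 40) - u) ^ 7 +
      (40026263802966016 / 80970882201 : ℝ) * (u - (0)) ^ 3 * ((9 / 40) - u) ^ 6 +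
      (3496501285981184 / 8996764689 : ℝ) * (u - (0)) ^ 4 * ((9 / 40) - u) ^ 5 +
      (10363391423040704 / 61341577425 : ℝ) * (u - (0)) ^ 5 * ((9 / 40) - u) ^ 4 +
      (490431662456296928 / 10121360275125 : ℝ) * (u - (0)) ^ 6 * ((9 / 40) - u) ^ 3 +
      (164303580091124 / 6310861875 : ℝ) * (u - (0)) ^ 7 * ((9 / 40) - u) ^ 2 +
      (1298433628840468816 / 84344668959375 : ℝ) * (u - (0)) ^ 8 * ((9 / 40) - u) ^ 1 +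
      (13125703188258530128 / 3795510103171875 : ℝ) * (u - (0)) ^ 9 := by ring
  rw [h]
  positivity

lemma all (u : ℝ) (h0 : (0 : ℝ) ≤ u) (h1 : u ≤ 9 / 40) :
    0 ≤ 1 + 2 * (31 / 50 - 317 / 1000 * u - 89 / 1000 * u ^ 2) - (31 / 50 - 317 / 1000 * u - 89 / 1000 * u ^ 2) ^ 2 * u + 4 * (74 / 125 * u - 169 / 1000 * u ^ 2) * u - 4 * ((31 / 50 - 317 / 1000 * u - 89 / 1000 * u ^ 2) * (74 / 125 * u - 169 / 1000 * u ^ 2) - (71 / 125 * u ^ 2)) * u ^ 2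
      - (4 * (74 / 125 * u - 169 / 1000 * u ^ 2) ^ 2 + 4 * (31 / 50 - 317 / 1000 * u - 89 / 1000 * u ^ 2) * (71 / 125 * u ^ 2)) * u ^ 3 - 8 * (74 / 125 * u - 169 / 1000 * u ^ 2) * (71 / 125 * u ^ 2) * u ^ 4 - 4 * (71 / 125 * u ^ 2) ^ 2 * u ^ 5
      - 1000 / 627 * (1 + (31 / 50 - 317 / 1000 * u - 89 / 1000 * u ^ 2) ^ 2 + 2 * (74 / 125 * u - 169 / 1000 * u ^ 2) ^ 2 + 2 * (71 / 125 * u ^ 2) ^ 2) := by
  exact a_0 u h0 h1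

end N6x

theorem t_N6 : S_N6 := by
  intro u h0 h1
  have hal : (27 / 50 : ℝ) ≤ 31 / 50 - 317 / 1000 * u - 89 / 1000 * u ^ 2 := by nlinarith
  have hs : (0 : ℝ) ≤ 74 / 125 * u - 169 / 1000 * u ^ 2 := by nlinarith
  have hs2 : (74 / 125 * u - 169 / 1000 * u ^ 2 : ℝ) ≤ 74 / 125 * u := by nlinarith [sq_nonneg u]
  refine ⟨31 / 50 - 317 / 1000 * u - 89 / 1000 * u ^ 2, 74 / 125 * u - 169 / 1000 * u ^ 2,
    71 / 125 * u ^ 2, by linarith, hs, by positivity, ?_, ?_, ?_⟩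
  · nlinarith
  · nlinarith
  · have h := N6x.all u h0 h1
    unfold K2
    linarith

end Pool.Agent.H792R3.BB
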