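import Pool.Agent.H792R3.BB.Defs
set_option autoImplicit false
set_option linter.all false

namespace Pool.Agent.H792R3.BB

namespace NAx

lemma a_0 (u : ℝ) (h0 : (0 : ℝ) ≤ u) (h1 : u ≤ 1) :
    0 ≤ 1 + 2 * (11 / 20 - 1 / 5 * u) - (11 / 20 - 1 / 5 * u) ^ 3 * u ^ 2 - (11 / 20 - 1 / 5 * u) ^ 4 / 4 * u ^ 3 + 2 * (1 / 5 * u) * u - 2 * (11 / 20 - 1 / 5 * u) * (1 / 5 * u) * u ^ 2
      - (11 / 20 - 1 / 5 * u) ^ 2 * (1 / 5 * u) * u ^ 3 - (1 / 5 * u) ^ 2 * u ^ 3 - 125 / 79 * (1 + (11 / 20 - 1 / 5 * u) ^ 2 + (11 / 20 - 1 / 5 * u) ^ 4 / 4 + (1 / 5 * u) ^ 2) := by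
  have e1 : (0 : ℝ) ≤ u - (0) := by linarith
  have e2 : (0 : ℝ) ≤ (1) - u := by linarith
  have h : 1 + 2 * (11 / 20 - 1 / 5 * u) - (11 / 20 - 1 / 5 * u) ^ 3 * u ^ 2 - (11 / 20 - 1 / 5 * u) ^ 4 / 4 * u ^ 3 + 2 * (1 / 5 * u) * u - 2 * (11 / 20 - 1 / 5 * u) * (1 / 5 * u) * u ^ 2
      - (11 / 20 - 1 / 5 * u) ^ 2 * (1 / 5 * u) * u ^ 3 - (1 / 5 * u) ^ 2 * u ^ 3 - 125 / 79 * (1 + (11 / 20 - 1 / 5 * u) ^ 2 + (11 / 20 - 1 / 5 * u) ^ 4 / 4 + (1 / 5 * u) ^ 2) =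
      (1167 / 404480 : ℝ) * ((1) - u) ^ 7 +
      (8473 / 404480 : ℝ) * (u - (0)) ^ 1 * ((1) - u) ^ 6 +
      (1450291 / 10112000 : ℝ) * (u - (0)) ^ 2 * ((1) - u) ^ 5 +
      (11362413 / 25280000 : ℝ) * (u - (0)) ^ 3 * ((1) - u) ^ 4 +
      (33760973 / 50560000 : ℝ) * (u - (0)) ^ 4 * ((1) - u) ^ 3 +
      (24314069 / 50560000 : ℝ) * (u - (0)) ^ 5 * ((1) - u) ^ 2 +
      (7138857 / 50560000 : ℝ) * (u - (0)) ^ 6 * ((1) - u) ^ 1 +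
      (44729 / 12640000 : ℝ) * (u - (0)) ^ 7 := by ring
  rw [h]
  positivity

end NAx

theorem t_NA : S_NA := by
  intro u h0 h1
  refine ⟨11 / 20 - 1 / 5 * u, 1 / 5 * u, by linarith, by linarith, ?_⟩
  have h := NAx.a_0 u h0 h1
  unfold K
  linarith

end Pool.Agent.H792R3.BB
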