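import Pool.Agent.H792R3.BB.Defs2
set_option autoImplicit false

namespace Pool.Agent.H792R3.BB

open Filter Topology Set

theorem t_OS2 : S_OS2 := by
  intro x ε hε h0 h1 m₀ J
  -- suprema of the tails
  let T : ℕ → ℝ := fun m => ⨆ j : ℕ, x (m + j)
  have hbdd : ∀ m, BddAbove (Set.range fun j : ℕ => x (m + j)) := by
    intro m
    exact ⟨1, by rintro _ ⟨j, rfl⟩; exact h1 _⟩
  have hT0 : ∀ m, 0 ≤ T m := fun m => (h0 (m + 0)).trans (le_ciSup (hbdd m) 0)
  have hxT : ∀ m j, m ≤ j → x j ≤ T m := by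
    intro m j hj
    obtain ⟨k, rfl⟩ := Nat.exists_eq_add_of_le hj
    exact le_ciSup (hbdd m) k
  have hTb : BddBelow (Set.range T) := ⟨0, by rintro _ ⟨j, rfl⟩; exact hT0 j⟩
  -- the infimum of the tails' suprema
  obtain ⟨m₁, hm₁⟩ : ∃ m₁, T m₁ < (⨅ m, T m) + ε / 2 :=
    exists_lt_of_ciInf_lt (by linarith)
  have h2 : (⨅ m, T m) - ε / 2 < T (max m₀ m₁ + J) := by
    have := ciInf_le hTb (max m₀ m₁ + J)
    linarith
  obtain ⟨k, hk⟩ := exists_lt_of_lt_ciSup h2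
  refine ⟨max m₀ m₁ + J + k, ?_, ?_⟩
  · have := le_max_left m₀ m₁
    omega
  · intro j hj
    have h3 : m₁ ≤ j := by
      have := le_max_right m₀ m₁
      omega
    have h4 := hxT m₁ j h3
    linarith

end Pool.Agent.H792R3.BB
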