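import Pool.Agent.H792R3.BB.Defs

set_option autoImplicit false

namespace Pool.Agent.H792R3.BB

/-- (OSC) no eternal decrease -/
theorem t_OSC : S_OSC := by
  intro x ε hε h0 h1 m₀
  by_contra hcon
  push Not at hcon
  have key : ∀ j : ℕ, x (m₀ + j) ≤ x m₀ - j * ε := by
    intro j
    induction j with
    | zero => simp
    | succ j ih =>
      have h := hcon (m₀ + j) (by omega)
      have e : m₀ + (j + 1) = m₀ + j + 1 := by ring
      rw [e]
      push_cast
      linarith
  obtain ⟨j, hj⟩ := exists_nat_gt (1 / ε)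
  have h2 := key j
  have h3 : 1 < j * ε := by rwa [div_lt_iff₀ hε] at hj
  have h4 := h0 (m₀ + j)
  have h5 := h1 m₀
  linarith

end Pool.Agent.H792R3.BB
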