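import Pool.Agent.H792R3.BB.Defs
import Pool.Agent.H781R2.Pars
set_option autoImplicit false

/-! Parseval inequality, from `Pool/Agent/H781R2/Pars.lean`. -/

namespace Pool.Agent.H792R3.BB

theorem t_PA : S_PA := by
  open MeasureTheory Real in
  intro a r M hB s
  obtain ⟨hr, hs, hM⟩ := hB
  set c : ℕ → ℂ := fun n => a n * (r : ℂ) ^ n with hc
  have hcn : ∀ n, ‖c n‖ = ‖a n‖ * r ^ n := by
    intro n
    simp only [hc, norm_mul, norm_pow, Complex.norm_real, Real.norm_eq_abs, abs_of_pos hr]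
  have hcs : Summable fun n => ‖c n‖ := by
    refine hs.congr ?_
    intro n
    exact (hcn n).symm
  set F : ℝ → ℂ := fun θ => ∑' n, a n * ((r : ℂ) * Complex.exp (θ * Complex.I)) ^ n with hF
  have hterm : ∀ (θ : ℝ) (n : ℕ), a n * ((r : ℂ) * Complex.exp (θ * Complex.I)) ^ n =
      c n * Complex.exp ((n : ℤ) * θ * Complex.I) := by
    intro θ n
    rw [mul_pow, ← Complex.exp_nat_mul]
    simp only [hc]
    rw [mul_assoc]
    congr 2
    push_cast
    ring_nf
  have hFs : ∀ θ : ℝ, HasSum (fun n : ℕ => c n * Complex.exp ((n : ℤ) * θ * Complex.I)) (F θ) := by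
    intro θ
    have h1 : Summable fun n : ℕ => c n * Complex.exp ((n : ℤ) * θ * Complex.I) := by
      refine Summable.of_norm ?_
      refine hcs.congr ?_
      intro n
      exact (H781.bnd_10059 _ _ _).symm
    have h2 : F θ = ∑' n : ℕ, c n * Complex.exp ((n : ℤ) * θ * Complex.I) := by
      simp only [hF]
      exact tsum_congr (hterm θ)
    rw [h2]
    exact h1.hasSum
  obtain ⟨hFc, hp⟩ := H781.pars_10059 c hcs F hFs
  have hFM : ∀ θ, ‖F θ‖ ≤ M := by
    intro θ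
    apply hM
    rw [norm_mul, Complex.norm_exp_ofReal_mul_I, mul_one, Complex.norm_real, Real.norm_eq_abs,
      abs_of_pos hr]
  have hM0 : 0 ≤ M := (norm_nonneg _).trans (hFM 0)
  have h3 : (∫ θ in (-π)..π, ‖F θ‖ ^ 2) ≤ 2 * π * M ^ 2 := by
    have h4 : (∫ θ in (-π)..π, ‖F θ‖ ^ 2) ≤ ∫ θ in (-π)..π, M ^ 2 := by
      apply intervalIntegral.integral_mono_on (by linarith [Real.pi_pos])
      · exact (by fun_prop : Continuous fun θ : ℝ => ‖F θ‖ ^ 2).intervalIntegrable _ _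
      · exact intervalIntegrable_const
      · intro θ _
        exact pow_le_pow_left₀ (norm_nonneg _) (hFM θ) 2
    refine h4.trans (le_of_eq ?_)
    rw [intervalIntegral.integral_const, smul_eq_mul]
    ring
  have h5 : ∑ n ∈ s, 2 * π * ‖c n‖ ^ 2 ≤ ∫ θ in (-π)..π, ‖F θ‖ ^ 2 :=
    sum_le_hasSum s (fun n _ => by positivity) hp
  have h6 : 2 * π * ∑ n ∈ s, (‖a n‖ * r ^ n) ^ 2 ≤ 2 * π * M ^ 2 := by
    rw [Finset.mul_sum]
    calc ∑ n ∈ s, 2 * π * (‖a n‖ * r ^ n) ^ 2 = ∑ n ∈ s, 2 * π * ‖c n‖ ^ 2 := by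
          refine Finset.sum_congr rfl fun n _ => ?_
          rw [hcn]
      _ ≤ _ := h5.trans h3
  exact le_of_mul_le_mul_left h6 (by positivity)

end Pool.Agent.H792R3.BB
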