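import Pool.Agent.H792R3.BB.Defs
set_option autoImplicit false

/-! Quadratic form inequality; the Fourier part follows `Pool/Agent/H781R2/Pars.lean` (helper772,
helper781). -/

namespace Pool.Agent.H792R3.BB

namespace QIx

open MeasureTheory Real

theorem intexp (k : ℤ) :
    ∫ θ in (-π)..π, Complex.exp (k * θ * Complex.I) = if k = 0 then 2 * (π : ℂ) else 0 := by
  by_cases hk : k = 0
  · subst hk
    simp
    ring
  · rw [if_neg hk]
    have hc : (k : ℂ) * Complex.I ≠ 0 := by
      apply mul_ne_zero _ Complex.I_ne_zero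
      exact_mod_cast hk
    have h1 : ∀ θ : ℝ, Complex.exp (k * θ * Complex.I) = Complex.exp ((k * Complex.I) * θ) := by
      intro θ
      congr 1
      ring
    simp_rw [h1]
    rw [integral_exp_mul_complex hc]
    have h2 : Complex.exp (k * Complex.I * (π : ℝ)) =
        Complex.exp (k * Complex.I * ((-π : ℝ) : ℂ)) * Complex.exp (k * (2 * π * Complex.I)) := by
      rw [← Complex.exp_add]
      congr 1
      push_cast
      ring
    rw [h2, Complex.exp_int_mul_two_pi_mul_I, mul_one, sub_self, zero_div]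

theorem bnd (a : ℂ) (k : ℤ) (θ : ℝ) : ‖a * Complex.exp (k * θ * Complex.I)‖ = ‖a‖ := by
  have h1 : (k : ℂ) * θ * Complex.I = ((k * θ : ℝ) : ℂ) * Complex.I := by push_cast; ring
  rw [norm_mul, h1, Complex.norm_exp_ofReal_mul_I, mul_one]

/-- Fourier coefficients of an absolutely convergent power series on the circle. -/
theorem coef (a : ℕ → ℂ) (ha : Summable fun n => ‖a n‖) (F : ℝ → ℂ)
    (hF : ∀ θ : ℝ, HasSum (fun n : ℕ => a n * Complex.exp ((n : ℤ) * θ * Complex.I)) (F θ)) :
    Continuous F ∧ ∀ n : ℤ, ∫ θ in (-π)..π, F θ * Complex.exp ((-n : ℤ) * θ * Complex.I) =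
      2 * π * (if 0 ≤ n then a n.toNat else 0) := by
  have hFt : F = fun θ : ℝ => ∑' n, a n * Complex.exp ((n : ℤ) * θ * Complex.I) := by
    funext θ
    exact (hF θ).tsum_eq.symm
  have hFc : Continuous F := by
    rw [hFt]
    refine continuous_tsum (fun n => by fun_prop) ha ?_
    intro n θ
    exact (bnd _ _ _).le
  refine ⟨hFc, ?_⟩
  intro n
  have h2 : HasSum (fun m : ℕ => ∫ θ in (-π)..π, a m * Complex.exp (((m : ℤ) - n : ℤ) * θ * Complex.I))
      (∫ θ in (-π)..π, F θ * Complex.exp ((-n : ℤ) * θ * Complex.I)) := by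
    apply intervalIntegral.hasSum_integral_of_dominated_convergence (fun m _ => ‖a m‖)
    · intro m
      exact (by fun_prop : Continuous fun θ : ℝ =>
        a m * Complex.exp (((m : ℤ) - n : ℤ) * θ * Complex.I)).aestronglyMeasurable
    · intro m
      exact Filter.Eventually.of_forall fun θ _ => (bnd _ _ _).le
    · exact Filter.Eventually.of_forall fun θ _ => ha
    · exact intervalIntegrable_const
    · refine Filter.Eventually.of_forall fun θ _ => ?_
      have h3 := (hF θ).mul_right (Complex.exp ((-n : ℤ) * θ * Complex.I))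
      refine h3.congr_fun ?_
      intro m
      rw [mul_assoc (a m), ← Complex.exp_add]
      congr 2
      push_cast
      ring
  have h5 : ∀ m : ℕ, ∫ θ in (-π)..π, a m * Complex.exp (((m : ℤ) - n : ℤ) * θ * Complex.I) =
      if (m : ℤ) = n then 2 * π * a m else 0 := by
    intro m
    rw [intervalIntegral.integral_const_mul, intexp]
    by_cases h : (m : ℤ) = n
    · rw [if_pos h, if_pos (by omega)]
      ring
    · rw [if_neg h, if_neg (by omega), mul_zero]
  simp_rw [h5] at h2
  by_cases hn : 0 ≤ n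
  · rw [if_pos hn]
    obtain ⟨k, rfl⟩ := Int.eq_ofNat_of_zero_le hn
    have h6 : HasSum (fun m : ℕ => if (m : ℤ) = (k : ℤ) then 2 * (π : ℂ) * a m else 0)
        (2 * π * a k) := by
      have h7 := hasSum_ite_eq k (2 * (π : ℂ) * a k)
      refine h7.congr_fun ?_
      intro m
      by_cases h : m = k
      · subst h; simp
      · rw [if_neg h, if_neg (by exact_mod_cast h)]
    have := h2.unique h6
    rw [this]
    simp
  · rw [if_neg hn]
    have h6 : HasSum (fun m : ℕ => if (m : ℤ) = n then 2 * (π : ℂ) * a m else 0) 0 := by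
      have : (fun m : ℕ => if (m : ℤ) = n then 2 * (π : ℂ) * a m else 0) = fun _ => 0 := by
        funext m
        rw [if_neg (by omega)]
      rw [this]
      exact hasSum_zero
    rw [h2.unique h6]
    simp

/-- orthogonality -/
theorem orth (s : Finset ℕ) (g : ℕ → ℂ) :
    ∫ θ in (-π)..π, ‖∑ i ∈ s, g i * Complex.exp ((i : ℤ) * θ * Complex.I)‖ ^ 2 =
      2 * π * ∑ i ∈ s, ‖g i‖ ^ 2 := by
  have h1 : ((∫ θ in (-π)..π, ‖∑ i ∈ s, g i * Complex.exp ((i : ℤ) * θ * Complex.I)‖ ^ 2 : ℝ) : ℂ) =
      ((2 * π * ∑ i ∈ s, ‖g i‖ ^ 2 : ℝ) : ℂ) := by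
    rw [← intervalIntegral.integral_ofReal]
    have h2 : ∀ θ : ℝ, ((‖∑ i ∈ s, g i * Complex.exp ((i : ℤ) * θ * Complex.I)‖ ^ 2 : ℝ) : ℂ) =
        ∑ i ∈ s, ∑ j ∈ s, (g i * (starRingEnd ℂ) (g j)) *
          Complex.exp (((i : ℤ) - (j : ℤ) : ℤ) * θ * Complex.I) := by
      intro θ
      push_cast
      rw [← Complex.mul_conj', map_sum, Finset.sum_mul_sum]
      refine Finset.sum_congr rfl fun i _ => Finset.sum_congr rfl fun j _ => ?_
      rw [map_mul, ← Complex.exp_conj]
      have h3 : (starRingEnd ℂ) ((j : ℂ) * θ * Complex.I) = -((j : ℂ) * θ * Complex.I) := by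
        rw [map_mul, map_mul, Complex.conj_I, Complex.conj_ofReal]
        simp
      rw [h3]
      have h4 : Complex.exp (((i : ℂ) - (j : ℂ)) * θ * Complex.I) =
          Complex.exp ((i : ℂ) * θ * Complex.I) * Complex.exp (-((j : ℂ) * θ * Complex.I)) := by
        rw [← Complex.exp_add]
        congr 1
        ring
      rw [h4]
      ring
    simp_rw [h2]
    rw [intervalIntegral.integral_finsetSum]
    · have h5 : ∀ i ∈ s, ∫ θ in (-π)..π, ∑ j ∈ s, (g i * (starRingEnd ℂ) (g j)) *
          Complex.exp (((i : ℤ) - (j : ℤ) : ℤ) * θ * Complex.I) = 2 * π * (‖g i‖ ^ 2 : ℝ) := by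
        intro i hi
        rw [intervalIntegral.integral_finsetSum]
        · have h6 : ∀ j ∈ s, ∫ θ in (-π)..π, (g i * (starRingEnd ℂ) (g j)) *
              Complex.exp (((i : ℤ) - (j : ℤ) : ℤ) * θ * Complex.I) =
              (if j = i then 2 * (π : ℂ) * ((‖g i‖ ^ 2 : ℝ) : ℂ) else 0 : ℂ) := by
            intro j _
            rw [intervalIntegral.integral_const_mul, intexp]
            by_cases h : j = i
            · subst h
              rw [if_pos (by omega), if_pos rfl, Complex.mul_conj']
              push_cast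
              ring
            · rw [if_neg (by omega), if_neg h, mul_zero]
          rw [Finset.sum_congr rfl h6, Finset.sum_ite_eq' s i, if_pos hi]
        · intro j _
          exact (by fun_prop : Continuous fun θ : ℝ => (g i * (starRingEnd ℂ) (g j)) *
            Complex.exp (((i : ℤ) - (j : ℤ) : ℤ) * θ * Complex.I)).intervalIntegrable _ _
      rw [Finset.sum_congr rfl h5, ← Finset.mul_sum]
      push_cast
      ring
    · intro i _
      exact (by fun_prop : Continuous fun θ : ℝ => ∑ j ∈ s, (g i * (starRingEnd ℂ) (g j)) *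
            Complex.exp (((i : ℤ) - (j : ℤ) : ℤ) * θ * Complex.I)).intervalIntegrable _ _
  exact_mod_cast h1

end QIx

theorem t_QI : S_QI := by
  open MeasureTheory Real in
  intro a r M hB N s g
  obtain ⟨hr, hs, hM⟩ := hB
  set c : ℕ → ℂ := fun n => a n * (r : ℂ) ^ n with hc
  have hcs : Summable fun n => ‖c n‖ := by
    refine hs.congr ?_
    intro n
    simp only [hc, norm_mul, norm_pow, Complex.norm_real, Real.norm_eq_abs, abs_of_pos hr]
  set F : ℝ → ℂ := fun θ => ∑' n, a n * ((r : ℂ) * Complex.exp (θ * Complex.I)) ^ n with hF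
  have hterm : ∀ (θ : ℝ) (n : ℕ), a n * ((r : ℂ) * Complex.exp (θ * Complex.I)) ^ n =
      c n * Complex.exp ((n : ℤ) * θ * Complex.I) := by
    intro θ n
    rw [mul_pow, ← Complex.exp_nat_mul]
    simp only [hc]
    rw [mul_assoc]
    congr 2
    push_cast
    ring_nf
  have hFs : ∀ θ : ℝ, HasSum (fun n : ℕ => c n * Complex.exp ((n : ℤ) * θ * Complex.I)) (F θ) := by
    intro θ
    have h1 : Summable fun n : ℕ => c n * Complex.exp ((n : ℤ) * θ * Complex.I) := by
      refine Summable.of_norm ?_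
      refine hcs.congr ?_
      intro n
      exact (QIx.bnd _ _ _).symm
    have h2 : F θ = ∑' n : ℕ, c n * Complex.exp ((n : ℤ) * θ * Complex.I) := by
      simp only [hF]
      exact tsum_congr (hterm θ)
    rw [h2]
    exact h1.hasSum
  obtain ⟨hFc, hco⟩ := QIx.coef c hcs F hFs
  have hFM : ∀ θ, ‖F θ‖ ≤ M := by
    intro θ
    apply hM
    rw [norm_mul, Complex.norm_exp_ofReal_mul_I, mul_one, Complex.norm_real, Real.norm_eq_abs,
      abs_of_pos hr]
  set G : ℝ → ℂ := fun θ => ∑ i ∈ s, g i * Complex.exp ((i : ℤ) * θ * Complex.I) with hG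
  have hGc : Continuous G := by
    simp only [hG]
    fun_prop
  have hI : (∫ θ in (-π)..π, F θ * Complex.exp ((-(N : ℤ) : ℤ) * θ * Complex.I) * G θ ^ 2) =
      2 * π * ∑ i ∈ s, ∑ j ∈ s, g i * g j *
        (if i + j ≤ N then a (N - (i + j)) * (r : ℂ) ^ (N - (i + j)) else 0) := by
    have h1 : ∀ θ : ℝ, F θ * Complex.exp ((-(N : ℤ) : ℤ) * θ * Complex.I) * G θ ^ 2 =
        ∑ i ∈ s, ∑ j ∈ s, (g i * g j) *
          (F θ * Complex.exp ((-((N : ℤ) - i - j) : ℤ) * θ * Complex.I)) := by
      intro θ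
      rw [sq]
      simp only [hG]
      rw [Finset.sum_mul_sum, Finset.mul_sum]
      refine Finset.sum_congr rfl fun i _ => ?_
      rw [Finset.mul_sum]
      refine Finset.sum_congr rfl fun j _ => ?_
      have h2 : Complex.exp ((-((N : ℤ) - i - j) : ℤ) * θ * Complex.I) =
          Complex.exp ((-(N : ℤ) : ℤ) * θ * Complex.I) * (Complex.exp ((i : ℤ) * θ * Complex.I) *
            Complex.exp ((j : ℤ) * θ * Complex.I)) := by
        rw [← Complex.exp_add, ← Complex.exp_add]
        congr 1
        push_cast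
        ring
      rw [h2]
      ring
    simp_rw [h1]
    rw [intervalIntegral.integral_finsetSum, Finset.mul_sum]
    · refine Finset.sum_congr rfl fun i _ => ?_
      rw [intervalIntegral.integral_finsetSum, Finset.mul_sum]
      · refine Finset.sum_congr rfl fun j _ => ?_
        rw [intervalIntegral.integral_const_mul, hco]
        by_cases h : i + j ≤ N
        · rw [if_pos h, if_pos (by omega)]
          have h3 : ((N : ℤ) - i - j).toNat = N - (i + j) := by omega
          rw [h3]
          simp only [hc]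
          ring
        · rw [if_neg h, if_neg (by omega)]
          ring
      · intro j _
        exact (by fun_prop : Continuous fun θ : ℝ => (g i * g j) *
          (F θ * Complex.exp ((-((N : ℤ) - i - j) : ℤ) * θ * Complex.I))).intervalIntegrable _ _
    · intro i _
      exact (by fun_prop : Continuous fun θ : ℝ => ∑ j ∈ s, (g i * g j) *
          (F θ * Complex.exp ((-((N : ℤ) - i - j) : ℤ) * θ * Complex.I))).intervalIntegrable _ _
  have hn : ‖∫ θ in (-π)..π, F θ * Complex.exp ((-(N : ℤ) : ℤ) * θ * Complex.I) * G θ ^ 2‖ ≤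
      M * (2 * π * ∑ i ∈ s, ‖g i‖ ^ 2) := by
    rw [← QIx.orth s g, ← intervalIntegral.integral_const_mul]
    refine (intervalIntegral.norm_integral_le_integral_norm (by linarith [Real.pi_pos])).trans ?_
    apply intervalIntegral.integral_mono_on (by linarith [Real.pi_pos])
    · exact (by fun_prop : Continuous fun θ : ℝ =>
        ‖F θ * Complex.exp ((-(N : ℤ) : ℤ) * θ * Complex.I) * G θ ^ 2‖).intervalIntegrable _ _
    · exact (by fun_prop : Continuous fun θ : ℝ =>
        M * ‖∑ i ∈ s, g i * Complex.exp ((i : ℤ) * θ * Complex.I)‖ ^ 2).intervalIntegrable _ _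
    · intro θ _
      rw [norm_mul, QIx.bnd, norm_pow]
      exact mul_le_mul_of_nonneg_right (hFM θ) (by positivity)
  rw [hI, norm_mul] at hn
  have h2pi : ‖(2 * π : ℂ)‖ = 2 * π := by
    rw [norm_mul, Complex.norm_real, Real.norm_eq_abs, abs_of_pos Real.pi_pos]
    simp
  rw [h2pi] at hn
  have hpos : (0 : ℝ) < 2 * π := by positivity
  have : 2 * π * ‖∑ i ∈ s, ∑ j ∈ s, g i * g j *
        (if i + j ≤ N then a (N - (i + j)) * (r : ℂ) ^ (N - (i + j)) else 0)‖ ≤
      2 * π * (M * ∑ i ∈ s, ‖g i‖ ^ 2) := by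
    calc _ ≤ M * (2 * π * ∑ i ∈ s, ‖g i‖ ^ 2) := hn
      _ = _ := by ring
  exact le_of_mul_le_mul_left this hpos

end Pool.Agent.H792R3.BB
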