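import Pool.Agent.H792R3.BB.Defs2
set_option autoImplicit false

namespace Pool.Agent.H792R3.BB

theorem t_ROT : S_ROT := by
  intro a r M κ ω hB hκ hω
  obtain ⟨hr, hs, hM⟩ := hB
  refine ⟨hr, ?_, ?_⟩
  · refine hs.congr ?_
    intro n
    rw [norm_mul, norm_mul, norm_pow, hκ, hω, one_pow, one_mul, mul_one]
  · intro z hz
    have h1 : ∀ n : ℕ, κ * a n * ω ^ n * z ^ n = κ * (a n * (ω * z) ^ n) := by
      intro n
      rw [mul_pow]
      ring
    simp_rw [h1]
    rw [tsum_mul_left, norm_mul, hκ, one_mul]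
    apply hM
    rw [norm_mul, hω, one_mul, hz]

end Pool.Agent.H792R3.BB
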