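import Pool.Agent.H792R3.BB.Defs
set_option autoImplicit false

/-! The theta-like function is a transcendental entire function with the expected Taylor
coefficients. -/

namespace Pool.Agent.H792R3.BB.TEx

open Filter Topology Set

lemma norm_p0 : ‖p0‖ = 561 / 2000 := by
  have h1 : ‖((-429 + 460 * Complex.I) / 629 : ℂ)‖ = 1 := by
    rw [norm_div]
    have h2 : ‖(-429 + 460 * Complex.I : ℂ)‖ = 629 := by
      rw [Complex.norm_def, Complex.normSq_apply]
      have : ((-429 + 460 * Complex.I : ℂ)).re * ((-429 + 460 * Complex.I : ℂ)).re +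
        ((-429 + 460 * Complex.I : ℂ)).im * ((-429 + 460 * Complex.I : ℂ)).im = 629 ^ 2 := by
        simp
        norm_num
      rw [this]
      exact Real.sqrt_sq (by norm_num)
    rw [h2]
    have h3 : ‖(629 : ℂ)‖ = 629 := by
      have := Complex.norm_ofNat 629
      simpa using this
    rw [h3]; norm_num
  unfold p0
  rw [norm_mul, h1, mul_one, norm_div]
  have h4 : ‖(561 : ℂ)‖ = 561 := by simpa using Complex.norm_ofNat 561
  have h5 : ‖(2000 : ℂ)‖ = 2000 := by simpa using Complex.norm_ofNat 2000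
  rw [h4, h5]

lemma p0_ne : p0 ≠ 0 := by
  intro h
  have := norm_p0
  rw [h, norm_zero] at this
  norm_num at this

/-- the coefficients -/
noncomputable def cc (n : ℕ) : ℂ := p0 ^ (n * (n - 1) / 2)

lemma cc_ne (n : ℕ) : cc n ≠ 0 := pow_ne_zero _ p0_ne

lemma exp_succ (n : ℕ) : (n + 1) * (n + 1 - 1) / 2 = n * (n - 1) / 2 + n := by
  rcases n with _ | m
  · rfl
  · have h1 : (m + 1 + 1) * (m + 1 + 1 - 1) = (m + 1) * (m + 1 - 1) + 2 * (m + 1) := by
      simp only [Nat.add_sub_cancel]
      ring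
    rw [h1, Nat.add_mul_div_left _ _ (by norm_num : 0 < 2)]

lemma cc_succ (n : ℕ) : cc (n + 1) = cc n * p0 ^ n := by
  unfold cc
  rw [exp_succ, pow_add]

lemma radius_top : (FormalMultilinearSeries.ofScalars ℂ cc).radius = ⊤ := by
  apply FormalMultilinearSeries.ofScalars_radius_eq_top_of_tendsto
  · exact Eventually.of_forall cc_ne
  · have h1 : (fun n : ℕ ↦ ‖cc n.succ‖ / ‖cc n‖) = fun n : ℕ ↦ (561 / 2000 : ℝ) ^ n := by
      funext n
      rw [Nat.succ_eq_add_one, cc_succ, norm_mul, norm_pow, norm_p0]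
      rw [mul_div_assoc, mul_comm, div_mul_cancel₀]
      exact norm_ne_zero_iff.mpr (cc_ne n)
    rw [h1]
    exact tendsto_pow_atTop_nhds_zero_of_lt_one (by norm_num) (by norm_num)

lemma ff_eq : ff = (FormalMultilinearSeries.ofScalars ℂ cc).sum := by
  funext z
  have h := FormalMultilinearSeries.ofScalars_sum_eq (𝕜 := ℂ) (E := ℂ) cc z
  unfold FormalMultilinearSeries.ofScalarsSum at h
  rw [h]
  unfold ff cc
  simp [smul_eq_mul]

lemma hasFPS : HasFPowerSeriesOnBall ff (FormalMultilinearSeries.ofScalars ℂ cc) 0 ⊤ := by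
  rw [ff_eq]
  have h := FormalMultilinearSeries.hasFPowerSeriesOnBall (FormalMultilinearSeries.ofScalars ℂ cc)
    (by rw [radius_top]; exact ENNReal.zero_lt_top)
  rwa [radius_top] at h

lemma diff_ff : Differentiable ℂ ff := by
  have h := hasFPS.differentiableOn
  intro z
  have : z ∈ Metric.eball (0 : ℂ) ⊤ := by simp
  exact (h z this).differentiableAt (Metric.isOpen_eball.mem_nhds this)

lemma tc_ff (n : ℕ) : tc ff n = p0 ^ (n * (n - 1) / 2) := by
  have h1 := hasFPS.hasFPowerSeriesAt.analyticAt.hasFPowerSeriesAt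
  have h2 := h1.eq_formalMultilinearSeries hasFPS.hasFPowerSeriesAt
  have h3 := congrArg (fun p : FormalMultilinearSeries ℂ ℂ ℂ => p.coeff n) h2
  simpa [FormalMultilinearSeries.coeff_ofScalars, tc, cc] using h3

lemma iterDeriv_poly (p : Polynomial ℂ) (n : ℕ) :
    iteratedDeriv n (fun z : ℂ => p.eval z) = fun z => (Polynomial.derivative^[n] p).eval z := by
  induction n with
  | zero => simp
  | succ n ih =>
    rw [iteratedDeriv_succ, ih]
    funext z
    rw [Polynomial.deriv, Function.iterate_succ_apply']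

lemma not_poly : ¬ ∃ p : Polynomial ℂ, ∀ z, ff z = p.eval z := by
  rintro ⟨p, hp⟩
  have h1 : ff = fun z : ℂ => p.eval z := funext hp
  have h2 := tc_ff (p.natDegree + 1)
  unfold tc at h2
  rw [h1, iterDeriv_poly, Polynomial.iterate_derivative_eq_zero (Nat.lt_succ_self _)] at h2
  simp only [Polynomial.eval_zero, zero_div] at h2
  exact pow_ne_zero _ p0_ne h2.symm

end Pool.Agent.H792R3.BB.TEx

namespace Pool.Agent.H792R3.BB

theorem t_TE : S_TE := ⟨⟨TEx.diff_ff, TEx.not_poly⟩, TEx.tc_ff⟩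

end Pool.Agent.H792R3.BB
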