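import Pool.Agent.H792R3.BB.Defs
set_option autoImplicit false

namespace Pool.Agent.H792R3.BB

open Filter Topology Set

theorem t_TH (hPX : S_PX) : S_TH := by
  intro w hw
  have hw0 : w ≠ 0 := by
    intro h
    rw [h, norm_zero] at hw
    exact zero_ne_one hw
  have hwv : w * w⁻¹ = 1 := mul_inv_cancel₀ hw0
  have hconj : w⁻¹ = (starRingEnd ℂ) w := Complex.inv_eq_conj hw
  set x : ℝ := (1 + w.re) / 2 with hx
  have hre : |w.re| ≤ 1 := hw ▸ Complex.abs_re_le_norm w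
  have hre' := abs_le.mp hre
  have hx0 : 0 ≤ x := by rw [hx]; linarith [hre'.1]
  have hx1 : x ≤ 1 := by rw [hx]; linarith [hre'.2]
  have hs : w + w⁻¹ = 4 * (x : ℂ) - 2 := by
    rw [hconj, Complex.add_conj, hx]
    push_cast
    ring
  have hP := hPX x hx0 hx1
  set v : ℂ := w⁻¹ with hv
  clear_value v
  have hv' : v = 4 * (x : ℂ) - 2 - w := by rw [← hs]; ring
  have hww : w * (4 * (x : ℂ) - 2 - w) = 1 := by rw [← hv']; exact hwv
  have hfac : 1 + w + p0 * (w ^ 2 + v) + p0 ^ 3 * (w ^ 3 + v ^ 2) + p0 ^ 6 * (w ^ 4 + v ^ 3) =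
      (1 + w) * (1 + p0 * (4 * x - 3) + p0 ^ 3 * (16 * x ^ 2 - 20 * x + 5)
    + p0 ^ 6 * (64 * x ^ 3 - 112 * x ^ 2 + 56 * x - 7)) := by
    have h1 : w ^ 2 + v = (1 + w) * (4 * x - 3) := by
      have : (4 * (x : ℂ) - 3) = w + v - 1 := by rw [hv']; ring
      rw [this]; linear_combination (-1 : ℂ) * hwv
    have h2 : w ^ 3 + v ^ 2 = (1 + w) * (16 * x ^ 2 - 20 * x + 5) := by
      have : (16 * (x : ℂ) ^ 2 - 20 * x + 5) = (w + v) ^ 2 - (w + v) - 1 := by rw [hv']; ring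
      rw [this]
      have : (1 + w) * ((w + v) ^ 2 - (w + v) - 1) = w ^ 3 + v ^ 2 := by
        linear_combination (2 * w + v + 1) * hwv
      rw [this]
    have h3 : w ^ 4 + v ^ 3 = (1 + w) * (64 * x ^ 3 - 112 * x ^ 2 + 56 * x - 7) := by
      have : (64 * (x : ℂ) ^ 3 - 112 * x ^ 2 + 56 * x - 7) =
          (w + v) ^ 3 - (w + v) ^ 2 - 2 * (w + v) + 1 := by rw [hv']; ring
      rw [this]
      have : (1 + w) * ((w + v) ^ 3 - (w + v) ^ 2 - 2 * (w + v) + 1) = w ^ 4 + v ^ 3 := by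
        linear_combination (3 * w ^ 2 + 3 * w * v + v ^ 2 + w + 2 * v - 1) * hwv
      rw [this]
    rw [h1, h2, h3]; ring
  rw [hfac, norm_mul]
  set P : ℂ := (1 + p0 * (4 * x - 3) + p0 ^ 3 * (16 * x ^ 2 - 20 * x + 5)
    + p0 ^ 6 * (64 * x ^ 3 - 112 * x ^ 2 + 56 * x - 7)) with hPdef
  have h1w : ‖1 + w‖ ^ 2 = 4 * x := by
    have e1 : ‖1 + w‖ ^ 2 = Complex.normSq (1 + w) := (Complex.normSq_eq_norm_sq _).symm
    have e2 : Complex.normSq w = 1 := by rw [Complex.normSq_eq_norm_sq, hw]; norm_num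
    rw [e1]
    rw [Complex.normSq_apply] at e2 ⊢
    simp only [Complex.add_re, Complex.one_re, Complex.add_im, Complex.one_im]
    rw [hx]
    nlinarith [e2]
  refine abs_le_of_sq_le_sq' ?_ (by norm_num) |>.2
  rw [mul_pow, h1w]
  exact hP

end Pool.Agent.H792R3.BB
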