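import Pool.Agent.H792R3.BB.Defs2
import Pool.Agent.H792R3.BB.QI
set_option autoImplicit false

/-! Two-sided estimate at a vertex with equal gaps (task TS). -/

namespace Pool.Agent.H792R3.BB

namespace TSx

open MeasureTheory Real

theorem cos5 (x : ℝ) : Real.cos (5 * x) =
    16 * Real.cos x ^ 5 - 20 * Real.cos x ^ 3 + 5 * Real.cos x := by
  have h : 5 * x = 2 * x + 3 * x := by ring
  rw [h, Real.cos_add, Real.cos_two_mul, Real.sin_two_mul, Real.cos_three_mul, Real.sin_three_mul]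
  have hs : Real.sin x ^ 2 = 1 - Real.cos x ^ 2 := by
    have := Real.sin_sq_add_cos_sq x
    linarith
  have h2 : 2 * Real.sin x * Real.cos x * (3 * Real.sin x - 4 * Real.sin x ^ 3) =
      2 * Real.cos x * (3 * Real.sin x ^ 2 - 4 * (Real.sin x ^ 2) ^ 2) := by ring
  rw [h2, hs]
  ring

/-- the modulus of the kernel -/
noncomputable def hk (x : ℝ) : ℝ := |2 * Real.cos x - 2 / 5 * Real.cos (5 * x)|

theorem hk_cont : Continuous hk := by
  unfold hk
  fun_prop

theorem hk_per : Function.Periodic hk π := by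
  intro x
  unfold hk
  have h : 5 * (x + π) = (5 * x + π) + 2 * (2 * π) := by ring
  have h5 : Real.cos (5 * (x + π)) = - Real.cos (5 * x) := by
    rw [h]
    have := Real.cos_add_nat_mul_two_pi (5 * x + π) 2
    push_cast at this
    rw [this, Real.cos_add_pi]
  rw [h5, Real.cos_add_pi]
  rw [show 2 * -Real.cos x - 2 / 5 * -Real.cos (5 * x) =
    -(2 * Real.cos x - 2 / 5 * Real.cos (5 * x)) by ring, abs_neg]

theorem hk_int : ∫ x in (-(π / 2))..(π / 2), hk x = 96 / 25 := by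
  have h1 : ∫ x in (-(π / 2))..(π / 2), hk x =
      ∫ x in (-(π / 2))..(π / 2), (8 * Real.cos x ^ 3 - 32 / 5 * Real.cos x ^ 5) := by
    apply intervalIntegral.integral_congr
    intro x hx
    rw [Set.uIcc_of_le (by linarith [Real.pi_pos])] at hx
    have hc0 : 0 ≤ Real.cos x := Real.cos_nonneg_of_mem_Icc hx
    have hc1 : Real.cos x ≤ 1 := Real.cos_le_one x
    show |2 * Real.cos x - 2 / 5 * Real.cos (5 * x)| = 8 * Real.cos x ^ 3 - 32 / 5 * Real.cos x ^ 5
    rw [cos5]
    have h2 : 2 * Real.cos x - 2 / 5 * (16 * Real.cos x ^ 5 - 20 * Real.cos x ^ 3 + 5 * Real.cos x)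
        = 8 * Real.cos x ^ 3 - 32 / 5 * Real.cos x ^ 5 := by ring
    rw [h2, abs_of_nonneg]
    have h3 : 0 ≤ Real.cos x ^ 3 := by positivity
    have h4 : Real.cos x ^ 2 ≤ 1 := by nlinarith
    nlinarith [mul_nonneg h3 (sub_nonneg.2 h4)]
  rw [h1]
  have h2 : ∀ x ∈ Set.uIcc (-(π / 2)) (π / 2), HasDerivAt (fun x : ℝ =>
      8 * (Real.sin x - Real.sin x ^ 3 / 3) -
        32 / 5 * (Real.sin x - 2 * Real.sin x ^ 3 / 3 + Real.sin x ^ 5 / 5))
      (8 * Real.cos x ^ 3 - 32 / 5 * Real.cos x ^ 5) x := by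
    intro x _
    have hs := Real.hasDerivAt_sin x
    have h3 := hs.pow 3
    have h5 := hs.pow 5
    have hA := ((hs.sub (h3.div_const 3)).const_mul 8).sub
      (((hs.sub ((h3.const_mul 2).div_const 3)).add (h5.div_const 5)).const_mul (32 / 5))
    refine hA.congr_deriv ?_
    have hc : Real.cos x ^ 3 = Real.cos x * (1 - Real.sin x ^ 2) := by
      have := Real.sin_sq_add_cos_sq x
      have h : Real.cos x ^ 2 = 1 - Real.sin x ^ 2 := by linarith
      rw [pow_succ, h]
      ring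
    have hc5 : Real.cos x ^ 5 = Real.cos x * (1 - Real.sin x ^ 2) ^ 2 := by
      have := Real.sin_sq_add_cos_sq x
      have h : Real.cos x ^ 2 = 1 - Real.sin x ^ 2 := by linarith
      rw [← h]
      ring
    rw [hc, hc5]
    norm_num
    ring
  rw [intervalIntegral.integral_eq_sub_of_hasDerivAt h2
    (Continuous.intervalIntegrable (by fun_prop) _ _)]
  rw [Real.sin_neg, Real.sin_pi_div_two]
  norm_num

theorem hk_int2 (d : ℕ) (hd : 0 < d) :
    ∫ θ in (-π)..π, hk (θ * ((d : ℝ) / 2)) = 192 / 25 := by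
  have hd0 : (0 : ℝ) < d := by exact_mod_cast hd
  have hne : ((d : ℝ) / 2) ≠ 0 := by positivity
  rw [intervalIntegral.integral_comp_mul_right (fun x => hk x) hne]
  have h1 : π * ((d : ℝ) / 2) = -π * ((d : ℝ) / 2) + (d : ℤ) • π := by
    rw [zsmul_eq_mul]
    push_cast
    ring
  rw [h1, hk_per.intervalIntegral_add_zsmul_eq (d : ℤ) (-π * ((d : ℝ) / 2))
    (fun a b => hk_cont.intervalIntegrable a b)]
  have h2 : ∫ x in (-π * ((d : ℝ) / 2))..(-π * ((d : ℝ) / 2) + π), hk x = 96 / 25 := by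
    rw [hk_per.intervalIntegral_add_eq (-π * ((d : ℝ) / 2)) (-(π / 2))]
    have : -(π / 2) + π = π / 2 := by ring
    rw [this, hk_int]
  rw [h2, zsmul_eq_mul, smul_eq_mul]
  push_cast
  field_simp
  norm_num

theorem main (a : ℕ → ℂ) (r M : ℝ) (hB : Bd a r M) (N d : ℕ) (μ b c : ℝ)
    (hd : 0 < d) (hdN : d ≤ N) (hμ : 0 < μ) (hb : 0 ≤ b) (hc : 0 ≤ c)
    (h0 : a N * (r : ℂ) ^ N = μ) (h1 : a (N - d) * (r : ℂ) ^ (N - d) = μ)
    (h2 : ‖a (N + 2 * d)‖ * r ^ (N + 2 * d) ≤ b * μ)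
    (h3 : ∀ k, k + 3 * d = N → ‖a k‖ * r ^ k ≤ c * μ) :
    25 * Real.pi / 96 * (2 - (b + c) / 5) * μ ≤ M := by
  obtain ⟨hr, hs, hM⟩ := hB
  set C : ℕ → ℂ := fun n => a n * (r : ℂ) ^ n with hC
  have hCn : ∀ n, ‖C n‖ = ‖a n‖ * r ^ n := by
    intro n
    simp only [hC, norm_mul, norm_pow, Complex.norm_real, Real.norm_eq_abs, abs_of_pos hr]
  have hcs : Summable fun n => ‖C n‖ := by
    refine hs.congr ?_
    intro n
    exact (hCn n).symm
  set F : ℝ → ℂ := fun θ => ∑' n, a n * ((r : ℂ) * Complex.exp (θ * Complex.I)) ^ n with hF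
  have hterm : ∀ (θ : ℝ) (n : ℕ), a n * ((r : ℂ) * Complex.exp (θ * Complex.I)) ^ n =
      C n * Complex.exp ((n : ℤ) * θ * Complex.I) := by
    intro θ n
    rw [mul_pow, ← Complex.exp_nat_mul]
    simp only [hC]
    rw [mul_assoc]
    congr 2
    push_cast
    ring_nf
  have hFs : ∀ θ : ℝ, HasSum (fun n : ℕ => C n * Complex.exp ((n : ℤ) * θ * Complex.I)) (F θ) := by
    intro θ
    have h1 : Summable fun n : ℕ => C n * Complex.exp ((n : ℤ) * θ * Complex.I) := by
      refine Summable.of_norm ?_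
      refine hcs.congr ?_
      intro n
      exact (QIx.bnd _ _ _).symm
    have h2 : F θ = ∑' n : ℕ, C n * Complex.exp ((n : ℤ) * θ * Complex.I) := by
      simp only [hF]
      exact tsum_congr (hterm θ)
    rw [h2]
    exact h1.hasSum
  obtain ⟨hFc, hco⟩ := QIx.coef C hcs F hFs
  have hFM : ∀ θ, ‖F θ‖ ≤ M := by
    intro θ
    apply hM
    rw [norm_mul, Complex.norm_exp_ofReal_mul_I, mul_one, Complex.norm_real, Real.norm_eq_abs,
      abs_of_pos hr]
  set E : ℤ → ℝ → ℂ := fun k θ => Complex.exp ((-k : ℤ) * θ * Complex.I) with hE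
  have hEc : ∀ k, Continuous (E k) := by
    intro k
    simp only [hE]
    fun_prop
  set T : ℝ → ℂ := fun θ => E N θ + E ((N : ℤ) - d) θ
    - (1 / 5 : ℂ) * (E ((N : ℤ) + 2 * d) θ + E ((N : ℤ) - 3 * d) θ) with hT
  have hTn : ∀ θ, ‖T θ‖ = hk (θ * ((d : ℝ) / 2)) := by
    intro θ
    have e1 : T θ = Complex.exp ((((-(N : ℝ) + d / 2) * θ : ℝ) : ℂ) * Complex.I) *
        ((2 * Real.cos (θ * ((d : ℝ) / 2)) - 2 / 5 * Real.cos (5 * (θ * ((d : ℝ) / 2))) : ℝ) : ℂ) := by
      push_cast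
      rw [Complex.cos, Complex.cos]
      simp only [hT, hE]
      have k1 : Complex.exp ((-(N : ℂ) + d / 2) * θ * Complex.I) *
          Complex.exp (-(θ * (d / 2)) * Complex.I) =
          Complex.exp ((-(N : ℤ) : ℤ) * θ * Complex.I) := by
        rw [← Complex.exp_add]
        congr 1
        push_cast
        ring
      have k2 : Complex.exp ((-(N : ℂ) + d / 2) * θ * Complex.I) *
          Complex.exp ((θ * (d / 2)) * Complex.I) =
          Complex.exp ((-((N : ℤ) - d) : ℤ) * θ * Complex.I) := by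
        rw [← Complex.exp_add]
        congr 1
        push_cast
        ring
      have k3 : Complex.exp ((-(N : ℂ) + d / 2) * θ * Complex.I) *
          Complex.exp (-(5 * (θ * (d / 2))) * Complex.I) =
          Complex.exp ((-((N : ℤ) + 2 * d) : ℤ) * θ * Complex.I) := by
        rw [← Complex.exp_add]
        congr 1
        push_cast
        ring
      have k4 : Complex.exp ((-(N : ℂ) + d / 2) * θ * Complex.I) *
          Complex.exp ((5 * (θ * (d / 2))) * Complex.I) =
          Complex.exp ((-((N : ℤ) - 3 * d) : ℤ) * θ * Complex.I) := by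
        rw [← Complex.exp_add]
        congr 1
        push_cast
        ring
      rw [← k1, ← k2, ← k3, ← k4]
      ring
    rw [e1, norm_mul, Complex.norm_exp_ofReal_mul_I, one_mul, Complex.norm_real, Real.norm_eq_abs]
    rfl
  have hTc : Continuous T := by
    simp only [hT]
    have := hEc
    fun_prop
  -- the integral
  have hI : (∫ θ in (-π)..π, F θ * T θ) = 2 * π * (C N + C (N - d) - (1 / 5 : ℂ) *
      (C (N + 2 * d) + (if 0 ≤ (N : ℤ) - 3 * d then C ((N : ℤ) - 3 * d).toNat else 0))) := by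
    have hi : ∀ k : ℤ, IntervalIntegrable (fun θ => F θ * E k θ) volume (-π) π :=
      fun k => (hFc.mul (hEc k)).intervalIntegrable _ _
    have e1 : ∀ θ, F θ * T θ = (F θ * E N θ + F θ * E ((N : ℤ) - d) θ)
      - (1 / 5 : ℂ) * (F θ * E ((N : ℤ) + 2 * d) θ + F θ * E ((N : ℤ) - 3 * d) θ) := by
      intro θ
      simp only [hT]
      ring
    simp_rw [e1]
    rw [intervalIntegral.integral_sub ((hi _).add (hi _)) (((hi _).add (hi _)).const_mul _),
      intervalIntegral.integral_add (hi _) (hi _), intervalIntegral.integral_const_mul,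
      intervalIntegral.integral_add (hi _) (hi _)]
    simp only [hE]
    rw [hco, hco, hco, hco, if_pos (by omega), if_pos (by omega), if_pos (by omega)]
    have t1 : (N : ℤ).toNat = N := by omega
    have t2 : ((N : ℤ) - d).toNat = N - d := by omega
    have t3 : ((N : ℤ) + 2 * d).toNat = N + 2 * d := by omega
    rw [t1, t2, t3]
    ring
  have hn : ‖∫ θ in (-π)..π, F θ * T θ‖ ≤ M * (192 / 25) := by
    rw [← hk_int2 d hd, ← intervalIntegral.integral_const_mul]
    refine (intervalIntegral.norm_integral_le_integral_norm (by linarith [Real.pi_pos])).trans ?_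
    apply intervalIntegral.integral_mono_on (by linarith [Real.pi_pos])
    · exact (hFc.mul hTc).norm.intervalIntegrable _ _
    · exact (continuous_const.mul (hk_cont.comp (by fun_prop))).intervalIntegrable _ _
    · intro θ _
      rw [norm_mul, hTn]
      exact mul_le_mul_of_nonneg_right (hFM θ) (abs_nonneg _)
  rw [hI, norm_mul] at hn
  have h2pi : ‖(2 * π : ℂ)‖ = 2 * π := by
    rw [norm_mul, Complex.norm_real, Real.norm_eq_abs, abs_of_pos Real.pi_pos]
    simp
  rw [h2pi] at hn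
  set Z : ℂ := C (N + 2 * d) + (if 0 ≤ (N : ℤ) - 3 * d then C ((N : ℤ) - 3 * d).toNat else 0) with hZ
  have hZn : ‖Z‖ ≤ (b + c) * μ := by
    have z1 : ‖C (N + 2 * d)‖ ≤ b * μ := by rw [hCn]; exact h2
    have z2 : ‖(if 0 ≤ (N : ℤ) - 3 * d then C ((N : ℤ) - 3 * d).toNat else 0)‖ ≤ c * μ := by
      by_cases hh : 0 ≤ (N : ℤ) - 3 * d
      · rw [if_pos hh, hCn]
        exact h3 _ (by omega)
      · rw [if_neg hh, norm_zero]
        positivity
    calc ‖Z‖ ≤ _ := norm_add_le _ _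
      _ ≤ b * μ + c * μ := add_le_add z1 z2
      _ = _ := by ring
  have hlow : (2 - (b + c) / 5) * μ ≤ ‖C N + C (N - d) - (1 / 5 : ℂ) * Z‖ := by
    have e1 : C N + C (N - d) = ((2 * μ : ℝ) : ℂ) := by
      simp only [hC]
      rw [h0, h1]
      push_cast
      ring
    rw [e1]
    have e2 := norm_sub_norm_le (((2 * μ : ℝ) : ℂ)) ((1 / 5 : ℂ) * Z)
    have e3 : ‖((2 * μ : ℝ) : ℂ)‖ = 2 * μ := by
      rw [Complex.norm_real, Real.norm_eq_abs, abs_of_pos (by positivity)]
    have e4 : ‖(1 / 5 : ℂ) * Z‖ ≤ (b + c) * μ / 5 := by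
      rw [norm_mul]
      have : ‖(1 / 5 : ℂ)‖ = 1 / 5 := by simp
      rw [this]
      linarith
    rw [e3] at e2
    linarith
  have hpi := Real.pi_pos
  have hfin : 2 * π * ((2 - (b + c) / 5) * μ) ≤ M * (192 / 25) :=
    (mul_le_mul_of_nonneg_left hlow (by positivity)).trans hn
  have : 25 * π / 96 * (2 - (b + c) / 5) * μ = 25 / 192 * (2 * π * ((2 - (b + c) / 5) * μ)) := by
    ring
  rw [this]
  linarith

end TSx

theorem t_TS (hROT : S_ROT) : S_TS := by
  intro a r M hB N d μ b c hd hdN hμ hb hc h0 h1 h2 h3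
  have hr : 0 < r := hB.1
  -- the rotation
  have hrN : (r : ℂ) ≠ 0 := by exact_mod_cast hr.ne'
  set A : ℂ := a N * (r : ℂ) ^ N with hA
  set A' : ℂ := a (N - d) * (r : ℂ) ^ (N - d) with hA'
  have hμ' : (μ : ℂ) ≠ 0 := by exact_mod_cast hμ.ne'
  have hAn : ‖A‖ = μ := by
    rw [hA, norm_mul, norm_pow, Complex.norm_real, Real.norm_eq_abs, abs_of_pos hr, h0]
  have hAn' : ‖A'‖ = μ := by
    rw [hA', norm_mul, norm_pow, Complex.norm_real, Real.norm_eq_abs, abs_of_pos hr, h1]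
  have hA0 : A ≠ 0 := by
    intro h; rw [h, norm_zero] at hAn; exact hμ.ne hAn
  have hA0' : A' ≠ 0 := by
    intro h; rw [h, norm_zero] at hAn'; exact hμ.ne hAn'
  obtain ⟨ω, hω⟩ := IsAlgClosed.exists_pow_nat_eq (A' / A) hd
  have hωn : ‖ω‖ = 1 := by
    have h : ‖ω‖ ^ d = 1 := by
      rw [← norm_pow, hω, norm_div, hAn, hAn', div_self hμ.ne']
    exact (pow_eq_one_iff_of_nonneg (norm_nonneg _) hd.ne').1 h
  have hω0 : ω ≠ 0 := by
    intro h; rw [h, norm_zero] at hωn; exact zero_ne_one hωn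
  set κ : ℂ := μ / (A * ω ^ N) with hκ
  have hκn : ‖κ‖ = 1 := by
    rw [hκ, norm_div, norm_mul, norm_pow, hωn, one_pow, mul_one, hAn, Complex.norm_real,
      Real.norm_eq_abs, abs_of_pos hμ, div_self hμ.ne']
  have hB' := hROT a r M κ ω hB hκn hωn
  have hnn : ∀ n, ‖κ * a n * ω ^ n‖ = ‖a n‖ := by
    intro n
    rw [norm_mul, norm_mul, norm_pow, hωn, hκn, one_pow, one_mul, mul_one]
  refine TSx.main (fun n => κ * a n * ω ^ n) r M hB' N d μ b c hd hdN hμ hb hc ?_ ?_ ?_ ?_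
  · show κ * a N * ω ^ N * (r : ℂ) ^ N = μ
    have : κ * a N * ω ^ N * (r : ℂ) ^ N = κ * (A * ω ^ N) := by rw [hA]; ring
    rw [this, hκ, div_mul_cancel₀]
    exact mul_ne_zero hA0 (pow_ne_zero _ hω0)
  · show κ * a (N - d) * ω ^ (N - d) * (r : ℂ) ^ (N - d) = μ
    have e1 : κ * a (N - d) * ω ^ (N - d) * (r : ℂ) ^ (N - d) = κ * (A' * ω ^ (N - d)) := by
      rw [hA']; ring
    have e2 : A' = A * ω ^ d := by
      rw [hω]; field_simp
    have e3 : A' * ω ^ (N - d) = A * ω ^ N := by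
      rw [e2, mul_assoc, ← pow_add]
      congr 2
      omega
    rw [e1, e3, hκ, div_mul_cancel₀]
    exact mul_ne_zero hA0 (pow_ne_zero _ hω0)
  · rw [hnn]; exact h2
  · intro k hk
    rw [hnn]; exact h3 k hk

end Pool.Agent.H792R3.BB
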