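import Pool.Agent.H792R3.BB.Defs
set_option autoImplicit false

/-! # UF: upper bound for functions -/

namespace Pool.Agent.H792R3.BB

open Filter Topology Set

namespace UFx

theorem hasSum_tc (f : ℂ → ℂ) (hf : Differentiable ℂ f) (z : ℂ) :
    HasSum (fun n : ℕ => tc f n * z ^ n) (f z) := by
  have h := Complex.hasSum_taylorSeries_of_entire hf 0 z
  have h2 : (fun n : ℕ => tc f n * z ^ n) =
      fun n : ℕ => ((n.factorial : ℂ))⁻¹ • (z - 0) ^ n • iteratedDeriv n f 0 := by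
    funext n
    simp only [tc, smul_eq_mul, sub_zero]
    ring
  rw [h2]
  exact h

theorem summable_tc (f : ℂ → ℂ) (hf : Differentiable ℂ f) (r : ℝ) (hr : 0 < r) :
    Summable (fun n : ℕ => ‖tc f n‖ * r ^ n) := by
  have h := (hasSum_tc f hf (r : ℂ)).summable.norm
  refine h.congr fun n => ?_
  rw [norm_mul, norm_pow, Complex.norm_real, Real.norm_eq_abs, abs_of_pos hr]

theorem infinite_tc (f : ℂ → ℂ) (hf : TransEntire f) : ∀ N : ℕ, ∃ n, N ≤ n ∧ tc f n ≠ 0 := by
  intro N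
  by_contra hcon
  push Not at hcon
  apply hf.2
  refine ⟨∑ n ∈ Finset.range N, Polynomial.C (tc f n) * Polynomial.X ^ n, fun z => ?_⟩
  have h := hasSum_tc f hf.1 z
  have h2 : HasSum (fun n : ℕ => tc f n * z ^ n) (∑ n ∈ Finset.range N, tc f n * z ^ n) := by
    apply hasSum_sum_of_ne_finset_zero
    intro n hn
    rw [hcon n (by simpa using hn), zero_mul]
  rw [h.unique h2, Polynomial.eval_finset_sum]
  refine Finset.sum_congr rfl fun n _ => ?_
  simp

theorem bdd_maxMod (f : ℂ → ℂ) (hf : Differentiable ℂ f) (r : ℝ) :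
    BddAbove ((fun z => ‖f z‖) '' Metric.sphere (0 : ℂ) r) :=
  ((isCompact_sphere (0 : ℂ) r).image (hf.continuous.norm)).bddAbove

theorem bd_tc (f : ℂ → ℂ) (hf : Differentiable ℂ f) (r : ℝ) (hr : 0 < r) :
    Bd (tc f) r (maxMod f r) := by
  refine ⟨hr, summable_tc f hf r hr, fun z hz => ?_⟩
  rw [(hasSum_tc f hf z).tsum_eq]
  exact le_csSup (bdd_maxMod f hf r) ⟨z, by simpa using hz, rfl⟩

end UFx

open UFx in
theorem t_UF (hUP : S_UP) : S_UF := by
  intro f hf
  rw [Filter.frequently_atTop]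
  intro R₀
  obtain ⟨r, hR, hr, μ, hμ, hle, hM⟩ := hUP (tc f) (fun r hr => summable_tc f hf.1 r hr)
    (infinite_tc f hf) R₀
  refine ⟨r, hR, ?_⟩
  have h1 : K * μ ≤ maxMod f r := hM _ (bd_tc f hf.1 r hr)
  have h2 : mu f r ≤ μ := ciSup_le hle
  unfold K at h1
  linarith

end Pool.Agent.H792R3.BB
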