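import Pool.Agent.H792R3.BB.Defs2
import Pool.Agent.H792R3.BB.UF
set_option autoImplicit false

namespace Pool.Agent.H792R3.BB

open Filter Topology Set

open UFx in
theorem t_UF2 (hUP : S_UP2) : S_UF2 := by
  intro f hf
  rw [Filter.frequently_atTop]
  intro R₀
  obtain ⟨r, hR, hr, μ, hμ, hle, hM⟩ := hUP (tc f) (fun r hr => summable_tc f hf.1 r hr)
    (infinite_tc f hf) R₀
  refine ⟨r, hR, ?_⟩
  have h1 : K2 * μ ≤ maxMod f r := hM _ (bd_tc f hf.1 r hr)
  have h2 : mu f r ≤ μ := ciSup_le hle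
  unfold K2 at h1
  linarith

end Pool.Agent.H792R3.BB
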