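import Pool.Agent.H792R3.BB.Defs
set_option autoImplicit false

namespace Pool.Agent.H792R3.BB

open Filter Topology Set

namespace UPx

lemma scale {c c' ρ r : ℝ} {k p : ℕ} (hρ : 0 < ρ) (hr : 0 < r) (hk : k ≤ p)
    (h : c * ρ ^ k ≤ c' * ρ ^ p) : c * r ^ k ≤ (ρ / r) ^ (p - k) * (c' * r ^ p) := by
  have hA : 0 < ρ / r := by positivity
  have e : ρ = (ρ / r) * r := by field_simp
  have hAk : 0 < (ρ / r) ^ k := by positivity
  have h1 : (ρ / r) ^ k * (c * r ^ k) ≤ (ρ / r) ^ k * ((ρ / r) ^ (p - k) * (c' * r ^ p)) := by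
    have e1 : (ρ / r) ^ k * (c * r ^ k) = c * ρ ^ k := by
      conv_rhs => rw [e, mul_pow]
      ring
    have e2 : (ρ / r) ^ k * ((ρ / r) ^ (p - k) * (c' * r ^ p)) = c' * ρ ^ p := by
      rw [← mul_assoc, ← pow_add, Nat.add_sub_cancel' hk]
      conv_rhs => rw [e, mul_pow]
      ring
    rw [e1, e2]; exact h
  exact le_of_mul_le_mul_left h1 hAk

lemma scale_eq {c c' ρ r : ℝ} {k p : ℕ} (hρ : 0 < ρ) (hr : 0 < r) (hk : k ≤ p)
    (h : c * ρ ^ k = c' * ρ ^ p) : c * r ^ k = (ρ / r) ^ (p - k) * (c' * r ^ p) := by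
  have hA : 0 < ρ / r := by positivity
  have e : ρ = (ρ / r) * r := by field_simp
  have hAk : (ρ / r) ^ k ≠ 0 := by positivity
  have h1 : (ρ / r) ^ k * (c * r ^ k) = (ρ / r) ^ k * ((ρ / r) ^ (p - k) * (c' * r ^ p)) := by
    have e1 : (ρ / r) ^ k * (c * r ^ k) = c * ρ ^ k := by
      conv_rhs => rw [e, mul_pow]
      ring
    have e2 : (ρ / r) ^ k * ((ρ / r) ^ (p - k) * (c' * r ^ p)) = c' * ρ ^ p := by
      rw [← mul_assoc, ← pow_add, Nat.add_sub_cancel' hk]
      conv_rhs => rw [e, mul_pow]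
      ring
    rw [e1, e2]; exact h
  exact mul_left_cancel₀ hAk h1

end UPx

open UPx in
theorem t_UP (hCH : S_CH) (hGAP : S_GAP) (hOSC : S_OSC) (hLA : S_LA) (hLB : S_LB) : S_UP := by
  intro a hsum hinf R₀
  have htend : ∀ r : ℝ, 0 < r → Tendsto (fun n => ‖a n‖ * r ^ n) atTop (𝓝 0) :=
    fun r hr => (hsum r hr).tendsto_atTop_zero
  obtain ⟨n, R, hn, hR, hRpos, hRt, hne, hmax, heq⟩ := hCH a htend hinf
  obtain ⟨m₁, hm₁⟩ := (eventually_atTop.1 (hRt.eventually_ge_atTop R₀))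
  have hpos : ∀ m, 0 < ‖a (n m)‖ := fun m => norm_pos_iff.2 (hne m)
  have hdiv : ∀ m, R m / R (m + 1) ≤ 1 := fun m => by
    rw [div_le_one (hRpos _)]; exact hR (Nat.le_succ m)
  have hdiv0 : ∀ m, 0 < R m / R (m + 1) := fun m => div_pos (hRpos _) (hRpos _)
  rcases hGAP n hn with h | ⟨d, m₀, hd, h⟩
  · obtain ⟨m, hm, hlt⟩ := h m₁
    have h01 : n m < n (m + 1) := hn (Nat.lt_succ_self m)
    have h12 : n (m + 1) < n (m + 2) := hn (Nat.lt_succ_self (m + 1))
    have hμe : ‖a (n (m + 2))‖ * R (m + 1) ^ (n (m + 2)) =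
        ‖a (n (m + 1))‖ * R (m + 1) ^ (n (m + 1)) := heq (m + 1)
    refine ⟨R (m + 1), hm₁ _ (by omega), hRpos _, ‖a (n (m + 2))‖ * R (m + 1) ^ (n (m + 2)),
      mul_pos (hpos _) (pow_pos (hRpos _) _), ?_, ?_⟩
    · intro k
      rw [hμe]; exact hmax (m + 1) k
    · intro M hB
      have e1 : n (m + 2) - (n (m + 2) - n (m + 1)) = n (m + 1) := by omega
      have e2 : n (m + 1) - (n (m + 1) - n m) = n m := by omega
      refine hLA a (R (m + 1)) M hB (n (m + 2)) (n (m + 2) - n (m + 1)) (n (m + 1) - n m)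
        (‖a (n (m + 2))‖ * R (m + 1) ^ (n (m + 2))) (R m / R (m + 1))
        (by omega) hlt (by omega) (mul_pos (hpos _) (pow_pos (hRpos _) _)) (hdiv0 m).le (hdiv m)
        rfl ?_ ?_ ?_
      · rw [e1, hμe]
      · rw [e1, e2, hμe]
        exact scale_eq (hRpos m) (hRpos (m + 1)) h01.le (heq m).symm
      · intro k hk
        rw [e1] at hk ⊢
        rw [hμe]
        refine scale (hRpos m) (hRpos (m + 1)) hk ?_
        rw [heq m]; exact hmax m k
  · obtain ⟨m, hm, hx⟩ := hOSC (fun m => (R m / R (m + 1)) ^ d) (1 / 10000) (by norm_num)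
      (fun m => (pow_pos (hdiv0 m) d).le) (fun m => pow_le_one₀ (hdiv0 m).le (hdiv m)) (max m₀ m₁)
    have hm0 : m₀ ≤ m := le_trans (le_max_left _ _) hm
    have hm1 : m₁ ≤ m := le_trans (le_max_right _ _) hm
    have g0 : n (m + 1) = n m + d := h m hm0
    have g1 : n (m + 2) = n (m + 1) + d := h (m + 1) (by omega)
    have g2 : n (m + 3) = n (m + 2) + d := h (m + 2) (by omega)
    have hμe : ‖a (n (m + 3))‖ * R (m + 2) ^ (n (m + 3)) =
        ‖a (n (m + 2))‖ * R (m + 2) ^ (n (m + 2)) := heq (m + 2)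
    have hxe : ‖a (n (m + 1))‖ * R (m + 2) ^ (n (m + 1)) =
        (R (m + 1) / R (m + 2)) ^ d * (‖a (n (m + 2))‖ * R (m + 2) ^ (n (m + 2))) := by
      have := scale_eq (hRpos (m + 1)) (hRpos (m + 2)) (show n (m + 1) ≤ n (m + 2) by omega)
        (heq (m + 1)).symm
      rw [show n (m + 2) - n (m + 1) = d by omega] at this
      exact this
    have hlow : ∀ k j : ℕ, k + j * d = n (m + 1) → ‖a k‖ * R (m + 2) ^ k ≤
        ((R (m + 1) / R (m + 2)) ^ d) ^ j * ((R m / R (m + 1)) ^ d) ^ j *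
          (‖a (n (m + 1))‖ * R (m + 2) ^ (n (m + 1))) := by
      intro k j hk
      have hkle : k ≤ n (m + 1) := by omega
      have hjd : n (m + 1) - k = d * j := by rw [← hk, Nat.mul_comm d j]; omega
      have s1 : ‖a k‖ * R (m + 1) ^ k ≤ (R m / R (m + 1)) ^ (n (m + 1) - k) *
          (‖a (n (m + 1))‖ * R (m + 1) ^ (n (m + 1))) := by
        refine scale (hRpos m) (hRpos (m + 1)) hkle ?_
        rw [heq m]; exact hmax m k
      have s2 : ‖a k‖ * R (m + 1) ^ k ≤ ((R m / R (m + 1)) ^ (n (m + 1) - k) *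
          ‖a (n (m + 1))‖) * R (m + 1) ^ (n (m + 1)) := by
        rw [mul_assoc]; exact s1
      have s3 := scale (hRpos (m + 1)) (hRpos (m + 2)) hkle s2
      rw [hjd, pow_mul, pow_mul] at s3
      calc _ ≤ _ := s3
        _ = _ := by ring
    refine ⟨R (m + 2), hm₁ _ (by omega), hRpos _, ‖a (n (m + 3))‖ * R (m + 2) ^ (n (m + 3)),
      mul_pos (hpos _) (pow_pos (hRpos _) _), ?_, ?_⟩
    · intro k
      rw [hμe]; exact hmax (m + 2) k
    · intro M hB
      refine hLB a (R (m + 2)) M hB (n (m + 3)) d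
        (‖a (n (m + 3))‖ * R (m + 2) ^ (n (m + 3))) ((R (m + 1) / R (m + 2)) ^ d)
        ((R m / R (m + 1)) ^ d) hd (by omega) (mul_pos (hpos _) (pow_pos (hRpos _) _))
        (pow_pos (hdiv0 (m + 1)) d).le (pow_le_one₀ (hdiv0 (m + 1)).le (hdiv (m + 1)))
        (pow_pos (hdiv0 m) d).le (pow_le_one₀ (hdiv0 m).le (hdiv m)) hx rfl ?_ ?_ ?_ ?_
      · rw [show n (m + 3) - d = n (m + 2) by omega, hμe]
      · rw [show n (m + 3) - 2 * d = n (m + 1) by omega, hμe]
        exact hxe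
      · intro k hk
        have := hlow k 1 (by omega)
        rw [hxe] at this
        rw [hμe]
        calc _ ≤ _ := this
          _ = _ := by ring
      · intro k hk
        have := hlow k 2 (by omega)
        rw [hxe] at this
        rw [hμe]
        calc _ ≤ _ := this
          _ = _ := by ring

end Pool.Agent.H792R3.BB
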